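import Pool.Agent.H78String.Level

set_option autoImplicit false

open MeasureTheory Set Metric
open scoped Real Pointwise RealInnerProductSpace

namespace Pool.Agent.H78String

/-- signed visibility function -/
noncomputable def psi (K : Set E2) (x : E2) (θ : ℝ) : ℝ := ⟪x, dir θ⟫ - supp K (dir θ)

lemma psi_continuous {K : Set E2} (hK : Body K) (x : E2) : Continuous (psi K x) :=
  (continuous_inner_dir x).sub (continuous_supp_dir hK.compact hK.ne)

lemma psi_periodic (K : Set E2) (x : E2) (θ : ℝ) : psi K x (θ + 2 * π) = psi K x θ := by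
  simp [psi, dir_add_two_pi]

lemma dir_between (θ1 θ θ2 : ℝ) : Real.sin (θ2 - θ1) • dir θ =
    Real.sin (θ2 - θ) • dir θ1 + Real.sin (θ - θ1) • dir θ2 := by
  apply ext2
  · simp only [PiLp.smul_apply, PiLp.add_apply, smul_eq_mul, dir_zero, Real.sin_sub]
    have := Real.sin_sq_add_cos_sq θ
    ring
  · simp only [PiLp.smul_apply, PiLp.add_apply, smul_eq_mul, dir_one, Real.sin_sub]
    ring

lemma psi_between {K : Set E2} (hK : Body K) (x : E2) {θ1 θ θ2 : ℝ} (h1 : θ1 < θ) (h2 : θ < θ2)
    (h3 : θ2 - θ1 < π) : Real.sin (θ2 - θ) * psi K x θ1 + Real.sin (θ - θ1) * psi K x θ2 ≤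
      Real.sin (θ2 - θ1) * psi K x θ := by
  have s1 : 0 ≤ Real.sin (θ2 - θ) := (Real.sin_pos_of_pos_of_lt_pi (by linarith) (by linarith)).le
  have s2 : 0 ≤ Real.sin (θ - θ1) := (Real.sin_pos_of_pos_of_lt_pi (by linarith) (by linarith)).le
  have s3 : 0 ≤ Real.sin (θ2 - θ1) := (Real.sin_pos_of_pos_of_lt_pi (by linarith) (by linarith)).le
  have e := dir_between θ1 θ θ2
  have h4 := supp_add_le hK.compact hK.ne (Real.sin (θ2 - θ) • dir θ1) (Real.sin (θ - θ1) • dir θ2)
  rw [← e, supp_smul hK.compact hK.ne s1, supp_smul hK.compact hK.ne s2,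
    supp_smul hK.compact hK.ne s3] at h4
  have h5 : Real.sin (θ2 - θ1) * ⟪x, dir θ⟫ =
      Real.sin (θ2 - θ) * ⟪x, dir θ1⟫ + Real.sin (θ - θ1) * ⟪x, dir θ2⟫ := by
    rw [← real_inner_smul_right, e, inner_add_right, real_inner_smul_right,
      real_inner_smul_right]
  simp only [psi]
  linarith

lemma psi_antipodal {K : Set E2} (hK : Body K) (x : E2) (θ : ℝ) :
    psi K x θ + psi K x (θ + π) < 0 := by
  obtain ⟨o, ho⟩ := hK.int
  rw [mem_interior_iff_mem_nhds, Metric.mem_nhds_iff] at ho
  obtain ⟨ε, hε, hball⟩ := ho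
  have h1 : o + (ε / 2) • dir θ ∈ K := by
    apply hball
    rw [mem_ball, dist_eq_norm, add_sub_cancel_left, norm_smul, norm_dir]
    simp [abs_of_pos hε]
    linarith
  have h2 : o ∈ K := hball (mem_ball_self hε)
  have h3 := le_supp hK.compact h1 (dir θ)
  have h4 := le_supp hK.compact h2 (dir (θ + π))
  simp only [psi]
  rw [dir_add_pi] at h4 ⊢
  rw [inner_add_left, real_inner_smul_left, real_inner_self_eq_norm_sq, norm_dir] at h3
  rw [inner_neg_right] at h4 ⊢
  linarith

/-- The set of directions separating `x` from `K` is an open arc of length less than `π`. -/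
lemma arc_structure {K : Set E2} (hK : Body K) {x : E2} (hx : x ∉ K) :
    ∃ α β : ℝ, α < β ∧ β < α + π ∧ psi K x α = 0 ∧ psi K x β = 0 ∧
      (∀ θ, α < θ → θ < β → 0 < psi K x θ) ∧
      (∀ θ, β < θ → θ < α + 2 * π → psi K x θ < 0) := by
  have hπ := Real.pi_pos
  obtain ⟨θ0, hθ0'⟩ := exists_dir_pos hK hx
  have hθ0 : 0 < psi K x θ0 := by simp only [psi]; linarith
  have hp : psi K x (θ0 + π) < 0 := by
    have := psi_antipodal hK x θ0
    linarith
  have hm : psi K x (θ0 - π) < 0 := by
    have := psi_periodic K x (θ0 - π)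
    rw [show θ0 - π + 2 * π = θ0 + π by ring] at this
    linarith
  have hcont := psi_continuous hK x
  obtain ⟨β, hβ, hβ0⟩ : (0:ℝ) ∈ psi K x '' Ioo θ0 (θ0 + π) := by
    apply intermediate_value_Ioo' (by linarith) hcont.continuousOn
    exact ⟨hp, hθ0⟩
  obtain ⟨α, hα, hα0⟩ : (0:ℝ) ∈ psi K x '' Ioo (θ0 - π) θ0 := by
    apply intermediate_value_Ioo (by linarith) hcont.continuousOn
    exact ⟨hm, hθ0⟩
  have hsin : ∀ t, 0 < t → t < π → 0 < Real.sin t := fun t h1 h2 =>
    Real.sin_pos_of_pos_of_lt_pi h1 h2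
  have hβα : β < α + π := by
    by_contra hcon
    push Not at hcon
    rcases hcon.lt_or_eq with h | h
    · have h1 := psi_between hK x (θ1 := β) (θ := θ0 + π) (θ2 := α + 2 * π) hβ.2
        (by linarith [hα.1]) (by linarith)
      rw [psi_periodic, hα0, hβ0] at h1
      have h2 := hsin (α + 2 * π - β) (by linarith [hβ.2, hα.1]) (by linarith)
      nlinarith
    · have h1 := psi_antipodal hK x α
      rw [h, hα0, hβ0] at h1
      linarith
  refine ⟨α, β, by linarith [hα.2, hβ.1], hβα, hα0, hβ0, ?_, ?_⟩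
  · intro θ h1 h2
    rcases lt_trichotomy θ θ0 with h | h | h
    · have h3 := psi_between hK x h1 h (by linarith [hα.1])
      rw [hα0] at h3
      have h4 := hsin (θ - α) (by linarith) (by linarith [hα.1])
      have h5 := hsin (θ0 - α) (by linarith) (by linarith [hα.1])
      by_contra hcon
      push Not at hcon
      nlinarith [mul_pos h4 hθ0]
    · rw [h]; exact hθ0
    · have h3 := psi_between hK x h h2 (by linarith [hβ.2])
      rw [hβ0] at h3
      have h4 := hsin (β - θ) (by linarith) (by linarith [hβ.2])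
      have h5 := hsin (β - θ0) (by linarith) (by linarith [hβ.2])
      by_contra hcon
      push Not at hcon
      nlinarith [mul_pos h4 hθ0]
  · intro θ h1 h2
    by_contra hcon
    push Not at hcon
    rcases lt_trichotomy θ (θ0 + π) with h | h | h
    · have h3 := psi_between hK x hβ.1 h1 (by linarith)
      rw [hβ0] at h3
      have h4 := hsin (θ - β) (by linarith) (by linarith [hβ.1])
      have h5 := hsin (β - θ0) (by linarith [hβ.1]) (by linarith [hβ.2])
      nlinarith [mul_pos h4 hθ0, mul_nonneg h5.le hcon]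
    · rw [h] at hcon; linarith
    · have e : psi K x (θ - 2 * π) = psi K x θ := by
        rw [← psi_periodic K x (θ - 2 * π)]; ring_nf
      have h3 := psi_between hK x (θ1 := θ - 2 * π) (θ := α) (θ2 := θ0) (by linarith) hα.2
        (by linarith)
      rw [hα0, e] at h3
      have h4 := hsin (θ0 - α) (by linarith [hα.2]) (by linarith [hα.1])
      have h5 := hsin (α - (θ - 2 * π)) (by linarith) (by linarith [hα.2])
      nlinarith [mul_pos h5 hθ0, mul_nonneg h4.le hcon]

end Pool.Agent.H78String
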