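import Mathlib

set_option autoImplicit false

open MeasureTheory Set Metric
open scoped Real Pointwise RealInnerProductSpace

namespace Pool.Agent.H78String

/-- The Euclidean plane. -/
abbrev E2 := EuclideanSpace ℝ (Fin 2)

/-- The unit vector in direction `θ`. -/
noncomputable def dir (θ : ℝ) : E2 := !₂[Real.cos θ, Real.sin θ]

/-- The support function of a set. -/
noncomputable def supp (K : Set E2) (v : E2) : ℝ := sSup ((fun x : E2 => ⟪x, v⟫) '' K)

/-- Cauchy perimeter: integral of the support function over all directions. -/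
noncomputable def cper (K : Set E2) : ℝ := ∫ θ in (0:ℝ)..(2 * π), supp K (dir θ)

lemma inner_eq (x y : E2) : ⟪x, y⟫ = x 0 * y 0 + x 1 * y 1 := by
  simp [PiLp.inner_apply, Fin.sum_univ_two, mul_comm]

lemma dir_zero (θ : ℝ) : dir θ 0 = Real.cos θ := by simp [dir]
lemma dir_one (θ : ℝ) : dir θ 1 = Real.sin θ := by simp [dir]

lemma inner_dir (x : E2) (θ : ℝ) : ⟪x, dir θ⟫ = x 0 * Real.cos θ + x 1 * Real.sin θ := by
  rw [inner_eq, dir_zero, dir_one]

lemma norm_sq_eq (x : E2) : ‖x‖ ^ 2 = x 0 ^ 2 + x 1 ^ 2 := by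
  rw [← real_inner_self_eq_norm_sq, inner_eq]; ring

lemma norm_dir (θ : ℝ) : ‖dir θ‖ = 1 := by
  have h : ‖dir θ‖ ^ 2 = 1 := by
    rw [norm_sq_eq, dir_zero, dir_one]; exact Real.cos_sq_add_sin_sq θ
  nlinarith [norm_nonneg (dir θ)]

lemma continuous_dir : Continuous dir := by
  unfold dir
  fun_prop

lemma ext2 {x y : E2} (h0 : x 0 = y 0) (h1 : x 1 = y 1) : x = y := by
  ext i; fin_cases i
  · exact h0
  · exact h1

/-! ### support function -/

lemma bddAbove_inner {K : Set E2} (hK : IsCompact K) (v : E2) :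
    BddAbove ((fun x : E2 => ⟪x, v⟫) '' K) :=
  (hK.image (by fun_prop)).bddAbove

lemma le_supp {K : Set E2} (hK : IsCompact K) {x : E2} (hx : x ∈ K) (v : E2) :
    ⟪x, v⟫ ≤ supp K v :=
  le_csSup (bddAbove_inner hK v) ⟨x, hx, rfl⟩

lemma exists_eq_supp {K : Set E2} (hK : IsCompact K) (hne : K.Nonempty) (v : E2) :
    ∃ x ∈ K, ⟪x, v⟫ = supp K v := by
  obtain ⟨x, hx, h⟩ := hK.exists_isMaxOn hne
    (f := fun x : E2 => ⟪x, v⟫) (by fun_prop : Continuous fun x : E2 => ⟪x, v⟫).continuousOn
  refine ⟨x, hx, le_antisymm (le_supp hK hx v) ?_⟩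
  refine csSup_le (hne.image _) ?_
  rintro _ ⟨y, hy, rfl⟩
  exact h hy

lemma supp_le {K : Set E2} (hne : K.Nonempty) {v : E2} {c : ℝ}
    (h : ∀ x ∈ K, ⟪x, v⟫ ≤ c) : supp K v ≤ c := by
  refine csSup_le (hne.image _) ?_
  rintro _ ⟨y, hy, rfl⟩
  exact h y hy

lemma supp_mono {K L : Set E2} (hne : K.Nonempty) (hL : IsCompact L) (h : K ⊆ L) (v : E2) :
    supp K v ≤ supp L v :=
  supp_le hne fun _ hx => le_supp hL (h hx) v

lemma supp_add_le {K : Set E2} (hK : IsCompact K) (hne : K.Nonempty) (v w : E2) :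
    supp K (v + w) ≤ supp K v + supp K w := by
  refine supp_le hne fun x hx => ?_
  rw [inner_add_right]
  exact add_le_add (le_supp hK hx v) (le_supp hK hx w)

lemma supp_smul {K : Set E2} (hK : IsCompact K) (hne : K.Nonempty) {r : ℝ} (hr : 0 ≤ r) (v : E2) :
    supp K (r • v) = r * supp K v := by
  apply le_antisymm
  · refine supp_le hne fun x hx => ?_
    rw [real_inner_smul_right]
    exact mul_le_mul_of_nonneg_left (le_supp hK hx v) hr
  · obtain ⟨x, hx, h⟩ := exists_eq_supp hK hne v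
    rw [← h, ← real_inner_smul_right]
    exact le_supp hK hx _

lemma exists_bound {K : Set E2} (hK : IsCompact K) : ∃ R : ℝ, 0 ≤ R ∧ ∀ x ∈ K, ‖x‖ ≤ R := by
  obtain ⟨R, hR⟩ := hK.isBounded.exists_norm_le
  exact ⟨max R 0, le_max_right _ _, fun x hx => (hR x hx).trans (le_max_left _ _)⟩

lemma supp_sub_le {K : Set E2} (hK : IsCompact K) (hne : K.Nonempty) {R : ℝ}
    (hR : ∀ x ∈ K, ‖x‖ ≤ R) (v w : E2) : supp K v - supp K w ≤ R * ‖v - w‖ := by
  obtain ⟨x, hx, h⟩ := exists_eq_supp hK hne v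
  have h1 := le_supp hK hx w
  have h2 : ⟪x, v - w⟫ ≤ ‖x‖ * ‖v - w‖ := real_inner_le_norm _ _
  rw [inner_sub_right] at h2
  have h3 : ‖x‖ * ‖v - w‖ ≤ R * ‖v - w‖ := by gcongr; exact hR x hx
  linarith

lemma continuous_supp {K : Set E2} (hK : IsCompact K) (hne : K.Nonempty) :
    Continuous (supp K) := by
  obtain ⟨R, hR0, hR⟩ := exists_bound hK
  refine LipschitzWith.continuous (K := R.toNNReal) (LipschitzWith.of_dist_le_mul fun v w => ?_)
  rw [Real.dist_eq, dist_eq_norm, abs_le, Real.coe_toNNReal _ hR0]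
  constructor
  · have := supp_sub_le hK hne hR w v
    rw [norm_sub_rev] at this
    linarith
  · exact supp_sub_le hK hne hR v w

lemma continuous_supp_dir {K : Set E2} (hK : IsCompact K) (hne : K.Nonempty) :
    Continuous fun θ => supp K (dir θ) :=
  (continuous_supp hK hne).comp continuous_dir

lemma inner_le_supp_of_mem_convexHull {K : Set E2} (hK : IsCompact K) (v : E2) {x : E2}
    (hx : x ∈ convexHull ℝ K) : ⟪x, v⟫ ≤ supp K v := by
  have hconv : Convex ℝ {y : E2 | ⟪y, v⟫ ≤ supp K v} :=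
    convex_halfSpace_le (𝕜 := ℝ) (f := fun y : E2 => ⟪y, v⟫)
      ⟨fun x y => inner_add_left _ _ _, fun c x => by rw [real_inner_smul_left]; rfl⟩
      (supp K v)
  exact convexHull_min (fun y hy => le_supp hK hy v) hconv hx

lemma supp_convexHull {K : Set E2} (hK : IsCompact K) (hne : K.Nonempty) (v : E2) :
    supp (convexHull ℝ K) v = supp K v := by
  apply le_antisymm
  · exact supp_le (hne.mono (subset_convexHull ℝ K)) fun x hx =>
      inner_le_supp_of_mem_convexHull hK v hx
  · refine supp_le hne fun x hx => ?_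
    refine le_csSup ⟨supp K v, ?_⟩ ⟨x, subset_convexHull ℝ K hx, rfl⟩
    rintro _ ⟨y, hy, rfl⟩
    exact inner_le_supp_of_mem_convexHull hK v hy

lemma isCompact_convexHull_insert {K : Set E2} (hK : IsCompact K) (hc : Convex ℝ K)
    (hne : K.Nonempty) (x : E2) : IsCompact (convexHull ℝ (insert x K)) := by
  have h : convexHull ℝ (insert x K) =
      (fun p : E2 × ℝ => x + p.2 • (p.1 - x)) '' (K ×ˢ Icc (0:ℝ) 1) := by
    rw [convexHull_insert hne, hc.convexHull_eq, convexJoin_singleton_left]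
    ext z
    simp only [mem_iUnion, exists_prop, mem_image, mem_prod, Prod.exists, segment_eq_image']
    constructor
    · rintro ⟨y, hy, t, ht, rfl⟩
      exact ⟨y, t, ⟨hy, ht⟩, rfl⟩
    · rintro ⟨y, t, ⟨hy, ht⟩, rfl⟩
      exact ⟨y, hy, t, ht, rfl⟩
  rw [h]
  exact (hK.prod isCompact_Icc).image (by fun_prop)

lemma supp_insert {K : Set E2} (hK : IsCompact K) (hne : K.Nonempty) (x v : E2) :
    supp (insert x K) v = max ⟪x, v⟫ (supp K v) := by
  have hc : IsCompact (insert x K) := hK.insert x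
  apply le_antisymm
  · refine supp_le (insert_nonempty _ _) fun y hy => ?_
    rcases hy with rfl | hy
    · exact le_max_left _ _
    · exact (le_supp hK hy v).trans (le_max_right _ _)
  · exact max_le (le_supp hc (mem_insert _ _) v) (supp_mono hne hc (subset_insert _ _) v)

lemma supp_convexHull_insert {K : Set E2} (hK : IsCompact K) (hne : K.Nonempty) (x v : E2) :
    supp (convexHull ℝ (insert x K)) v = max ⟪x, v⟫ (supp K v) := by
  rw [supp_convexHull (hK.insert x) (insert_nonempty _ _), supp_insert hK hne]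

lemma supp_singleton (x v : E2) : supp {x} v = ⟪x, v⟫ := by
  simp [supp]

lemma supp_smul_set {K : Set E2} (hK : IsCompact K) (hne : K.Nonempty) {r : ℝ} (hr : 0 ≤ r)
    (v : E2) : supp (r • K) v = r * supp K v := by
  apply le_antisymm
  · refine supp_le (hne.smul_set) ?_
    rintro _ ⟨x, hx, rfl⟩
    simp only [real_inner_smul_left]
    exact mul_le_mul_of_nonneg_left (le_supp hK hx v) hr
  · obtain ⟨x, hx, h⟩ := exists_eq_supp hK hne v
    rw [← h, ← real_inner_smul_left]
    exact le_supp (hK.smul r) (smul_mem_smul_set hx) _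

lemma cper_mono {K L : Set E2} (hK : IsCompact K) (hne : K.Nonempty) (hL : IsCompact L)
    (h : K ⊆ L) : cper K ≤ cper L := by
  unfold cper
  refine intervalIntegral.integral_mono (by positivity)
    ((continuous_supp_dir hK hne).intervalIntegrable _ _)
    ((continuous_supp_dir hL (hne.mono h)).intervalIntegrable _ _) ?_
  intro θ
  exact supp_mono hne hL h _

lemma cper_smul {K : Set E2} (hK : IsCompact K) (hne : K.Nonempty) {r : ℝ} (hr : 0 ≤ r) :
    cper (r • K) = r * cper K := by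
  unfold cper
  rw [← intervalIntegral.integral_const_mul]
  congr 1
  ext θ
  exact supp_smul_set hK hne hr _

end Pool.Agent.H78String
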