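import Pool.Agent.H78String.Polygon

set_option autoImplicit false

open MeasureTheory Set Metric
open scoped Real Pointwise RealInnerProductSpace

namespace Pool.Agent.H78String

lemma supp_homothety {K : Set E2} (hK : IsCompact K) (hne : K.Nonempty) (o : E2) {r : ℝ}
    (hr : 0 ≤ r) (v : E2) :
    supp (AffineMap.homothety o r '' K) v = (1 - r) * ⟪o, v⟫ + r * supp K v := by
  have hc : IsCompact (AffineMap.homothety o r '' K) :=
    hK.image (AffineMap.homothety_continuous o r)
  have hval : ∀ z, ⟪AffineMap.homothety o r z, v⟫ = (1 - r) * ⟪o, v⟫ + r * ⟪z, v⟫ := by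
    intro z
    rw [AffineMap.homothety_apply, vsub_eq_sub, vadd_eq_add, inner_add_left, real_inner_smul_left,
      inner_sub_left]
    ring
  apply le_antisymm
  · refine supp_le (hne.image _) ?_
    rintro _ ⟨z, hz, rfl⟩
    rw [hval]
    have := mul_le_mul_of_nonneg_left (le_supp hK hz v) hr
    linarith
  · obtain ⟨z, hz, h⟩ := exists_eq_supp hK hne v
    rw [← h, ← hval]
    exact le_supp hc ⟨z, hz, rfl⟩ v

lemma cper_homothety {K : Set E2} (hK : IsCompact K) (hne : K.Nonempty) (o : E2) {r : ℝ}
    (hr : 0 ≤ r) : cper (AffineMap.homothety o r '' K) = r * cper K := by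
  unfold cper
  simp_rw [supp_homothety hK hne o hr]
  rw [intervalIntegral.integral_add
    (((continuous_inner_dir o).intervalIntegrable _ _).const_mul _)
    (((continuous_supp_dir hK hne).intervalIntegrable _ _).const_mul _),
    intervalIntegral.integral_const_mul, intervalIntegral.integral_const_mul, integral_inner]
  ring

lemma frontier_homothety (K : Set E2) (o : E2) {r : ℝ} (hr : r ≠ 0) :
    frontier (AffineMap.homothety o r '' K) = AffineMap.homothety o r '' frontier K := by
  let e : E2 ≃ᵃ[ℝ] E2 := AffineEquiv.homothetyUnitsMulHom o (Units.mk0 r hr)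
  have he : (e : E2 → E2) = AffineMap.homothety o r := by
    ext z; simp [e]
  let h : E2 ≃ₜ E2 := (AffineEquiv.toContinuousAffineEquiv e).toHomeomorph
  have hh : (h : E2 → E2) = AffineMap.homothety o r := by
    rw [← he]; rfl
  rw [← hh, h.image_frontier]

/-- **Cauchy's perimeter formula**: the one-dimensional Hausdorff measure of the frontier of a
planar convex body is the integral of the support function over all directions. -/
theorem cauchy {K : Set E2} (hK : Body K) :
    μH[1] (frontier K) = ENNReal.ofReal (cper K) := by
  obtain ⟨o, ho⟩ := hK.int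
  have key : ∀ r : ℝ, 1 < r → μH[1] (frontier K) ≤ ENNReal.ofReal (r * cper K) ∧
      ENNReal.ofReal (cper K) ≤ ENNReal.ofReal r * μH[1] (frontier K) := by
    intro r hr
    have hr0 : 0 < r := by linarith
    set L := AffineMap.homothety o r '' K with hLdef
    have hsub := hK.convex.subset_interior_image_homothety_of_one_lt ho r hr
    have hLcomp : IsCompact L := hK.compact.image (AffineMap.homothety_continuous o r)
    have hLconv : Convex ℝ L := hK.convex.affine_image _
    have hL : Body L := ⟨hLcomp, hLconv, hK.ne.mono hsub⟩
    obtain ⟨u, hu1, hu2⟩ := Convex.exists_subset_interior_convexHull_finset_of_isCompact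
      hK.convex hK.compact (t := L) (subset_interior_iff_mem_nhdsSet.1 hsub)
    have huint : (interior (convexHull ℝ (u : Set E2))).Nonempty := hK.ne.mono hu1
    have hU : Body (convexHull ℝ (u : Set E2)) := body_hull_finset huint
    have cU := cauchy_polygon u huint
    have hKU : K ⊆ convexHull ℝ (u : Set E2) := hu1.trans interior_subset
    constructor
    · calc μH[1] (frontier K) ≤ μH[1] (frontier (convexHull ℝ (u : Set E2))) :=
            frontier_mono hK hU hKU
        _ = ENNReal.ofReal (cper (convexHull ℝ (u : Set E2))) := cU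
        _ ≤ ENNReal.ofReal (cper L) := ENNReal.ofReal_le_ofReal (cper_mono hU.compact hU.ne hL.compact hu2)
        _ = ENNReal.ofReal (r * cper K) := by rw [hLdef, cper_homothety hK.compact hK.ne o hr0.le]
    · calc ENNReal.ofReal (cper K) ≤ ENNReal.ofReal (cper (convexHull ℝ (u : Set E2))) :=
            ENNReal.ofReal_le_ofReal (cper_mono hK.compact hK.ne hU.compact hKU)
        _ = μH[1] (frontier (convexHull ℝ (u : Set E2))) := cU.symm
        _ ≤ μH[1] (frontier L) := frontier_mono hU hL hu2
        _ = ENNReal.ofReal r * μH[1] (frontier K) := by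
            rw [hLdef, frontier_homothety K o hr0.ne',
              hausdorffMeasure_homothety_image zero_le_one o hr0.ne', NNReal.rpow_one,
              ENNReal.smul_def, smul_eq_mul]
            congr 1
            rw [ENNReal.ofReal, Real.toNNReal_eq_nnnorm_of_nonneg hr0.le]
  have h0 := cper_nonneg hK.compact hK.convex hK.ne
  apply le_antisymm
  · apply ENNReal.le_of_forall_pos_le_add
    intro ε hε _
    have h1 := (key (1 + ε / (cper K + 1)) (by
      have : 0 < (ε : ℝ) / (cper K + 1) := by positivity
      linarith)).1
    refine h1.trans ?_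
    rw [show (ε : ENNReal) = ENNReal.ofReal (ε : ℝ) by simp, ← ENNReal.ofReal_add h0 (by positivity)]
    apply ENNReal.ofReal_le_ofReal
    have : (ε : ℝ) / (cper K + 1) * cper K ≤ ε := by
      rw [div_mul_eq_mul_div, div_le_iff₀ (by positivity)]
      have := ε.2
      nlinarith [NNReal.coe_nonneg ε]
    linarith
  · have hfin : μH[1] (frontier K) ≠ ⊤ := ((key 2 (by norm_num)).1.trans_lt ENNReal.ofReal_lt_top).ne
    rw [ENNReal.ofReal_le_iff_le_toReal hfin]
    set P := (μH[1] (frontier K)).toReal with hP
    have hP0 : 0 ≤ P := ENNReal.toReal_nonneg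
    have h1 : ∀ r : ℝ, 1 < r → cper K ≤ r * P := by
      intro r hr
      have h2 := (key r hr).2
      rw [← ENNReal.ofReal_toReal hfin, ← ENNReal.ofReal_mul (by linarith)] at h2
      exact (ENNReal.ofReal_le_ofReal_iff (by positivity)).1 h2
    by_contra hcon
    push Not at hcon
    have h2 := h1 (1 + (cper K - P) / (2 * (P + 1))) (by
      have : 0 < (cper K - P) / (2 * (P + 1)) := div_pos (by linarith) (by positivity)
      linarith)
    have h3 : (cper K - P) / (2 * (P + 1)) * P ≤ (cper K - P) / 2 := by
      rw [div_mul_eq_mul_div, div_le_div_iff₀ (by positivity) (by positivity)]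
      nlinarith
    linarith

lemma cauchy_toReal {K : Set E2} (hK : Body K) : (μH[1] (frontier K)).toReal = cper K := by
  rw [cauchy hK, ENNReal.toReal_ofReal (cper_nonneg hK.compact hK.convex hK.ne)]

end Pool.Agent.H78String
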