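import Pool.Agent.H78String.Func

set_option autoImplicit false

open MeasureTheory Set Metric
open scoped Real Pointwise RealInnerProductSpace Topology

namespace Pool.Agent.H78String

/-- normalised gradient -/
noncomputable def N (K : Set E2) (x : E2) : E2 := (‖G K x‖ ^ 2)⁻¹ • G K x

/-- The reciprocity relation for chords of a level curve that avoid `K`. -/
lemma chord_relation {K : Set E2} (hK : Body K) (hT : Trans K) {C : ℝ} {x x' : E2}
    (hx : F K x = C) (hx' : F K x' = C) (hxx : x ≠ x') (hseg : ∀ z ∈ segment ℝ x x', z ∉ K) :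
    ⟪N K x + N K x', x - x'⟫ = 0 := by
  -- minimum point on the segment
  have hcomp : IsCompact (segment ℝ x x') := by
    rw [segment_eq_image_lineMap]
    exact isCompact_Icc.image AffineMap.lineMap_continuous
  obtain ⟨p, hp, hpmin⟩ := hcomp.exists_isMinOn ⟨x, left_mem_segment _ _ _⟩
    (F_continuous hK).continuousOn
  have hmseg : (1/2 : ℝ) • (x + x') ∈ segment ℝ x x' := by
    refine ⟨1/2, 1/2, by norm_num, by norm_num, by norm_num, ?_⟩
    rw [smul_add]
  have hmid := F_strict_mid hK hxx (hseg _ hmseg)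
  rw [hx, hx'] at hmid
  set c := F K p with hc
  have hcC : c < C := by
    have : F K p ≤ F K ((1/2 : ℝ) • (x + x')) := hpmin hmseg
    linarith
  have hpK : p ∉ K := hseg p hp
  have hcK : cper K < c := cper_lt_F hK hpK
  have hL := sub_body hK hcK.le
  have hpL : p ∈ sub K c := le_refl c
  have hxK : x ∉ K := hseg x (left_mem_segment _ _ _)
  have hx'K : x' ∉ K := hseg x' (right_mem_segment _ _ _)
  have hxL : x ∉ sub K c := fun h => by
    have : F K x ≤ c := h
    linarith
  have hx'L : x' ∉ sub K c := fun h => by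
    have : F K x' ≤ c := h
    linarith
  -- parametrise p
  rw [segment_eq_image'] at hp
  obtain ⟨t, ⟨ht0, ht1⟩, htp'⟩ := hp
  have htp : x + t • (x' - x) = p := htp'
  have ht0' : 0 < t := by
    rcases ht0.lt_or_eq with h | h
    · exact h
    · exfalso
      rw [← h, zero_smul, add_zero] at htp
      rw [hc, ← htp, hx] at hcC
      exact lt_irrefl _ hcC
  have ht1' : t < 1 := by
    rcases ht1.lt_or_eq with h | h
    · exact h
    · exfalso
      rw [h, one_smul, add_sub_cancel] at htp
      rw [hc, ← htp, hx'] at hcC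
      exact lt_irrefl _ hcC
  -- the gradient at p is orthogonal to the chord
  have hgrad : ⟪G K p, x' - x⟫ = 0 := by
    have hline : HasDerivAt (fun s : ℝ => x + s • (x' - x)) (x' - x) t := by
      have := ((hasDerivAt_id t).smul_const (x' - x)).const_add x
      simpa using this
    have h1 := (F_hasStrictFDerivAt hK hpK).hasFDerivAt
    rw [← htp] at h1
    have h2 := h1.comp_hasDerivAt t hline
    rw [innerSL_apply_apply] at h2
    rw [htp] at h2
    refine IsLocalMin.hasDerivAt_eq_zero ?_ h2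
    have hio : Ioo (0:ℝ) 1 ∈ 𝓝 t := Ioo_mem_nhds ht0' ht1'
    filter_upwards [hio] with s hs
    show F K (x + t • (x' - x)) ≤ F K (x + s • (x' - x))
    rw [htp]
    apply hpmin
    rw [segment_eq_image']
    exact ⟨s, ⟨hs.1.le, hs.2.le⟩, rfl⟩
  -- the supporting direction
  set n := G K p with hn
  have hn0 : n ≠ 0 := G_ne_zero hK hpK
  have hnpos : 0 < ‖n‖ := norm_pos_iff.2 hn0
  obtain ⟨φ, hφ⟩ := exists_polar n
  have hsupp : supp (sub K c) n = ⟪p, n⟫ := by
    apply le_antisymm
    · refine supp_le hL.ne fun y hy => ?_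
      have h1 := F_subgrad hK p y
      have h2 : F K y ≤ c := hy
      rw [← hn, inner_sub_right, real_inner_comm, real_inner_comm p n] at h1
      linarith
    · exact le_supp hL.compact hpL n
  have hpφ : ⟪p, dir φ⟫ = supp (sub K c) (dir φ) := by
    rw [hφ, supp_smul hL.compact hL.ne hnpos.le, real_inner_smul_right] at hsupp
    exact (mul_left_cancel₀ hnpos.ne' hsupp).symm
  have horth : ⟪x' - x, dir φ⟫ = 0 := by
    rw [hφ, real_inner_smul_left, real_inner_comm] at hgrad
    rcases mul_eq_zero.1 hgrad with h | h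
    · exact absurd h hnpos.ne'
    · exact h
  have hxφ : ⟪x, dir φ⟫ = supp (sub K c) (dir φ) := by
    rw [← hpφ, ← htp, inner_add_left, real_inner_smul_left, horth]; ring
  have hx'φ : ⟪x', dir φ⟫ = supp (sub K c) (dir φ) := by
    rw [← hxφ]; rw [inner_sub_left] at horth; linarith
  have e1 := G_tangent hL hxL hpL hxφ hpφ
  have e2 := G_tangent hL hx'L hpL hx'φ hpφ
  obtain ⟨r, hr⟩ := grad_proportional hK hT hcK hcC
  have hr1 := hr x hx
  have hr2 := hr x' hx'
  have hG1 : 0 < ‖G K x‖ := norm_pos_iff.2 (G_ne_zero hK hxK)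
  have hG2 : 0 < ‖G K x'‖ := norm_pos_iff.2 (G_ne_zero hK hx'K)
  have hr0 : r ≠ 0 := by
    intro h
    rw [h, zero_smul] at hr1
    exact G_ne_zero hL hxL hr1
  have hxp : x - p = t • (x - x') := by
    rw [← htp]; module
  have hx'p : x' - p = (1 - t) • (x' - x) := by
    rw [← htp]; module
  rw [hr1, hxp, norm_smul, norm_smul, real_inner_smul_left, real_inner_smul_right,
    Real.norm_of_nonneg ht0, Real.norm_eq_abs, mul_pow, sq_abs] at e1
  rw [hr2, hx'p, norm_smul, norm_smul, real_inner_smul_left, real_inner_smul_right,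
    Real.norm_of_nonneg (by linarith : (0:ℝ) ≤ 1 - t), Real.norm_eq_abs, mul_pow, sq_abs] at e2
  have f1 : ⟪x - x', G K x⟫ = ‖x - x'‖ * (r * ‖G K x‖ ^ 2 / 2) := by
    have h1 : t * r ≠ 0 := mul_ne_zero ht0'.ne' hr0
    apply mul_left_cancel₀ h1
    linear_combination e1
  have f2 : ⟪x' - x, G K x'⟫ = ‖x' - x‖ * (r * ‖G K x'‖ ^ 2 / 2) := by
    have h1 : (1 - t) * r ≠ 0 := mul_ne_zero (by linarith) hr0
    apply mul_left_cancel₀ h1
    linear_combination e2
  have g1 : ⟪N K x, x - x'⟫ = ‖x - x'‖ * (r / 2) := by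
    rw [N, real_inner_smul_left, real_inner_comm, f1]
    field_simp
  have g2 : ⟪N K x', x' - x⟫ = ‖x - x'‖ * (r / 2) := by
    rw [N, real_inner_smul_left, real_inner_comm, f2, norm_sub_rev x' x]
    field_simp
  have g3 : ⟪N K x', x' - x⟫ = - ⟪N K x', x - x'⟫ := by
    rw [← inner_neg_right]; congr 1; abel
  rw [inner_add_left]
  linarith

end Pool.Agent.H78String
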