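import Pool.Agent.H78String.Chord

set_option autoImplicit false

open MeasureTheory Set Metric
open scoped Real Pointwise RealInnerProductSpace Topology

namespace Pool.Agent.H78String

/-- Data of a quadratic function in two variables. -/
structure Quad where
  a11 : ℝ
  a12 : ℝ
  a22 : ℝ
  b1 : ℝ
  b2 : ℝ
  d : ℝ

/-- `n` is the half-gradient of the quadratic at `x`, and the quadratic vanishes at `x`. -/
def Quad.Fits (q : Quad) (n x : E2) : Prop :=
  n 0 = q.a11 * x 0 + q.a12 * x 1 + q.b1 ∧ n 1 = q.a12 * x 0 + q.a22 * x 1 + q.b2 ∧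
    ⟪n, x⟫ = q.d - (q.b1 * x 0 + q.b2 * x 1)

/-- three point identity -/
lemma three_point {n1 n2 n3 x1 x2 x3 : E2} (h12 : ⟪n1 + n2, x1 - x2⟫ = 0)
    (h13 : ⟪n1 + n3, x1 - x3⟫ = 0) (h23 : ⟪n2 + n3, x2 - x3⟫ = 0) :
    ⟪n2 - n1, x3 - x1⟫ = ⟪n3 - n1, x2 - x1⟫ := by
  rw [inner_eq] at h12 h13 h23
  rw [inner_eq, inner_eq]
  simp only [PiLp.add_apply, PiLp.sub_apply] at *
  linarith

lemma exists_quad {S : Set E2} (n : E2 → E2) {x1 x2 x3 : E2} (h1 : x1 ∈ S) (h2 : x2 ∈ S)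
    (h3 : x3 ∈ S) (hD : det2 (x2 - x1) (x3 - x1) ≠ 0)
    (hrel : ∀ x ∈ S, ∀ y ∈ S, ⟪n x + n y, x - y⟫ = 0) :
    ∃ q : Quad, ∀ x ∈ S, q.Fits (n x) x := by
  set p := x2 - x1 with hp
  set r := x3 - x1 with hr
  set D := det2 p r with hDdef
  set u := n x2 - n x1 with hu
  set v := n x3 - n x1 with hv
  have hsym : ⟪u, r⟫ = ⟪v, p⟫ :=
    three_point (hrel _ h1 _ h2) (hrel _ h1 _ h3) (hrel _ h2 _ h3)
  have hup : ∀ y ∈ S, ⟪u, y - x1⟫ = ⟪n y - n x1, p⟫ := fun y hy =>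
    three_point (hrel _ h1 _ h2) (hrel _ h1 _ hy) (hrel _ h2 _ hy)
  have hvr : ∀ y ∈ S, ⟪v, y - x1⟫ = ⟪n y - n x1, r⟫ := fun y hy =>
    three_point (hrel _ h1 _ h3) (hrel _ h1 _ hy) (hrel _ h3 _ hy)
  rw [inner_eq, inner_eq] at hsym
  have hDe : D = p 0 * r 1 - p 1 * r 0 := rfl
  -- matrix entries
  set a11 := (r 1 * u 0 - p 1 * v 0) / D with ha11
  set a12 := (p 0 * v 0 - r 0 * u 0) / D with ha12
  set a22 := (p 0 * v 1 - r 0 * u 1) / D with ha22
  have ha21 : a12 = (r 1 * u 1 - p 1 * v 1) / D := by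
    rw [ha12]; congr 1; linarith
  have e11 : a11 * D = r 1 * u 0 - p 1 * v 0 := by rw [ha11, div_mul_cancel₀ _ hD]
  have e12 : a12 * D = p 0 * v 0 - r 0 * u 0 := by rw [ha12, div_mul_cancel₀ _ hD]
  have e21 : a12 * D = r 1 * u 1 - p 1 * v 1 := by rw [ha21, div_mul_cancel₀ _ hD]
  have e22 : a22 * D = p 0 * v 1 - r 0 * u 1 := by rw [ha22, div_mul_cancel₀ _ hD]
  set b1 := n x1 0 - (a11 * x1 0 + a12 * x1 1) with hb1
  set b2 := n x1 1 - (a12 * x1 0 + a22 * x1 1) with hb2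
  refine ⟨⟨a11, a12, a22, b1, b2, b1 * x1 0 + b2 * x1 1 + ⟪n x1, x1⟫⟩, fun y hy => ?_⟩
  have k1 := hup y hy
  have k2 := hvr y hy
  rw [inner_eq, inner_eq] at k1 k2
  simp only [PiLp.sub_apply] at k1 k2
  have hn0 : n y 0 = a11 * y 0 + a12 * y 1 + b1 := by
    have : D * (n y 0 - (a11 * y 0 + a12 * y 1 + b1)) = 0 := by
      rw [hb1]
      have : D * (n y 0 - (a11 * y 0 + a12 * y 1 + (n x1 0 - (a11 * x1 0 + a12 * x1 1)))) =
        D * (n y 0 - n x1 0) - (a11 * D) * (y 0 - x1 0) - (a12 * D) * (y 1 - x1 1) := by ring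
      rw [this, e11, e21, hDe]
      linear_combination (-r 1) * k1 + p 1 * k2
    rcases mul_eq_zero.1 this with h | h
    · exact absurd h hD
    · linarith
  have hn1 : n y 1 = a12 * y 0 + a22 * y 1 + b2 := by
    have : D * (n y 1 - (a12 * y 0 + a22 * y 1 + b2)) = 0 := by
      rw [hb2]
      have : D * (n y 1 - (a12 * y 0 + a22 * y 1 + (n x1 1 - (a12 * x1 0 + a22 * x1 1)))) =
        D * (n y 1 - n x1 1) - (a12 * D) * (y 0 - x1 0) - (a22 * D) * (y 1 - x1 1) := by ring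
      rw [this, e12, e22, hDe]
      linear_combination (r 0) * k1 - p 0 * k2
    rcases mul_eq_zero.1 this with h | h
    · exact absurd h hD
    · linarith
  refine ⟨hn0, hn1, ?_⟩
  have k3 := hrel _ h1 _ hy
  rw [inner_eq] at k3
  simp only [PiLp.sub_apply, PiLp.add_apply] at k3
  rw [inner_eq, inner_eq]
  have m1 : n x1 0 = a11 * x1 0 + a12 * x1 1 + b1 := by rw [hb1]; ring
  have m2 : n x1 1 = a12 * x1 0 + a22 * x1 1 + b2 := by rw [hb2]; ring
  rw [hn0, hn1, m1, m2] at k3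
  rw [hn0, hn1, m1, m2]
  linarith

lemma affine_zero {α β γ : ℝ} {x1 x2 x3 : E2} (hD : det2 (x2 - x1) (x3 - x1) ≠ 0)
    (h1 : α * x1 0 + β * x1 1 + γ = 0) (h2 : α * x2 0 + β * x2 1 + γ = 0)
    (h3 : α * x3 0 + β * x3 1 + γ = 0) : α = 0 ∧ β = 0 ∧ γ = 0 := by
  simp only [det2, PiLp.sub_apply] at hD
  have e1 : α * ((x2 0 - x1 0) * (x3 1 - x1 1) - (x2 1 - x1 1) * (x3 0 - x1 0)) = 0 := by
    linear_combination (x3 1 - x1 1) * (h2 - h1) - (x2 1 - x1 1) * (h3 - h1)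
  have e2 : β * ((x2 0 - x1 0) * (x3 1 - x1 1) - (x2 1 - x1 1) * (x3 0 - x1 0)) = 0 := by
    linear_combination (x2 0 - x1 0) * (h3 - h1) - (x3 0 - x1 0) * (h2 - h1)
  have hα : α = 0 := by
    rcases mul_eq_zero.1 e1 with h | h
    · exact h
    · exact absurd h hD
  have hβ : β = 0 := by
    rcases mul_eq_zero.1 e2 with h | h
    · exact h
    · exact absurd h hD
  refine ⟨hα, hβ, ?_⟩
  rw [hα, hβ] at h1
  linarith

lemma quad_unique {q q' : Quad} {n : E2 → E2} {x1 x2 x3 : E2}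
    (hD : det2 (x2 - x1) (x3 - x1) ≠ 0) (h1 : q.Fits (n x1) x1) (h2 : q.Fits (n x2) x2)
    (h3 : q.Fits (n x3) x3) (h1' : q'.Fits (n x1) x1) (h2' : q'.Fits (n x2) x2)
    (h3' : q'.Fits (n x3) x3) : q = q' := by
  obtain ⟨A1, B1, C1⟩ := h1
  obtain ⟨A2, B2, C2⟩ := h2
  obtain ⟨A3, B3, C3⟩ := h3
  obtain ⟨A1', B1', C1'⟩ := h1'
  obtain ⟨A2', B2', C2'⟩ := h2'
  obtain ⟨A3', B3', C3'⟩ := h3'
  obtain ⟨u1, u2, u3⟩ := affine_zero (α := q.a11 - q'.a11) (β := q.a12 - q'.a12)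
    (γ := q.b1 - q'.b1) hD (by linarith) (by linarith) (by linarith)
  obtain ⟨v1, v2, v3⟩ := affine_zero (α := q.a12 - q'.a12) (β := q.a22 - q'.a22)
    (γ := q.b2 - q'.b2) hD (by linarith) (by linarith) (by linarith)
  have w : q.d = q'.d := by
    have e1 : q.b1 = q'.b1 := by linarith
    have e2 : q.b2 = q'.b2 := by linarith
    rw [e1, e2] at C1
    linarith
  cases q; cases q'
  simp only [Quad.mk.injEq]
  simp only at u1 u2 u3 v1 v2 v3 w
  refine ⟨?_, ?_, ?_, ?_, ?_, w⟩ <;> linarith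

lemma F_strict {K : Set E2} (hK : Body K) {C : ℝ} {x y : E2} (hx : F K x = C) (hy : F K y = C)
    (hxy : x ≠ y) (hseg : ∀ z ∈ segment ℝ x y, z ∉ K) {s : ℝ} (hs0 : 0 < s) (hs1 : s < 1) :
    F K (x + s • (y - x)) < C := by
  have hmseg : (1/2 : ℝ) • (x + y) ∈ segment ℝ x y := by
    refine ⟨1/2, 1/2, by norm_num, by norm_num, by norm_num, ?_⟩
    rw [smul_add]
  have hmid := F_strict_mid hK hxy (hseg _ hmseg)
  rw [hx, hy] at hmid
  have hconv := (F_convex hK).2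
  rcases le_total s (1/2) with h | h
  · have e : x + s • (y - x) = (1 - 2 * s) • x + (2 * s) • ((1/2 : ℝ) • (x + y)) := by module
    have := hconv (mem_univ x) (mem_univ ((1/2 : ℝ) • (x + y))) (a := 1 - 2 * s) (b := 2 * s)
      (by linarith) (by linarith) (by ring)
    rw [← e, smul_eq_mul, smul_eq_mul, hx] at this
    nlinarith
  · have e : x + s • (y - x) = (2 - 2 * s) • ((1/2 : ℝ) • (x + y)) + (2 * s - 1) • y := by module
    have := hconv (mem_univ ((1/2 : ℝ) • (x + y))) (mem_univ y) (a := 2 - 2 * s) (b := 2 * s - 1)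
      (by linarith) (by linarith) (by ring)
    rw [← e, smul_eq_mul, smul_eq_mul, hy] at this
    nlinarith

/-- Three distinct points of a level curve, close to each other, are not collinear. -/
lemma noncollinear {K : Set E2} (hK : Body K) {C : ℝ} {x y z : E2} (hx : F K x = C)
    (hy : F K y = C) (hz : F K z = C) (hxy : x ≠ y) (hxz : x ≠ z) (hyz : y ≠ z)
    (h1 : ∀ w ∈ segment ℝ x y, w ∉ K) (h2 : ∀ w ∈ segment ℝ x z, w ∉ K)
    (h3 : ∀ w ∈ segment ℝ y z, w ∉ K) : det2 (y - x) (z - x) ≠ 0 := by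
  intro hD
  have hv : y - x ≠ 0 := sub_ne_zero.2 hxy.symm
  obtain ⟨s, hs⟩ : ∃ s : ℝ, z - x = s • (y - x) := by
    have hr : rot (y - x) ≠ 0 := by
      intro h
      have := norm_rot (y - x)
      rw [h, norm_zero] at this
      exact hv (norm_eq_zero.1 this.symm)
    refine proportional_of_orthogonal hr hv ?_ ?_
    · rw [real_inner_comm, inner_rot]; exact hD
    · rw [real_inner_comm, inner_rot]; simp [det2]; ring
  have hzs : z = x + s • (y - x) := by rw [← hs]; abel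
  have hs0 : s ≠ 0 := by
    rintro rfl; apply hxz; simpa using hzs.symm
  have hs1 : s ≠ 1 := by
    rintro rfl; apply hyz; simpa using hzs.symm
  rcases lt_or_gt_of_ne hs0 with h | h
  · -- x between z and y
    have e : x = y + (1 / (1 - s)) • (z - y) := by
      have h1s : (1 - s) ≠ 0 := by linarith
      have e1 : z - y = (1 - s) • (x - y) := by rw [hzs]; module
      rw [e1, smul_smul, one_div_mul_cancel h1s]; module
    have := F_strict hK hy hz hyz h3 (s := 1 / (1 - s)) (by apply div_pos <;> linarith)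
      (by rw [div_lt_one (by linarith)]; linarith)
    rw [← e, hx] at this
    exact lt_irrefl _ this
  · rcases lt_or_gt_of_ne hs1 with h' | h'
    · have := F_strict hK hx hy hxy h1 h h'
      rw [← hzs, hz] at this
      exact lt_irrefl _ this
    · have e : y = x + (1 / s) • (z - x) := by
        rw [hs, smul_smul, one_div_mul_cancel hs0]; module
      have := F_strict hK hx hz hxz h2 (s := 1 / s) (by positivity)
        (by rw [div_lt_one h]; exact h')
      rw [← e, hy] at this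
      exact lt_irrefl _ this

end Pool.Agent.H78String
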