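import Pool.Agent.H78String.Param

set_option autoImplicit false

open MeasureTheory Set Metric
open scoped Real Pointwise RealInnerProductSpace Topology

namespace Pool.Agent.H78String

lemma exists_ray {K : Set E2} (hK : Body K) {C : ℝ} (hC : cper K < C) {o v : E2} (ho : o ∈ K)
    (hv : v ≠ 0) : ∃ s : ℝ, 0 < s ∧ F K (o + s • v) = C := by
  have hvn : 0 < ‖v‖ := norm_pos_iff.2 hv
  have hC0 : 0 ≤ cper K := cper_nonneg hK.compact hK.convex hK.ne
  have hCp : 0 < C := by linarith
  set R := C / ‖v‖ with hR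
  have hR0 : 0 < R := by positivity
  have hcont : Continuous fun s : ℝ => F K (o + s • v) := (F_continuous hK).comp (by fun_prop)
  have h0 : F K (o + (0:ℝ) • v) = cper K := by rw [zero_smul, add_zero, F_of_mem hK ho]
  have h1 : C ≤ F K (o + R • v) := by
    have := F_coercive hK ho (o + R • v)
    rw [add_sub_cancel_left, norm_smul, Real.norm_of_nonneg hR0.le, hR,
      div_mul_cancel₀ _ hvn.ne'] at this
    linarith
  obtain ⟨s, hs, hs'⟩ := intermediate_value_Icc hR0.le hcont.continuousOn
    (show C ∈ Icc _ _ from ⟨by rw [h0]; exact hC.le, h1⟩)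
  refine ⟨s, ?_, hs'⟩
  rcases hs.1.lt_or_eq with h | h
  · exact h
  · exfalso
    rw [← h] at hs'
    simp only at hs'
    rw [h0] at hs'
    linarith

/-- quadratic function of the data -/
def Quad.val (q : Quad) (x : E2) : ℝ :=
  q.a11 * x 0 ^ 2 + 2 * q.a12 * x 0 * x 1 + q.a22 * x 1 ^ 2 + 2 * (q.b1 * x 0 + q.b2 * x 1) - q.d

lemma Quad.Fits.val_eq {q : Quad} {n x : E2} (h : q.Fits n x) : q.val x = 0 := by
  obtain ⟨h0, h1, h2⟩ := h
  rw [inner_eq, h0, h1] at h2
  unfold Quad.val
  linarith

/-- leading form -/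
def Quad.form (q : Quad) (v : E2) : ℝ :=
  q.a11 * v 0 ^ 2 + 2 * q.a12 * v 0 * v 1 + q.a22 * v 1 ^ 2

lemma N_inner_pos {K : Set E2} (hK : Body K) {C : ℝ} (hC : cper K < C) {o x : E2} (ho : o ∈ K)
    (hx : F K x = C) : 0 < ⟪N K x, x - o⟫ := by
  have hxK : x ∉ K := not_mem_of_lt hK (by rw [hx]; exact hC)
  have h1 := F_subgrad hK x o
  rw [F_of_mem hK ho, hx] at h1
  have h2 : ⟪G K x, o - x⟫ = - ⟪G K x, x - o⟫ := by
    rw [← inner_neg_right]; congr 1; abel
  have h3 : 0 < ‖G K x‖ := norm_pos_iff.2 (G_ne_zero hK hxK)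
  rw [N, real_inner_smul_left]
  have : 0 < (‖G K x‖ ^ 2)⁻¹ := by positivity
  apply mul_pos this
  linarith

lemma form_pos {K : Set E2} (hK : Body K) {C : ℝ} (hC : cper K < C) {q : Quad}
    (hq : ∀ x, F K x = C → q.Fits (N K x) x) {v : E2} (hv : v ≠ 0) : 0 < q.form v := by
  obtain ⟨o, ho⟩ := hK.ne
  obtain ⟨s, hs, hs'⟩ := exists_ray hK hC ho hv
  obtain ⟨t, ht, ht'⟩ := exists_ray hK hC ho (neg_ne_zero.2 hv)
  have p1 := N_inner_pos hK hC ho hs'
  have p2 := N_inner_pos hK hC ho ht'
  obtain ⟨a0, a1, -⟩ := hq _ hs'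
  obtain ⟨c0, c1, -⟩ := hq _ ht'
  rw [add_sub_cancel_left, real_inner_smul_right, inner_eq, a0, a1] at p1
  rw [add_sub_cancel_left, real_inner_smul_right, inner_eq, c0, c1] at p2
  have p1' := (pos_iff_pos_of_mul_pos p1).1 hs
  have p2' := (pos_iff_pos_of_mul_pos p2).1 ht
  simp only [PiLp.add_apply, PiLp.smul_apply, PiLp.neg_apply, smul_eq_mul] at p1' p2'
  have h3 : 0 < (s + t) * q.form v := by
    unfold Quad.form
    nlinarith
  exact (pos_iff_pos_of_mul_pos h3).1 (by linarith)

lemma val_line (q : Quad) (o v : E2) (s : ℝ) :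
    q.val (o + s • v) = q.form v * s ^ 2 + (q.val (o + v) - q.val o - q.form v) * s + q.val o := by
  unfold Quad.val Quad.form
  simp only [PiLp.add_apply, PiLp.smul_apply, smul_eq_mul]
  ring

lemma sub_eq_quad {K : Set E2} (hK : Body K) {C : ℝ} (hC : cper K < C) {q : Quad}
    (hq : ∀ x, F K x = C → q.Fits (N K x) x) : sub K C = {y | q.val y ≤ 0} := by
  obtain ⟨o, ho⟩ := hK.ne
  have hFo : F K o = cper K := F_of_mem hK ho
  have key : ∀ v : E2, v ≠ 0 → (F K (o + v) ≤ C ↔ q.val (o + v) ≤ 0) ∧ q.val o < 0 := by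
    intro v hv
    obtain ⟨s, hs, hs'⟩ := exists_ray hK hC ho hv
    obtain ⟨t, ht, ht'⟩ := exists_ray hK hC ho (neg_ne_zero.2 hv)
    have hpos := form_pos hK hC hq hv
    have e1 := (hq _ hs').val_eq
    have e2 := (hq _ ht').val_eq
    rw [show o + t • -v = o + (-t) • v by module] at e2
    rw [val_line] at e1 e2
    set a := q.form v with ha
    set κ := q.val o with hκ
    set b := q.val (o + v) - κ - a with hb
    have hval1 : q.val (o + v) = a + b + κ := by rw [hb]; ring
    have hst : s + t ≠ 0 := by positivity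
    have hb' : b = a * (t - s) := by
      have : (s + t) * (b - a * (t - s)) = 0 := by linear_combination e1 - e2
      rcases mul_eq_zero.1 this with h | h
      · exact absurd h hst
      · linarith
    have hκ' : κ = -(a * s * t) := by rw [hb'] at e1; linarith
    refine ⟨?_, ?_⟩
    · rw [hval1, hb', hκ', show a + a * (t - s) + -(a * s * t) = a * (1 - s) * (1 + t) by ring]
      have hcx := (F_convex hK).2
      constructor
      · intro h
        -- s ≥ 1
        have hs1 : 1 ≤ s := by
          by_contra hcon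
          push Not at hcon
          have h1 := hcx (mem_univ o) (mem_univ (o + v)) (a := 1 - s) (b := s) (by linarith)
            hs.le (by ring)
          rw [show (1 - s) • o + s • (o + v) = o + s • v by module, hs', hFo, smul_eq_mul,
            smul_eq_mul] at h1
          nlinarith
        have : 0 ≤ a * (s - 1) * (1 + t) := by
          have : 0 ≤ s - 1 := by linarith
          positivity
        linarith
      · intro h
        have hs1 : 1 ≤ s := by
          by_contra hcon
          push Not at hcon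
          have : 0 < a * (1 - s) * (1 + t) := by
            have : 0 < 1 - s := by linarith
            positivity
          linarith
        have h2 : 1 / s ≤ 1 := by rw [div_le_one hs]; exact hs1
        have h1 := hcx (mem_univ o) (mem_univ (o + s • v)) (a := 1 - 1 / s) (b := 1 / s)
          (by linarith) (by positivity) (by ring)
        rw [show (1 - 1 / s) • o + (1 / s) • (o + s • v) = o + v by
          rw [smul_add, smul_smul, one_div_mul_cancel hs.ne']; module, hs', hFo, smul_eq_mul,
          smul_eq_mul] at h1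
        have h3 : 0 < 1 / s := by positivity
        nlinarith
    · rw [hκ']
      have : 0 < a * s * t := by positivity
      linarith
  ext y
  by_cases hy : y = o
  · subst hy
    have hv : dir 0 ≠ 0 := by
      intro h
      have := norm_dir 0
      rw [h, norm_zero] at this
      exact zero_ne_one this
    constructor
    · intro _; exact (key _ hv).2.le
    · intro _
      show F K y ≤ C
      rw [hFo]; exact hC.le
  · have hv : y - o ≠ 0 := sub_ne_zero.2 hy
    have := (key _ hv).1
    rw [add_sub_cancel] at this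
    exact this

/-- A bounded nondegenerate quadratic sublevel set is a linear image of the disc. -/
lemma quad_ellipse (q : Quad) (hpos : ∀ v : E2, v ≠ 0 → 0 < q.form v) {o : E2}
    (ho : q.val o < 0) :
    ∃ (L : E2 →L[ℝ] E2) (m : E2), {y | q.val y ≤ 0} = (fun z => m + L z) '' closedBall 0 1 := by
  obtain ⟨A, B, D, b1, b2, d⟩ := q
  simp only [Quad.form, Quad.val] at *
  have hA : 0 < A := by
    have := hpos (!₂[(1:ℝ), 0]) (by
      intro h
      have := congrArg (fun v : E2 => v 0) h
      simp at this)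
    simpa using this
  have hΔ : 0 < A * D - B ^ 2 := by
    have := hpos (!₂[-B, A]) (by
      intro h
      have := congrArg (fun v : E2 => v 1) h
      simp at this
      exact hA.ne' this)
    simp at this
    have h2 : 0 < A * (A * D - B ^ 2) := by nlinarith
    exact (pos_iff_pos_of_mul_pos h2).1 hA
  set Δ := A * D - B ^ 2 with hΔdef
  set c := (A * b2 - B * b1) / Δ with hc
  have hcΔ : c * Δ = A * b2 - B * b1 := by rw [hc, div_mul_cancel₀ _ hΔ.ne']
  set R := (Δ / A) * c ^ 2 + b1 ^ 2 / A + d with hR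
  have hsq : ∀ x y : ℝ, A * x ^ 2 + 2 * B * x * y + D * y ^ 2 + 2 * (b1 * x + b2 * y) - d =
      A * (x + (B * y + b1) / A) ^ 2 + (Δ / A) * (y + c) ^ 2 - R := by
    intro x y
    rw [hR]
    have hA' := hA.ne'
    field_simp
    linear_combination (-2 * y) * hcΔ + (-y ^ 2) * hΔdef
  have hR0 : 0 < R := by
    have h1 := hsq (o 0) (o 1)
    rw [h1] at ho
    have h2 : 0 ≤ A * (o 0 + (B * o 1 + b1) / A) ^ 2 := by positivity
    have h3 : 0 ≤ (Δ / A) * (o 1 + c) ^ 2 := by positivity
    linarith
  set s := Real.sqrt (R / A) with hs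
  set t := Real.sqrt (R * A / Δ) with ht
  have hs0 : 0 < s := Real.sqrt_pos.2 (by positivity)
  have ht0 : 0 < t := Real.sqrt_pos.2 (by positivity)
  have hs2 : A * s ^ 2 = R := by
    rw [hs, Real.sq_sqrt (by positivity)]; field_simp
  have ht2 : (Δ / A) * t ^ 2 = R := by
    rw [ht, Real.sq_sqrt (by positivity)]; field_simp
  let L0 : E2 →ₗ[ℝ] E2 :=
    { toFun := fun z => !₂[s * z 0 - (B / A) * t * z 1, t * z 1]
      map_add' := by
        intro x y
        apply ext2
        · simp; ring
        · simp; ring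
      map_smul' := by
        intro r x
        apply ext2
        · simp; ring
        · simp; ring }
  let L : E2 →L[ℝ] E2 := LinearMap.toContinuousLinearMap L0
  have hL0 : ∀ z, (L z) 0 = s * z 0 - (B / A) * t * z 1 := by
    intro z; simp [L, L0]
  have hL1 : ∀ z, (L z) 1 = t * z 1 := by
    intro z; simp [L, L0]
  set m : E2 := !₂[(B * c - b1) / A, -c] with hm
  have hm0 : m 0 = (B * c - b1) / A := by simp [hm]
  have hm1 : m 1 = -c := by simp [hm]
  refine ⟨L, m, ?_⟩
  have hval : ∀ z : E2, A * (m + L z) 0 ^ 2 + 2 * B * (m + L z) 0 * (m + L z) 1 +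
      D * (m + L z) 1 ^ 2 + 2 * (b1 * (m + L z) 0 + b2 * (m + L z) 1) - d = R * (‖z‖ ^ 2 - 1) := by
    intro z
    rw [hsq, PiLp.add_apply, PiLp.add_apply, hL0, hL1, hm0, hm1, norm_sq_eq]
    have e1 : (B * c - b1) / A + (s * z 0 - B / A * t * z 1) + (B * (-c + t * z 1) + b1) / A =
        s * z 0 := by
      field_simp; ring
    rw [e1]
    have e2 : -c + t * z 1 + c = t * z 1 := by ring
    rw [e2]
    linear_combination (z 0 ^ 2) * hs2 + (z 1 ^ 2) * ht2
  ext y
  constructor
  · intro hy
    have hy' : A * y 0 ^ 2 + 2 * B * y 0 * y 1 + D * y 1 ^ 2 + 2 * (b1 * y 0 + b2 * y 1) - d ≤ 0 :=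
      hy
    set z : E2 := !₂[(y 0 + (B * y 1 + b1) / A) / s, (y 1 + c) / t] with hz
    have hz0 : z 0 = (y 0 + (B * y 1 + b1) / A) / s := by simp [hz]
    have hz1 : z 1 = (y 1 + c) / t := by simp [hz]
    have hyz : m + L z = y := by
      apply ext2
      · rw [PiLp.add_apply, hL0, hm0, hz0, hz1]
        field_simp
        ring
      · rw [PiLp.add_apply, hL1, hm1, hz1]
        field_simp
        ring
    refine ⟨z, ?_, hyz⟩
    rw [mem_closedBall_zero_iff]
    have h1 := hval z
    rw [hyz] at h1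
    rw [h1] at hy'
    have h2 : ‖z‖ ^ 2 ≤ 1 := by
      by_contra hcon
      push Not at hcon
      nlinarith
    nlinarith [norm_nonneg z]
  · rintro ⟨z, hz, rfl⟩
    rw [mem_closedBall_zero_iff] at hz
    show A * (m + L z) 0 ^ 2 + 2 * B * (m + L z) 0 * (m + L z) 1 +
      D * (m + L z) 1 ^ 2 + 2 * (b1 * (m + L z) 0 + b2 * (m + L z) 1) - d ≤ 0
    rw [hval]
    have : ‖z‖ ^ 2 ≤ 1 := by nlinarith [norm_nonneg z]
    nlinarith

lemma sub_ellipse {K : Set E2} (hK : Body K) (hT : Trans K) {C : ℝ} (hC : cper K < C) :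
    ∃ (L : E2 →L[ℝ] E2) (m : E2), sub K C = (fun z => m + L z) '' closedBall 0 1 := by
  obtain ⟨q, hq⟩ := exists_global_quad hK hT hC
  obtain ⟨o, ho⟩ := hK.ne
  rw [sub_eq_quad hK hC hq]
  refine quad_ellipse q (fun v hv => form_pos hK hC hq hv) (o := o) ?_
  -- value at an inner point is negative
  have hv : dir 0 ≠ 0 := by
    intro h
    have := norm_dir 0
    rw [h, norm_zero] at this
    exact zero_ne_one this
  obtain ⟨s, hs, hs'⟩ := exists_ray hK hC ho hv
  obtain ⟨t, ht, ht'⟩ := exists_ray hK hC ho (neg_ne_zero.2 hv)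
  have hpos := form_pos hK hC hq hv
  have e1 := (hq _ hs').val_eq
  have e2 := (hq _ ht').val_eq
  rw [show o + t • -(dir 0) = o + (-t) • (dir 0) by module] at e2
  rw [val_line] at e1 e2
  have : (s + t) * (q.val o + q.form (dir 0) * s * t) = 0 := by
    linear_combination t * e1 + s * e2
  rcases mul_eq_zero.1 this with h | h
  · linarith
  · have : 0 < q.form (dir 0) * s * t := by positivity
    linarith

end Pool.Agent.H78String
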