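import Pool.Agent.H78String.Grad

set_option autoImplicit false

open MeasureTheory Set Metric
open scoped Real Pointwise RealInnerProductSpace Topology

namespace Pool.Agent.H78String

/-- Strict midpoint convexity of the hull perimeter when the midpoint is outside `K`. -/
lemma F_strict_mid {K : Set E2} (hK : Body K) {x y : E2} (hxy : x ≠ y)
    (hm : (1/2 : ℝ) • (x + y) ∉ K) : F K ((1/2 : ℝ) • (x + y)) < (F K x + F K y) / 2 := by
  set m := (1/2 : ℝ) • (x + y) with hmdef
  obtain ⟨α, β, hαβ, hβα, hα0, hβ0, hpos, hneg⟩ := arc_structure hK hm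
  -- pointwise inequality
  have hle : ∀ θ, max ⟪m, dir θ⟫ (supp K (dir θ)) ≤
      (1/2) * (max ⟪x, dir θ⟫ (supp K (dir θ)) + max ⟪y, dir θ⟫ (supp K (dir θ))) := by
    intro θ
    have e : ⟪m, dir θ⟫ = (1/2) * (⟪x, dir θ⟫ + ⟪y, dir θ⟫) := by
      rw [hmdef, real_inner_smul_left, inner_add_left]
    rw [e]
    have h1 := le_max_left ⟪x, dir θ⟫ (supp K (dir θ))
    have h2 := le_max_right ⟪x, dir θ⟫ (supp K (dir θ))
    have h3 := le_max_left ⟪y, dir θ⟫ (supp K (dir θ))
    have h4 := le_max_right ⟪y, dir θ⟫ (supp K (dir θ))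
    refine max_le ?_ ?_ <;> linarith
  have hzero : ∀ θ, psi K m θ = 0 →
      ¬ (max ⟪m, dir θ⟫ (supp K (dir θ)) <
      (1/2) * (max ⟪x, dir θ⟫ (supp K (dir θ)) + max ⟪y, dir θ⟫ (supp K (dir θ)))) →
      ⟪x - y, dir θ⟫ = 0 := by
    intro θ h0 hn
    have heq := le_antisymm (hle θ) (not_lt.1 hn)
    have e : ⟪m, dir θ⟫ = (1/2) * (⟪x, dir θ⟫ + ⟪y, dir θ⟫) := by
      rw [hmdef, real_inner_smul_left, inner_add_left]
    have h5 : ⟪m, dir θ⟫ = supp K (dir θ) := by simp only [psi] at h0; linarith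
    rw [h5, max_self] at heq
    have h1 := le_max_left ⟪x, dir θ⟫ (supp K (dir θ))
    have h2 := le_max_right ⟪x, dir θ⟫ (supp K (dir θ))
    have h3 := le_max_left ⟪y, dir θ⟫ (supp K (dir θ))
    have h4 := le_max_right ⟪y, dir θ⟫ (supp K (dir θ))
    rw [inner_sub_left]
    linarith
  have hex : ∃ θ, max ⟪m, dir θ⟫ (supp K (dir θ)) <
      (1/2) * (max ⟪x, dir θ⟫ (supp K (dir θ)) + max ⟪y, dir θ⟫ (supp K (dir θ))) := by
    by_contra hcon
    push Not at hcon
    have h1 := hzero α hα0 (not_lt.2 (hcon α))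
    have h2 := hzero β hβ0 (not_lt.2 (hcon β))
    have h3 : 0 < Real.sin (β - α) := Real.sin_pos_of_pos_of_lt_pi (by linarith) (by linarith)
    rw [inner_dir] at h1 h2
    rw [Real.sin_sub] at h3
    apply hxy
    apply sub_eq_zero.1
    set v := x - y
    apply ext2
    · have : (Real.sin β * Real.cos α - Real.cos β * Real.sin α) * v 0 = 0 := by
        linear_combination Real.sin β * h1 - Real.sin α * h2
      rcases mul_eq_zero.1 this with h | h
      · linarith
      · simpa using h
    · have : (Real.sin β * Real.cos α - Real.cos β * Real.sin α) * v 1 = 0 := by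
        linear_combination Real.cos α * h2 - Real.cos β * h1
      rcases mul_eq_zero.1 this with h | h
      · linarith
      · simpa using h
  obtain ⟨θ, hθ⟩ := hex
  have hper : Function.Periodic dir (2 * π) := dir_add_two_pi
  obtain ⟨θ', hθ', he⟩ := hper.exists_mem_Ico₀ (by positivity) θ
  rw [he] at hθ
  have hint : F K m < ∫ θ in (0:ℝ)..(2 * π),
      (1/2) * (max ⟪x, dir θ⟫ (supp K (dir θ)) + max ⟪y, dir θ⟫ (supp K (dir θ))) := by
    unfold F
    refine intervalIntegral.integral_lt_integral_of_continuousOn_of_le_of_exists_lt (by positivity)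
      (continuous_integrand hK m).continuousOn
      (((continuous_integrand hK x).add (continuous_integrand hK y)).const_mul _).continuousOn
      (fun θ _ => hle θ) ⟨θ', ⟨hθ'.1, hθ'.2.le⟩, hθ⟩
  rw [intervalIntegral.integral_const_mul, intervalIntegral.integral_add
    ((continuous_integrand hK x).intervalIntegrable _ _)
    ((continuous_integrand hK y).intervalIntegrable _ _)] at hint
  have e1 : F K x = ∫ θ in (0:ℝ)..(2 * π), max ⟪x, dir θ⟫ (supp K (dir θ)) := rfl
  have e2 : F K y = ∫ θ in (0:ℝ)..(2 * π), max ⟪y, dir θ⟫ (supp K (dir θ)) := rfl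
  rw [← e1, ← e2] at hint
  linarith

/-- The transitivity property, in terms of the hull perimeter function. -/
def Trans (K : Set E2) : Prop :=
  ∀ c, cper K < c → ∀ l, cper (sub K c) < l → ∃ l', {y | F (sub K c) y = l} = {y | F K y = l'}

lemma level_eq {K : Set E2} (hK : Body K) (hT : Trans K) {c : ℝ} (hc : cper K < c) {z z' : E2}
    (hz : c < F K z) (h : F K z = F K z') : F (sub K c) z = F (sub K c) z' := by
  have hb := sub_body hK hc.le
  have hz1 : z ∉ sub K c := fun h => absurd hz (not_lt.2 h)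
  obtain ⟨l', hl'⟩ := hT c hc _ (cper_lt_F hb hz1)
  have h1 : z ∈ {y | F (sub K c) y = F (sub K c) z} := rfl
  rw [hl'] at h1
  have h2 : z' ∈ {y | F K y = l'} := by
    show F K z' = l'
    rw [← h]; exact h1
  rw [← hl'] at h2
  exact h2.symm

lemma not_mem_of_lt {K : Set E2} (hK : Body K) {x : E2} (h : cper K < F K x) : x ∉ K := by
  intro hx
  rw [F_of_mem hK hx] at h
  exact lt_irrefl _ h

lemma grad_proportional {K : Set E2} (hK : Body K) (hT : Trans K) {c C : ℝ} (hc : cper K < c)
    (hcC : c < C) : ∃ r : ℝ, ∀ x, F K x = C → G (sub K c) x = r • G K x := by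
  by_cases hex : ∃ x0, F K x0 = C
  swap
  · push Not at hex
    exact ⟨0, fun x hx => absurd hx (hex x)⟩
  obtain ⟨x0, hx0⟩ := hex
  have hb := sub_body hK hc.le
  have hx0K : x0 ∉ K := not_mem_of_lt hK (by linarith)
  have hx0L : x0 ∉ sub K c := fun h => by
    have : F K x0 ≤ c := h
    linarith
  set n := G K x0 with hn
  have hn0 : n ≠ 0 := G_ne_zero hK hx0K
  have hnn : ‖n‖ ^ 2 ≠ 0 := by
    have := norm_pos_iff.2 hn0
    positivity
  -- the function along the ray
  set f : ℝ → ℝ := fun t => F K (x0 + t • n) with hf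
  have hline : HasStrictDerivAt (fun t : ℝ => x0 + t • n) n 0 := by
    have := ((hasStrictDerivAt_id (0:ℝ)).smul_const n).const_add x0
    simpa using this
  have hf' : HasStrictDerivAt f (‖n‖ ^ 2) 0 := by
    have h1 := F_hasStrictFDerivAt hK hx0K
    have h2 : HasStrictFDerivAt (F K) (innerSL ℝ (G K x0)) (x0 + (0:ℝ) • n) := by simpa using h1
    have h3 := h2.comp_hasStrictDerivAt (0:ℝ) hline
    rw [innerSL_apply_apply, ← hn, real_inner_self_eq_norm_sq] at h3
    exact h3
  have hf0 : f 0 = C := by simp [hf, hx0]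
  set g := hf'.localInverse f (‖n‖ ^ 2) 0 hnn with hg
  have hg' : HasStrictDerivAt g (‖n‖ ^ 2)⁻¹ C := by
    have := hf'.to_localInverse hnn
    rwa [hf0] at this
  have hright : ∀ᶠ s in 𝓝 C, f (g s) = s := by
    have := hf'.eventually_right_inverse (hf' := hnn)
    rwa [hf0] at this
  have hgC : g C = 0 := by
    have := (hf'.eventually_left_inverse (hf' := hnn)).self_of_nhds
    rwa [hf0] at this
  set φ : ℝ → ℝ := fun s => F (sub K c) (x0 + g s • n) with hφ
  have hφ' : HasDerivAt φ (⟪G (sub K c) x0, (‖n‖ ^ 2)⁻¹ • n⟫) C := by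
    have h1 := F_hasStrictFDerivAt hb hx0L
    have h2 : HasStrictFDerivAt (F (sub K c)) (innerSL ℝ (G (sub K c) x0)) (x0 + g C • n) := by
      simpa [hgC] using h1
    have h3 : HasStrictDerivAt (fun s => x0 + g s • n) ((‖n‖ ^ 2)⁻¹ • n) C :=
      (hg'.smul_const n).const_add x0
    have h4 := h2.comp_hasStrictDerivAt C h3
    rw [innerSL_apply_apply] at h4
    exact h4.hasDerivAt
  set r := ⟪G (sub K c) x0, (‖n‖ ^ 2)⁻¹ • n⟫ with hr
  refine ⟨r, fun x hx => ?_⟩
  have hxK : x ∉ K := not_mem_of_lt hK (by linarith)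
  have hxL : x ∉ sub K c := fun h => by
    have : F K x ≤ c := h
    linarith
  have hcontF : ContinuousAt (F K) x := (F_continuous hK).continuousAt
  have hev : ∀ᶠ y in 𝓝 x, F (sub K c) y = φ (F K y) := by
    have h1 : ∀ᶠ y in 𝓝 x, f (g (F K y)) = F K y := by
      have : Filter.Tendsto (F K) (𝓝 x) (𝓝 C) := by rw [← hx]; exact hcontF
      exact this.eventually hright
    have h2 : ∀ᶠ y in 𝓝 x, c < F K y := hcontF.eventually (lt_mem_nhds (by linarith))
    filter_upwards [h1, h2] with y hy1 hy2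
    exact level_eq hK hT hc hy2 hy1.symm
  have hd1 : HasFDerivAt (F (sub K c)) (innerSL ℝ (G (sub K c) x)) x :=
    (F_hasStrictFDerivAt hb hxL).hasFDerivAt
  have hd2 : HasFDerivAt (fun y => φ (F K y)) (r • innerSL ℝ (G K x)) x := by
    have h1 := (F_hasStrictFDerivAt hK hxK).hasFDerivAt
    have h2 : HasDerivAt φ r (F K x) := by rw [hx]; exact hφ'
    exact h2.comp_hasFDerivAt x h1
  have hd3 : HasFDerivAt (F (sub K c)) (r • innerSL ℝ (G K x)) x :=
    hd2.congr_of_eventuallyEq hev
  have huniq := hd1.unique hd3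
  refine ext_inner_right ℝ fun v => ?_
  have h5 := congrArg (fun L : E2 →L[ℝ] ℝ => L v) huniq
  simp only [smul_apply, innerSL_apply_apply, smul_eq_mul] at h5
  rw [real_inner_smul_left]
  exact h5

end Pool.Agent.H78String
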