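import Pool.Agent.H78String.Triangle

set_option autoImplicit false

open MeasureTheory Set Metric
open scoped Real Pointwise RealInnerProductSpace

namespace Pool.Agent.H78String

lemma cper_nonneg {K : Set E2} (hK : IsCompact K) (hc : Convex ℝ K) (hne : K.Nonempty) :
    0 ≤ cper K := by
  obtain ⟨a, ha⟩ := hne
  have h1 : segment ℝ a a ⊆ K := hc.segment_subset ha ha
  have h2 : IsCompact (segment ℝ a a) := by
    rw [segment_same]; exact isCompact_singleton
  have h3 := cper_mono h2 ⟨a, left_mem_segment _ _ _⟩ hK h1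
  rw [cper_segment] at h3
  refine le_trans ?_ h3
  positivity

lemma frontier_half {T : Set E2} (hT : Body T) {w a b : E2} {c : ℝ} (hw : w ≠ 0)
    (hTle : ∀ z ∈ T, ⟪z, w⟫ ≤ c) (hTc : ∀ z ∈ T, ⟪z, w⟫ = c → z ∈ segment ℝ a b)
    (ha : a ∈ T) (hb : b ∈ T) (hac : ⟪a, w⟫ = c) (hbc : ⟪b, w⟫ = c) :
    μH[1] (frontier T) = μH[1] (frontier T ∩ {z | ⟪z, w⟫ < c}) + ENNReal.ofReal ‖a - b‖ := by
  have hseg : ∀ z ∈ segment ℝ a b, ⟪z, w⟫ = c := by
    rintro z ⟨s, t, hs, ht, hst, rfl⟩
    rw [inner_add_left, real_inner_smul_left, real_inner_smul_left, hac, hbc, ← add_mul, hst,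
      one_mul]
  have h1 : frontier T = (frontier T ∩ {z | ⟪z, w⟫ < c}) ∪ segment ℝ a b := by
    apply Subset.antisymm
    · intro z hz
      have hzT : z ∈ T := hT.closed.frontier_subset hz
      rcases (hTle z hzT).lt_or_eq with h | h
      · exact Or.inl ⟨hz, h⟩
      · exact Or.inr (hTc z hzT h)
    · refine union_subset inter_subset_left fun z hz => ?_
      have hzT : z ∈ T := hT.convex.segment_subset ha hb hz
      refine ⟨subset_closure hzT, fun hint => ?_⟩
      have hcont : ContinuousAt (fun t : ℝ => z + t • w) 0 := by fun_prop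
      have hev : ∀ᶠ t in nhds (0:ℝ), z + t • w ∈ T := by
        have : z + (0:ℝ) • w ∈ interior T := by simpa using hint
        exact (hcont.eventually (isOpen_interior.mem_nhds this)).mono fun t ht => interior_subset ht
      obtain ⟨ε, hε, hball⟩ := Metric.eventually_nhds_iff.1 hev
      have h2 : z + (ε / 2) • w ∈ T := by
        apply hball
        simp [abs_of_pos hε]
        linarith
      have h3 := hTle _ h2
      rw [inner_add_left, real_inner_smul_left, hseg z hz, real_inner_self_eq_norm_sq] at h3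
      have h4 : 0 < ε / 2 * ‖w‖ ^ 2 := by
        have := norm_pos_iff.2 hw
        positivity
      linarith
  conv_lhs => rw [h1]
  rw [measure_union_of_inter_finite (isClosed_segment' _ _), hausdorffMeasure_segment, edist_dist,
    dist_eq_norm]
  convert finite_empty
  rw [eq_empty_iff_forall_notMem]
  rintro z ⟨⟨-, h2⟩, h3⟩
  exact absurd (hseg z h3) (ne_of_lt h2)

lemma frontier_local {L T U : Set E2} (hU : IsOpen U) (h : L ∩ U = T ∩ U) :
    frontier L ∩ U = frontier T ∩ U := by
  rw [← frontier_inter_open_inter hU, h, frontier_inter_open_inter hU]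

lemma ne_zero_coord {v : E2} (hv : v ≠ 0) : v 0 ≠ 0 ∨ v 1 ≠ 0 := by
  by_contra h
  push Not at h
  exact hv (ext2 h.1 h.2)

/-- In the plane, two vectors both orthogonal to a common nonzero vector are proportional. -/
lemma proportional_of_orthogonal {u v w : E2} (hu : u ≠ 0) (hw : w ≠ 0) (h1 : ⟪u, v⟫ = 0)
    (h2 : ⟪u, w⟫ = 0) : ∃ r : ℝ, v = r • w := by
  rw [inner_eq] at h1 h2
  have hdet : v 0 * w 1 = v 1 * w 0 := by
    rcases ne_zero_coord hu with h | h
    · have : u 0 * (v 0 * w 1 - v 1 * w 0) = 0 := by linear_combination w 1 * h1 - v 1 * h2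
      rcases mul_eq_zero.1 this with h' | h'
      · exact absurd h' h
      · linarith
    · have : u 1 * (v 0 * w 1 - v 1 * w 0) = 0 := by linear_combination v 0 * h2 - w 0 * h1
      rcases mul_eq_zero.1 this with h' | h'
      · exact absurd h' h
      · linarith
  rcases ne_zero_coord hw with h | h
  · refine ⟨v 0 / w 0, ext2 ?_ ?_⟩
    · simp; field_simp
    · simp; field_simp; linarith
  · refine ⟨v 1 / w 1, ext2 ?_ ?_⟩
    · simp; field_simp; linarith
    · simp; field_simp

lemma frontier_glue_mid {L : Set E2} (hL : Body L) {w a b : E2} {c : ℝ} (hw : w ≠ 0)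
    (hLc : ∀ z ∈ L, ⟪z, w⟫ = c → z ∈ segment ℝ a b)
    (ha : a ∈ L) (hb : b ∈ L) (hac : ⟪a, w⟫ = c) (hbc : ⟪b, w⟫ = c)
    (hlt : ∃ z ∈ L, ⟪z, w⟫ < c) (hgt : ∃ z ∈ L, c < ⟪z, w⟫) :
    frontier L ∩ {z | ⟪z, w⟫ = c} ⊆ {a, b} := by
  rintro z ⟨hz, hzc⟩
  have hzL : z ∈ L := hL.closed.frontier_subset hz
  have hseg := hLc z hzL hzc
  by_contra hne
  simp only [mem_insert_iff, mem_singleton_iff, not_or] at hne
  obtain ⟨n, hn0, -, hn⟩ := hL.exists_normal hz.2
  obtain ⟨s, t, hs, ht, hst, rfl⟩ := hseg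
  have hs' : 0 < s := by
    rcases hs.lt_or_eq with h | h
    · exact h
    · exfalso; apply hne.2; subst h
      have : t = 1 := by linarith
      simp [this]
  have ht' : 0 < t := by
    rcases ht.lt_or_eq with h | h
    · exact h
    · exfalso; apply hne.1; subst h
      have : s = 1 := by linarith
      simp [this]
  have hna := hn a ha
  have hnb := hn b hb
  rw [inner_add_right, real_inner_smul_right, real_inner_smul_right] at hna hnb
  have hab : ⟪n, a⟫ = ⟪n, b⟫ := by
    have e1 : s = 1 - t := by linarith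
    subst e1
    nlinarith
  have hab' : a ≠ b := by
    rintro rfl
    apply hne.1
    rw [← add_smul, hst, one_smul]
  have horth1 : ⟪a - b, n⟫ = 0 := by
    rw [inner_sub_left, real_inner_comm, real_inner_comm n b]; linarith
  have horth2 : ⟪a - b, w⟫ = 0 := by
    rw [inner_sub_left]; linarith
  obtain ⟨r, hr⟩ := proportional_of_orthogonal (sub_ne_zero.2 hab') hw horth1 horth2
  have hr0 : r ≠ 0 := by
    rintro rfl; apply hn0; simpa using hr
  have hzn : ⟪n, s • a + t • b⟫ = r * c := by
    rw [real_inner_comm, hr, real_inner_smul_right]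
    simp only [mem_ofPred_eq] at hzc
    rw [hzc]
  obtain ⟨z1, hz1, hz1'⟩ := hlt
  obtain ⟨z2, hz2, hz2'⟩ := hgt
  have h1 := hn z1 hz1
  have h2 := hn z2 hz2
  rw [hzn, hr, real_inner_smul_left, real_inner_comm] at h1 h2
  rcases lt_or_gt_of_ne hr0 with h | h
  · nlinarith
  · nlinarith

lemma supp_union {T K : Set E2} (hT : IsCompact T) (hK : IsCompact K) (hTn : T.Nonempty)
    (hKn : K.Nonempty) (v : E2) : supp (T ∪ K) v = max (supp T v) (supp K v) := by
  have hc := hT.union hK
  apply le_antisymm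
  · refine supp_le (hTn.mono subset_union_left) fun x hx => ?_
    rcases hx with hx | hx
    · exact (le_supp hT hx v).trans (le_max_left _ _)
    · exact (le_supp hK hx v).trans (le_max_right _ _)
  · exact max_le (supp_mono hTn hc subset_union_left v) (supp_mono hKn hc subset_union_right v)

/-- Gluing two bodies along a chord preserves the Cauchy formula. -/
lemma glue {L T K : Set E2} (hL : Body L) (hT : Body T) (hK : Body K) {w a b : E2} {c : ℝ}
    (hw : w ≠ 0) (hun : L = T ∪ K)
    (hTle : ∀ z ∈ T, ⟪z, w⟫ ≤ c) (hKge : ∀ z ∈ K, c ≤ ⟪z, w⟫)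
    (hTc : ∀ z ∈ T, ⟪z, w⟫ = c → z ∈ segment ℝ a b)
    (hKc : ∀ z ∈ K, ⟪z, w⟫ = c → z ∈ segment ℝ a b)
    (haT : a ∈ T) (hbT : b ∈ T) (haK : a ∈ K) (hbK : b ∈ K) (hac : ⟪a, w⟫ = c) (hbc : ⟪b, w⟫ = c)
    (hTlt : ∃ z ∈ T, ⟪z, w⟫ < c) (hKgt : ∃ z ∈ K, c < ⟪z, w⟫)
    (cT : μH[1] (frontier T) = ENNReal.ofReal (cper T))
    (cK : μH[1] (frontier K) = ENNReal.ofReal (cper K)) :
    μH[1] (frontier L) = ENNReal.ofReal (cper L) := by
  have hLc : ∀ z ∈ L, ⟪z, w⟫ = c → z ∈ segment ℝ a b := by
    intro z hz h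
    rw [hun] at hz
    rcases hz with hz | hz
    · exact hTc z hz h
    · exact hKc z hz h
  -- measure side
  have e1 := frontier_half hT hw hTle hTc haT hbT hac hbc
  have e2 := frontier_half hK (neg_ne_zero.2 hw) (c := -c) (a := a) (b := b)
    (by intro z hz; rw [inner_neg_right]; linarith [hKge z hz])
    (by intro z hz h; rw [inner_neg_right] at h; exact hKc z hz (by linarith)) haK hbK
    (by rw [inner_neg_right, hac]) (by rw [inner_neg_right, hbc])
  have e2' : {z : E2 | ⟪z, -w⟫ < -c} = {z : E2 | c < ⟪z, w⟫} := by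
    ext z; simp [inner_neg_right]
  rw [e2'] at e2
  have hUlt : IsOpen {z : E2 | ⟪z, w⟫ < c} := isOpen_lt (by fun_prop) (by fun_prop)
  have hUgt : IsOpen {z : E2 | c < ⟪z, w⟫} := isOpen_lt (by fun_prop) (by fun_prop)
  have l1 : frontier L ∩ {z | ⟪z, w⟫ < c} = frontier T ∩ {z | ⟪z, w⟫ < c} := by
    apply frontier_local hUlt
    rw [hun]
    ext z
    simp only [mem_inter_iff, mem_union, mem_ofPred_eq]
    constructor
    · rintro ⟨hz | hz, h⟩
      · exact ⟨hz, h⟩
      · exact absurd (hKge z hz) (not_le.2 h)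
    · rintro ⟨hz, h⟩
      exact ⟨Or.inl hz, h⟩
  have l2 : frontier L ∩ {z | c < ⟪z, w⟫} = frontier K ∩ {z | c < ⟪z, w⟫} := by
    apply frontier_local hUgt
    rw [hun]
    ext z
    simp only [mem_inter_iff, mem_union, mem_ofPred_eq]
    constructor
    · rintro ⟨hz | hz, h⟩
      · exact absurd (hTle z hz) (not_le.2 h)
      · exact ⟨hz, h⟩
    · rintro ⟨hz, h⟩
      exact ⟨Or.inr hz, h⟩
  have haL : a ∈ L := by rw [hun]; exact Or.inl haT
  have hbL : b ∈ L := by rw [hun]; exact Or.inl hbT
  have hmid := frontier_glue_mid hL hw hLc haL hbL hac hbc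
    (by obtain ⟨z, hz, h⟩ := hTlt; exact ⟨z, by rw [hun]; exact Or.inl hz, h⟩)
    (by obtain ⟨z, hz, h⟩ := hKgt; exact ⟨z, by rw [hun]; exact Or.inr hz, h⟩)
  have e3 : μH[1] (frontier L) =
      μH[1] (frontier L ∩ {z | ⟪z, w⟫ < c}) + μH[1] (frontier L ∩ {z | c < ⟪z, w⟫}) := by
    have hnull : μH[1] (frontier L ∩ {z | ⟪z, w⟫ = c}) = 0 :=
      finite_null (((finite_singleton b).insert a).subset hmid)
    have hms : MeasurableSet {z : E2 | ⟪z, w⟫ < c} := hUlt.measurableSet
    have hmg : MeasurableSet {z : E2 | c < ⟪z, w⟫} := hUgt.measurableSet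
    rw [← measure_inter_add_sdiff (frontier L) hms]
    congr 1
    rw [← measure_inter_add_sdiff (frontier L \ {z | ⟪z, w⟫ < c}) hmg]
    have a1 : (frontier L \ {z | ⟪z, w⟫ < c}) ∩ {z | c < ⟪z, w⟫} =
        frontier L ∩ {z | c < ⟪z, w⟫} := by
      ext z
      simp only [mem_inter_iff, mem_sdiff, mem_ofPred_eq, not_lt]
      exact ⟨fun h => ⟨h.1.1, h.2⟩, fun h => ⟨⟨h.1, h.2.le⟩, h.2⟩⟩
    have a2 : (frontier L \ {z | ⟪z, w⟫ < c}) \ {z | c < ⟪z, w⟫} =
        frontier L ∩ {z | ⟪z, w⟫ = c} := by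
      ext z
      simp only [mem_inter_iff, mem_sdiff, mem_ofPred_eq, not_lt]
      exact ⟨fun h => ⟨h.1.1, le_antisymm h.2 h.1.2⟩, fun h => ⟨⟨h.1, h.2.ge⟩, h.2.le⟩⟩
    rw [a1, a2, hnull, add_zero]
  -- support side
  have hs : ∀ v, supp L v + supp (segment ℝ a b) v = supp T v + supp K v := by
    intro v
    have hsub1 : segment ℝ a b ⊆ T := hT.convex.segment_subset haT hbT
    have hsub2 : segment ℝ a b ⊆ K := hK.convex.segment_subset haK hbK
    have hsne : (segment ℝ a b).Nonempty := ⟨a, left_mem_segment _ _ _⟩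
    have hscomp : IsCompact (segment ℝ a b) :=
      hT.compact.of_isClosed_subset (isClosed_segment' a b) hsub1
    have hmin : supp (segment ℝ a b) v = min (supp T v) (supp K v) := by
      apply le_antisymm
      · exact le_min (supp_mono hsne hT.compact hsub1 v) (supp_mono hsne hK.compact hsub2 v)
      · obtain ⟨p, hp, hp'⟩ := exists_eq_supp hT.compact hT.ne v
        obtain ⟨q, hq, hq'⟩ := exists_eq_supp hK.compact hK.ne v
        -- the segment from p to q meets the separating line
        have hpL : p ∈ L := by rw [hun]; exact Or.inl hp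
        have hqL : q ∈ L := by rw [hun]; exact Or.inr hq
        have hcont : ContinuousOn (fun t : ℝ => ⟪AffineMap.lineMap p q t, w⟫) (Icc 0 1) := by
          apply Continuous.continuousOn
          have : Continuous (AffineMap.lineMap (k := ℝ) p q) := AffineMap.lineMap_continuous
          fun_prop
        have hc : c ∈ Icc ((fun t : ℝ => ⟪AffineMap.lineMap p q t, w⟫) 0)
            ((fun t : ℝ => ⟪AffineMap.lineMap p q t, w⟫) 1) := by
          simp only [AffineMap.lineMap_apply_zero, AffineMap.lineMap_apply_one]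
          exact ⟨hTle p hp, hKge q hq⟩
        obtain ⟨t, ht, htc⟩ := intermediate_value_Icc zero_le_one hcont hc
        have hr : AffineMap.lineMap p q t ∈ segment ℝ p q := by
          rw [segment_eq_image_lineMap]; exact ⟨t, ht, rfl⟩
        have hrL : AffineMap.lineMap p q t ∈ L := hL.convex.segment_subset hpL hqL hr
        have hrs := hLc _ hrL htc
        refine le_trans ?_ (le_supp hscomp hrs v)
        rw [AffineMap.lineMap_apply_module, inner_add_left, real_inner_smul_left,
          real_inner_smul_left, hp', hq']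
        have m1 := min_le_left (supp T v) (supp K v)
        have m2 := min_le_right (supp T v) (supp K v)
        nlinarith [ht.1, ht.2]
    rw [hmin, hun, supp_union hT.compact hK.compact hT.ne hK.ne]
    exact max_add_min _ _
  have hcper : cper L + 2 * ‖a - b‖ = cper T + cper K := by
    rw [← cper_segment]
    have hscomp : IsCompact (segment ℝ a b) :=
      hT.compact.of_isClosed_subset (isClosed_segment' a b) (hT.convex.segment_subset haT hbT)
    unfold cper
    rw [← intervalIntegral.integral_add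
      ((continuous_supp_dir hL.compact hL.ne).intervalIntegrable _ _)
      ((continuous_supp_dir hscomp ⟨a, left_mem_segment _ _ _⟩).intervalIntegrable _ _),
      ← intervalIntegral.integral_add
      ((continuous_supp_dir hT.compact hT.ne).intervalIntegrable _ _)
      ((continuous_supp_dir hK.compact hK.ne).intervalIntegrable _ _)]
    simp_rw [hs]
  have n1 := cper_nonneg hL.compact hL.convex hL.ne
  have n2 := cper_nonneg hT.compact hT.convex hT.ne
  have n3 := cper_nonneg hK.compact hK.convex hK.ne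
  have hkey : μH[1] (frontier L) + ENNReal.ofReal (2 * ‖a - b‖) =
      ENNReal.ofReal (cper L) + ENNReal.ofReal (2 * ‖a - b‖) := by
    rw [← ENNReal.ofReal_add n1 (by positivity), hcper, ENNReal.ofReal_add n2 n3, ← cT, ← cK, e1,
      e2, e3, l1, l2, two_mul, ENNReal.ofReal_add (norm_nonneg _) (norm_nonneg _)]
    ring
  exact (ENNReal.add_left_inj ENNReal.ofReal_ne_top).1 hkey

end Pool.Agent.H78String
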