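import Pool.Agent.H78String.Arc

set_option autoImplicit false

open MeasureTheory Set Metric
open scoped Real Pointwise RealInnerProductSpace Topology

namespace Pool.Agent.H78String

/-- the visible directions, as an indicator -/
noncomputable def gI (K : Set E2) (x : E2) : ℝ → E2 := indicator {θ | 0 < psi K x θ} dir

/-- The gradient of the hull perimeter. -/
noncomputable def G (K : Set E2) (x : E2) : E2 := ∫ θ in (0:ℝ)..(2 * π), gI K x θ

lemma measurableSet_vis {K : Set E2} (hK : Body K) (x : E2) :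
    MeasurableSet {θ | 0 < psi K x θ} :=
  (isOpen_lt continuous_const (psi_continuous hK x)).measurableSet

lemma gI_measurable {K : Set E2} (hK : Body K) (x : E2) : Measurable (gI K x) :=
  continuous_dir.measurable.indicator (measurableSet_vis hK x)

lemma gI_norm_le (K : Set E2) (x : E2) (θ : ℝ) : ‖gI K x θ‖ ≤ 1 := by
  unfold gI indicator
  split_ifs
  · rw [norm_dir]
  · simp

lemma gI_integrable {K : Set E2} (hK : Body K) (x : E2) (a b : ℝ) :
    IntervalIntegrable (gI K x) volume a b := by
  rw [intervalIntegrable_iff]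
  have h1 : IntervalIntegrable (fun _ : ℝ => (1:ℝ)) volume a b := intervalIntegrable_const
  rw [intervalIntegrable_iff] at h1
  exact Integrable.mono' h1 (gI_measurable hK x).aestronglyMeasurable
    (Filter.Eventually.of_forall (gI_norm_le K x))

lemma gI_periodic (K : Set E2) (x : E2) : Function.Periodic (gI K x) (2 * π) := by
  intro θ
  unfold gI indicator
  simp only [mem_ofPred_eq, psi_periodic, dir_add_two_pi]

lemma ae_psi_ne_zero {K : Set E2} (hK : Body K) {x : E2} (hx : x ∉ K) :
    ∀ᵐ θ ∂(volume : Measure ℝ), psi K x θ ≠ 0 := by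
  obtain ⟨α, β, hαβ, hβα, hα0, hβ0, hpos, hneg⟩ := arc_structure hK hx
  have hsub : {θ | psi K x θ = 0} ⊆
      (range fun n : ℤ => α + n * (2 * π)) ∪ (range fun n : ℤ => β + n * (2 * π)) := by
    intro θ hθ
    have hper : Function.Periodic (psi K x) (2 * π) := psi_periodic K x
    obtain ⟨n, hn, -⟩ := existsUnique_add_zsmul_mem_Ico (a := 2 * π) (by positivity) θ α
    have h1 : psi K x (θ + n • (2 * π)) = 0 := by
      rw [hper.zsmul n]; exact hθ
    have h2 : θ + n • (2 * π) = α ∨ θ + n • (2 * π) = β := by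
      rcases hn.1.eq_or_lt with h | h
      · exact Or.inl h.symm
      · right
        rcases lt_trichotomy (θ + n • (2 * π)) β with h' | h' | h'
        · exact absurd h1 (hpos _ h h').ne'
        · exact h'
        · exact absurd h1 (hneg _ h' hn.2).ne
    rcases h2 with h | h
    · left
      refine ⟨-n, ?_⟩
      simp only [zsmul_eq_mul] at h
      push_cast
      linarith
    · right
      refine ⟨-n, ?_⟩
      simp only [zsmul_eq_mul] at h
      push_cast
      linarith
  have hcount : ({θ | psi K x θ = 0}).Countable :=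
    ((countable_range _).union (countable_range _)).mono hsub
  have := hcount.measure_zero volume
  rw [ae_iff]
  simpa using this

lemma integral_dir (a b : ℝ) : ∫ θ in a..b, dir θ = rot (dir a) - rot (dir b) := by
  have hd : ∀ θ : ℝ, HasDerivAt (fun t => - rot (dir t)) (dir θ) θ := by
    intro θ
    have h1 := ((Real.hasDerivAt_sin θ).smul_const (!₂[(1:ℝ), 0] : E2)).sub
      ((Real.hasDerivAt_cos θ).smul_const (!₂[(0:ℝ), 1] : E2))
    have e1 : (fun t => - rot (dir t)) = fun t =>
        Real.sin t • (!₂[(1:ℝ), 0] : E2) - Real.cos t • (!₂[(0:ℝ), 1] : E2) := by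
      funext t
      apply ext2
      · simp [rot, dir]
      · simp [rot, dir]
    have e2 : dir θ = Real.cos θ • (!₂[(1:ℝ), 0] : E2) - -Real.sin θ • (!₂[(0:ℝ), 1] : E2) := by
      apply ext2
      · simp [dir]
      · simp [dir]
    rw [e1, e2]
    exact h1
  rw [intervalIntegral.integral_eq_sub_of_hasDerivAt (fun θ _ => hd θ)
    (continuous_dir.intervalIntegrable _ _)]
  abel

lemma G_eq {K : Set E2} (hK : Body K) (x : E2) {α β : ℝ} (hαβ : α < β)
    (hβα : β < α + π) (hpos : ∀ θ, α < θ → θ < β → 0 < psi K x θ)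
    (hneg : ∀ θ, β < θ → θ < α + 2 * π → psi K x θ < 0) :
    G K x = rot (dir α) - rot (dir β) := by
  have hπ := Real.pi_pos
  unfold G
  have h1 : ∫ θ in (0:ℝ)..(2 * π), gI K x θ = ∫ θ in α..(α + 2 * π), gI K x θ := by
    have := (gI_periodic K x).intervalIntegral_add_eq 0 α
    rwa [zero_add] at this
  rw [h1, ← intervalIntegral.integral_add_adjacent_intervals (gI_integrable hK x α β)
    (gI_integrable hK x β (α + 2 * π))]
  have h2 : ∫ θ in α..β, gI K x θ = ∫ θ in α..β, dir θ := by
    apply intervalIntegral.integral_congr_ae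
    filter_upwards [Measure.ae_ne volume β] with θ hθ hmem
    rw [uIoc_of_le hαβ.le] at hmem
    unfold gI
    rw [indicator_of_mem]
    exact hpos θ hmem.1 (lt_of_le_of_ne hmem.2 hθ)
  have h3 : ∫ θ in β..(α + 2 * π), gI K x θ = 0 := by
    apply intervalIntegral.integral_zero_ae
    filter_upwards [Measure.ae_ne volume (α + 2 * π)] with θ hθ hmem
    rw [uIoc_of_le (by linarith)] at hmem
    unfold gI
    rw [indicator_of_notMem]
    simp only [mem_ofPred_eq, not_lt]
    exact (hneg θ hmem.1 (lt_of_le_of_ne hmem.2 hθ)).le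
  rw [h2, h3, add_zero, integral_dir]

lemma inner_rot_rot (u v : E2) : ⟪rot u, rot v⟫ = ⟪u, v⟫ := by
  rw [inner_eq, inner_eq, rot_zero, rot_one, rot_zero, rot_one]; ring

lemma norm_rot (u : E2) : ‖rot u‖ = ‖u‖ := by
  have h : ‖rot u‖ ^ 2 = ‖u‖ ^ 2 := by
    rw [← real_inner_self_eq_norm_sq, ← real_inner_self_eq_norm_sq, inner_rot_rot]
  nlinarith [norm_nonneg (rot u), norm_nonneg u]

lemma G_norm_sq {α β : ℝ} : ‖rot (dir α) - rot (dir β)‖ ^ 2 = 2 - 2 * Real.cos (β - α) := by
  rw [← real_inner_self_eq_norm_sq, inner_sub_left, inner_sub_right, inner_sub_right,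
    inner_rot_rot, inner_rot_rot, inner_rot_rot, inner_rot_rot, inner_dir_dir, inner_dir_dir,
    inner_dir_dir, inner_dir_dir, sub_self, sub_self, Real.cos_zero, ← Real.cos_neg (α - β)]
  ring_nf

lemma G_ne_zero {K : Set E2} (hK : Body K) {x : E2} (hx : x ∉ K) : G K x ≠ 0 := by
  obtain ⟨α, β, hαβ, hβα, hα0, hβ0, hpos, hneg⟩ := arc_structure hK hx
  rw [G_eq hK x hαβ hβα hpos hneg]
  intro h0
  have h1 := G_norm_sq (α := α) (β := β)
  rw [h0, norm_zero] at h1
  have h2 : Real.cos (β - α) < 1 := by
    have := Real.cos_lt_cos_of_nonneg_of_le_pi (x := 0) (y := β - α) le_rfl (by linarith)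
      (by linarith)
    rwa [Real.cos_zero] at this
  nlinarith

/-- Key identity: along a supporting line of `K` through `x`, the component of the gradient is
half of its squared length. -/
lemma G_tangent {K : Set E2} (hK : Body K) {x p : E2} (hx : x ∉ K) (hp : p ∈ K) {φ : ℝ}
    (h1 : ⟪x, dir φ⟫ = supp K (dir φ)) (h2 : ⟪p, dir φ⟫ = supp K (dir φ)) :
    ⟪x - p, G K x⟫ = ‖x - p‖ * (‖G K x‖ ^ 2 / 2) := by
  have hπ := Real.pi_pos
  obtain ⟨α, β, hαβ, hβα, hα0, hβ0, hpos, hneg⟩ := arc_structure hK hx
  rw [G_eq hK x hαβ hβα hpos hneg, G_norm_sq]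
  have hper : Function.Periodic dir (2 * π) := dir_add_two_pi
  obtain ⟨n, hn, -⟩ := existsUnique_add_zsmul_mem_Ico (a := 2 * π) (by positivity) φ α
  have hdn : dir (φ + n • (2 * π)) = dir φ := hper.zsmul n φ
  have h3 : psi K x (φ + n • (2 * π)) = 0 := by
    simp only [psi, hdn]; linarith
  have h4 : φ + n • (2 * π) = α ∨ φ + n • (2 * π) = β := by
    rcases hn.1.eq_or_lt with h | h
    · exact Or.inl h.symm
    · right
      rcases lt_trichotomy (φ + n • (2 * π)) β with h' | h' | h'
      · exact absurd h3 (hpos _ h h').ne'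
      · exact h'
      · exact absurd h3 (hneg _ h' hn.2).ne
  have horth : ⟪x - p, dir φ⟫ = 0 := by rw [inner_sub_left]; linarith
  -- expansion of x - p in the frame (dir φ, rot (dir φ))
  have hframe : x - p = ⟪x - p, rot (dir φ)⟫ • rot (dir φ) := by
    have hcs := Real.sin_sq_add_cos_sq φ
    rw [inner_dir] at horth
    rw [inner_eq, rot_zero, rot_one, dir_zero, dir_one]
    set y := x - p
    apply ext2
    · rw [PiLp.smul_apply, rot_zero, dir_one, smul_eq_mul]
      linear_combination (- y 0) * hcs + Real.cos φ * horth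
    · rw [PiLp.smul_apply, rot_one, dir_zero, smul_eq_mul]
      linear_combination (- y 1) * hcs + Real.sin φ * horth
  set s := ⟪x - p, rot (dir φ)⟫ with hs
  have hvis : ∀ θ, 0 < psi K x θ → 0 < s * Real.sin (θ - φ) := by
    intro θ hθ
    have h5 : psi K x θ ≤ ⟪x - p, dir θ⟫ := by
      simp only [psi]
      rw [inner_sub_left]
      linarith [le_supp hK.compact hp (dir θ)]
    rw [hframe, real_inner_smul_left] at h5
    have h6 : ⟪rot (dir φ), dir θ⟫ = Real.sin (θ - φ) := by
      rw [inner_dir, rot_zero, rot_one, dir_zero, dir_one, Real.sin_sub]; ring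
    rw [h6] at h5
    linarith
  have hsinper : ∀ θ, Real.sin (θ - φ) = Real.sin (θ - (φ + n • (2 * π))) := by
    intro θ
    rw [zsmul_eq_mul, ← sub_sub, Real.sin_sub_int_mul_two_pi]
  rw [← hdn] at hframe
  rcases h4 with h | h
  · rw [h] at hframe hsinper
    have h5 := hvis ((α + β) / 2) (hpos _ (by linarith) (by linarith))
    rw [hsinper] at h5
    have h6 : 0 < Real.sin ((α + β) / 2 - α) :=
      Real.sin_pos_of_pos_of_lt_pi (by linarith) (by linarith)
    have hs0 : 0 < s := (pos_iff_pos_of_mul_pos h5).2 h6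
    have hn' : ‖x - p‖ = s := by
      rw [hframe, norm_smul, norm_rot, norm_dir, mul_one, Real.norm_of_nonneg hs0.le]
    rw [hn', hframe, real_inner_smul_left, inner_sub_right, inner_rot_rot, inner_rot_rot,
      inner_dir_dir, inner_dir_dir, sub_self, Real.cos_zero]
    ring
  · rw [h] at hframe hsinper
    have h5 := hvis ((α + β) / 2) (hpos _ (by linarith) (by linarith))
    rw [hsinper] at h5
    have h6 : Real.sin ((α + β) / 2 - β) < 0 := by
      apply Real.sin_neg_of_neg_of_neg_pi_lt (by linarith) (by linarith)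
    have hs0 : s < 0 := by
      by_contra hcon
      push Not at hcon
      nlinarith
    have hn' : ‖x - p‖ = -s := by
      rw [hframe, norm_smul, norm_rot, norm_dir, mul_one, Real.norm_of_nonpos hs0.le]
    rw [hn', hframe, real_inner_smul_left, inner_sub_right, inner_rot_rot, inner_rot_rot,
      inner_dir_dir, inner_dir_dir, sub_self, Real.cos_zero, ← Real.cos_neg (α - β)]
    ring_nf

/-- Subgradient inequality. -/
lemma F_subgrad {K : Set E2} (hK : Body K) (x y : E2) : F K x + ⟪G K x, y - x⟫ ≤ F K y := by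
  have h1 : ⟪G K x, y - x⟫ = ∫ θ in (0:ℝ)..(2 * π), ⟪y - x, gI K x θ⟫ := by
    unfold G
    rw [real_inner_comm]
    exact ((innerSL ℝ (y - x)).intervalIntegral_comp_comm (gI_integrable hK x _ _)).symm
  have hi : IntervalIntegrable (fun θ => ⟪y - x, gI K x θ⟫) volume 0 (2 * π) := by
    have := gI_integrable hK x 0 (2 * π)
    rw [intervalIntegrable_iff] at this ⊢
    exact this.const_inner (y - x)
  rw [h1]
  unfold F
  rw [← intervalIntegral.integral_add ((continuous_integrand hK x).intervalIntegrable _ _) hi]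
  refine intervalIntegral.integral_mono (by positivity)
    (((continuous_integrand hK x).intervalIntegrable _ _).add hi)
    ((continuous_integrand hK y).intervalIntegrable _ _) fun θ => ?_
  simp only
  by_cases h : 0 < psi K x θ
  · have hg : gI K x θ = dir θ := indicator_of_mem (s := {θ | 0 < psi K x θ}) h dir
    rw [hg, inner_sub_left]
    have h' : supp K (dir θ) ≤ ⟪x, dir θ⟫ := by simp only [psi] at h; linarith
    rw [max_eq_left h']
    have := le_max_left ⟪y, dir θ⟫ (supp K (dir θ))
    linarith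
  · have hg : gI K x θ = 0 := indicator_of_notMem (s := {θ | 0 < psi K x θ}) h dir
    rw [hg, inner_zero_right, add_zero]
    have h' : ⟪x, dir θ⟫ ≤ supp K (dir θ) := by simp only [psi] at h; linarith
    rw [max_eq_right h']
    exact le_max_right _ _

lemma psi_continuous_left (K : Set E2) (θ : ℝ) : Continuous fun x => psi K x θ := by
  unfold psi
  fun_prop

lemma G_continuousAt {K : Set E2} (hK : Body K) {x0 : E2} (hx0 : x0 ∉ K) :
    ContinuousAt (G K) x0 := by
  unfold G
  refine intervalIntegral.continuousAt_of_dominated_interval (bound := fun _ => (1:ℝ))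
    (Filter.Eventually.of_forall fun x => (gI_measurable hK x).aestronglyMeasurable)
    (Filter.Eventually.of_forall fun x => Filter.Eventually.of_forall fun θ _ => gI_norm_le K x θ)
    intervalIntegrable_const ?_
  filter_upwards [ae_psi_ne_zero hK hx0] with θ hθ _
  have hc := (psi_continuous_left K θ).continuousAt (x := x0)
  rcases lt_or_gt_of_ne hθ with h | h
  · have hev : ∀ᶠ x in 𝓝 x0, gI K x θ = 0 := by
      filter_upwards [hc.eventually (gt_mem_nhds h)] with x hx
      unfold gI
      rw [indicator_of_notMem]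
      simp only [mem_ofPred_eq, not_lt]
      exact hx.le
    exact (continuousAt_const (y := (0:E2))).congr (hev.mono fun x hx => hx.symm)
  · have hev : ∀ᶠ x in 𝓝 x0, gI K x θ = dir θ := by
      filter_upwards [hc.eventually (lt_mem_nhds h)] with x hx
      unfold gI
      rw [indicator_of_mem]
      exact hx
    exact (continuousAt_const (y := dir θ)).congr (hev.mono fun x hx => hx.symm)

lemma F_hasStrictFDerivAt {K : Set E2} (hK : Body K) {x0 : E2} (hx0 : x0 ∉ K) :
    HasStrictFDerivAt (F K) (innerSL ℝ (G K x0)) x0 := by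
  rw [hasStrictFDerivAt_iff_isLittleO, Asymptotics.isLittleO_iff]
  intro c hc
  have hG := G_continuousAt hK hx0
  have hev : ∀ᶠ x in 𝓝 x0, ‖G K x - G K x0‖ ≤ c := by
    have h1 : ContinuousAt (fun x => ‖G K x - G K x0‖) x0 :=
      (hG.sub continuousAt_const).norm
    have h2 : ‖G K x0 - G K x0‖ < c := by simpa using hc
    exact (h1.eventually (gt_mem_nhds h2)).mono fun x hx => hx.le
  have hprod : ∀ᶠ p in 𝓝 (x0, x0), ‖G K p.1 - G K x0‖ ≤ c ∧ ‖G K p.2 - G K x0‖ ≤ c := by
    rw [nhds_prod_eq]
    exact (Filter.Eventually.prod_mk hev hev)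
  filter_upwards [hprod] with p hp
  obtain ⟨hp1, hp2⟩ := hp
  have a1 := F_subgrad hK p.1 p.2
  have a2 := F_subgrad hK p.2 p.1
  have b1 : ⟪G K p.1 - G K x0, p.1 - p.2⟫ ≤ c * ‖p.1 - p.2‖ :=
    (real_inner_le_norm _ _).trans (by gcongr)
  have b2 : -⟪G K p.2 - G K x0, p.1 - p.2⟫ ≤ c * ‖p.1 - p.2‖ := by
    rw [← inner_neg_left]
    refine (real_inner_le_norm _ _).trans ?_
    rw [norm_neg]
    gcongr
  rw [inner_sub_left] at b1 b2
  have e1 : ⟪G K p.1, p.2 - p.1⟫ = - ⟪G K p.1, p.1 - p.2⟫ := by
    rw [← inner_neg_right]; congr 1; abel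
  rw [Real.norm_eq_abs, abs_le, innerSL_apply_apply]
  constructor <;> linarith

end Pool.Agent.H78String
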