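import Pool.Agent.H78String.Mono

set_option autoImplicit false

open MeasureTheory Set Metric
open scoped Real Pointwise RealInnerProductSpace

namespace Pool.Agent.H78String

lemma dir_add_pi (θ : ℝ) : dir (θ + π) = - dir θ := by
  apply ext2
  · simp [dir, Real.cos_add_pi]
  · simp [dir, Real.sin_add_pi]

lemma dir_add_two_pi (θ : ℝ) : dir (θ + 2 * π) = dir θ := by
  apply ext2
  · simp [dir]
  · simp [dir]

lemma integral_abs_cos : ∫ θ in (0:ℝ)..(2 * π), |Real.cos θ| = 4 := by
  have hper : Function.Periodic (fun θ : ℝ => |Real.cos θ|) π := by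
    intro θ; simp [Real.cos_add_pi]
  have hint : ∀ a b : ℝ, IntervalIntegrable (fun θ : ℝ => |Real.cos θ|) volume a b := fun a b =>
    (by fun_prop : Continuous fun θ : ℝ => |Real.cos θ|).intervalIntegrable a b
  have h1 : ∫ θ in (0:ℝ)..π, |Real.cos θ| = 2 := by
    have e : ∫ θ in (0:ℝ)..(0 + π), |Real.cos θ| = ∫ θ in (-(π/2))..(-(π/2) + π), |Real.cos θ| :=
      hper.intervalIntegral_add_eq 0 (-(π/2))
    rw [zero_add] at e
    rw [e, show -(π/2) + π = π/2 by ring]
    have e2 : ∫ θ in (-(π/2))..(π/2), |Real.cos θ| = ∫ θ in (-(π/2))..(π/2), Real.cos θ := by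
      refine intervalIntegral.integral_congr fun θ hθ => ?_
      rw [uIcc_of_le (by linarith [Real.pi_pos])] at hθ
      exact abs_of_nonneg (Real.cos_nonneg_of_mem_Icc hθ)
    rw [e2, integral_cos]
    simp
    norm_num
  have h2 : ∫ θ in π..(2*π), |Real.cos θ| = 2 := by
    have e : ∫ θ in π..(π + π), |Real.cos θ| = ∫ θ in (0:ℝ)..(0 + π), |Real.cos θ| :=
      hper.intervalIntegral_add_eq π 0
    rw [zero_add, h1] at e
    rw [two_mul, e]
  rw [← intervalIntegral.integral_add_adjacent_intervals (hint 0 π) (hint π (2*π)), h1, h2]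
  norm_num

lemma exists_polar (v : E2) : ∃ φ : ℝ, v = ‖v‖ • dir φ := by
  by_cases hv : v = 0
  · exact ⟨0, by simp [hv]⟩
  · set z : ℂ := ⟨v 0, v 1⟩ with hz
    have hnz : ‖z‖ = ‖v‖ := by
      have h1 : ‖z‖ ^ 2 = ‖v‖ ^ 2 := by
        rw [norm_sq_eq, ← Complex.normSq_eq_norm_sq, Complex.normSq_apply]; simp [hz]; ring
      have h2 := norm_nonneg z
      have h3 := norm_nonneg v
      nlinarith
    refine ⟨Complex.arg z, ?_⟩
    have h0 := Complex.norm_mul_cos_arg z
    have h1 := Complex.norm_mul_sin_arg z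
    rw [hnz] at h0 h1
    apply ext2
    · rw [PiLp.smul_apply, dir_zero, smul_eq_mul, h0]
    · rw [PiLp.smul_apply, dir_one, smul_eq_mul, h1]

lemma inner_dir_dir (θ φ : ℝ) : ⟪dir φ, dir θ⟫ = Real.cos (θ - φ) := by
  rw [inner_dir, dir_zero, dir_one, Real.cos_sub]; ring

lemma integral_abs_inner (v : E2) : ∫ θ in (0:ℝ)..(2 * π), |⟪v, dir θ⟫| = 4 * ‖v‖ := by
  obtain ⟨φ, hφ⟩ := exists_polar v
  have h1 : ∀ θ, |⟪v, dir θ⟫| = ‖v‖ * |Real.cos (θ - φ)| := by
    intro θ
    conv_lhs => rw [hφ]
    rw [real_inner_smul_left, inner_dir_dir, abs_mul, abs_norm]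
  simp_rw [h1]
  rw [intervalIntegral.integral_const_mul]
  have h2 : ∫ θ in (0:ℝ)..(2 * π), |Real.cos (θ - φ)| = 4 := by
    rw [intervalIntegral.integral_comp_sub_right (fun θ => |Real.cos θ|) φ]
    have hper : Function.Periodic (fun θ : ℝ => |Real.cos θ|) (2 * π) := by
      intro θ; simp
    have := hper.intervalIntegral_add_eq (0 - φ) 0
    rw [zero_add, integral_abs_cos] at this
    rw [← this]
    congr 1
    ring
  rw [h2]; ring

lemma integral_inner (v : E2) : ∫ θ in (0:ℝ)..(2 * π), ⟪v, dir θ⟫ = 0 := by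
  simp_rw [inner_dir]
  rw [intervalIntegral.integral_add
    ((by fun_prop : Continuous fun θ : ℝ => v 0 * Real.cos θ).intervalIntegrable _ _)
    ((by fun_prop : Continuous fun θ : ℝ => v 1 * Real.sin θ).intervalIntegrable _ _),
    intervalIntegral.integral_const_mul, intervalIntegral.integral_const_mul]
  simp

lemma continuous_inner_dir (v : E2) : Continuous fun θ : ℝ => ⟪v, dir θ⟫ := by
  have := continuous_dir
  fun_prop

lemma supp_segment (a b v : E2) : supp (segment ℝ a b) v = max ⟪a, v⟫ ⟪b, v⟫ := by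
  rw [← convexHull_pair, supp_convexHull_insert isCompact_singleton (singleton_nonempty _),
    supp_singleton]

lemma cper_segment (a b : E2) : cper (segment ℝ a b) = 2 * ‖a - b‖ := by
  unfold cper
  have h : ∀ θ, supp (segment ℝ a b) (dir θ) =
      (1/2) * (⟪a + b, dir θ⟫ + |⟪a - b, dir θ⟫|) := by
    intro θ
    rw [supp_segment, inner_add_left, inner_sub_left]
    rcases le_total ⟪a, dir θ⟫ ⟪b, dir θ⟫ with h | h
    · rw [max_eq_right h, abs_of_nonpos (by linarith)]; ring
    · rw [max_eq_left h, abs_of_nonneg (by linarith)]; ring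
  simp_rw [h]
  rw [intervalIntegral.integral_const_mul, intervalIntegral.integral_add
    ((continuous_inner_dir _).intervalIntegrable _ _)
    ((continuous_inner_dir _).abs.intervalIntegrable _ _), integral_inner, integral_abs_inner]
  ring

lemma max3_identity (α β γ : ℝ) : max α (max β γ) + max (-α) (max (-β) (-γ)) =
    (1/2) * (|α - β| + |β - γ| + |γ - α|) := by
  rcases le_total α β with h1 | h1 <;> rcases le_total β γ with h2 | h2 <;>
    rcases le_total α γ with h3 | h3 <;>
    simp only [max_def, abs_of_nonneg, abs_of_nonpos, sub_nonneg, sub_nonpos, h1, h2, h3,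
      neg_le_neg_iff] <;>
    split_ifs <;> linarith

lemma cper_triangle (a b c : E2) : cper (convexHull ℝ {a, b, c}) =
    ‖a - b‖ + ‖b - c‖ + ‖c - a‖ := by
  unfold cper
  have h0 : ∀ θ, supp (convexHull ℝ {a, b, c}) (dir θ) =
      max ⟪a, dir θ⟫ (max ⟪b, dir θ⟫ ⟪c, dir θ⟫) := by
    intro θ
    rw [supp_convexHull_insert (isCompact_singleton.insert b) (insert_nonempty _ _),
      supp_insert isCompact_singleton (singleton_nonempty _), supp_singleton]
  simp_rw [h0]
  set f : ℝ → ℝ := fun θ => max ⟪a, dir θ⟫ (max ⟪b, dir θ⟫ ⟪c, dir θ⟫) with hf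
  have hfc : Continuous f :=
    (continuous_inner_dir a).max ((continuous_inner_dir b).max (continuous_inner_dir c))
  have hper : Function.Periodic f (2 * π) := by
    intro θ; simp [hf, dir_add_two_pi]
  have h1 : ∫ θ in (0:ℝ)..(2*π), f θ = ∫ θ in (0:ℝ)..(2*π), f (θ + π) := by
    rw [intervalIntegral.integral_comp_add_right f π]
    have := hper.intervalIntegral_add_eq 0 (0 + π)
    rw [zero_add] at this
    rw [this]
    congr 1; ring
  have h2 : 2 * ∫ θ in (0:ℝ)..(2*π), f θ = ∫ θ in (0:ℝ)..(2*π), (1/2) *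
      ((|⟪a - b, dir θ⟫| + |⟪b - c, dir θ⟫|) + |⟪c - a, dir θ⟫|) := by
    rw [two_mul]
    nth_rewrite 2 [h1]
    rw [← intervalIntegral.integral_add (hfc.intervalIntegrable _ _)
      ((by fun_prop : Continuous fun θ => f (θ + π)).intervalIntegrable _ _)]
    refine intervalIntegral.integral_congr fun θ _ => ?_
    simp only [hf, dir_add_pi, inner_neg_right, inner_sub_left]
    exact max3_identity _ _ _
  have ha : ∀ v : E2, IntervalIntegrable (fun θ : ℝ => |⟪v, dir θ⟫|) volume 0 (2 * π) :=
    fun v => (continuous_inner_dir v).abs.intervalIntegrable _ _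
  rw [intervalIntegral.integral_const_mul, intervalIntegral.integral_add ((ha _).add (ha _)) (ha _),
    intervalIntegral.integral_add (ha _) (ha _), integral_abs_inner, integral_abs_inner,
    integral_abs_inner] at h2
  linarith

end Pool.Agent.H78String
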