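import Pool.Agent.H78String.Cauchy

set_option autoImplicit false

open MeasureTheory Set Metric
open scoped Real Pointwise RealInnerProductSpace

namespace Pool.Agent.H78String

/-- Perimeter of the hull of `K` and a point. -/
noncomputable def F (K : Set E2) (x : E2) : ℝ :=
  ∫ θ in (0:ℝ)..(2 * π), max ⟪x, dir θ⟫ (supp K (dir θ))

lemma F_eq_cper {K : Set E2} (hK : Body K) (x : E2) :
    F K x = cper (convexHull ℝ (insert x K)) := by
  unfold F cper
  simp_rw [supp_convexHull_insert hK.compact hK.ne]

lemma F_eq_perimeter {K : Set E2} (hK : Body K) (x : E2) :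
    (μH[1] (frontier (convexHull ℝ (insert x K)))).toReal = F K x := by
  rw [cauchy_toReal (hK.hull_insert x), F_eq_cper hK]

lemma continuous_integrand {K : Set E2} (hK : Body K) (x : E2) :
    Continuous fun θ => max ⟪x, dir θ⟫ (supp K (dir θ)) :=
  (continuous_inner_dir x).max (continuous_supp_dir hK.compact hK.ne)

lemma F_of_mem {K : Set E2} (hK : Body K) {x : E2} (hx : x ∈ K) : F K x = cper K := by
  unfold F cper
  refine intervalIntegral.integral_congr fun θ _ => ?_
  exact max_eq_right (le_supp hK.compact hx _)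

lemma F_nonneg {K : Set E2} (hK : Body K) (x : E2) : 0 ≤ F K x := by
  rw [F_eq_cper hK]
  have h := hK.hull_insert x
  exact cper_nonneg h.compact h.convex h.ne

lemma F_convex {K : Set E2} (hK : Body K) : ConvexOn ℝ univ (F K) := by
  refine ⟨convex_univ, fun x _ y _ a b ha hb hab => ?_⟩
  unfold F
  rw [smul_eq_mul, smul_eq_mul, ← intervalIntegral.integral_const_mul,
    ← intervalIntegral.integral_const_mul, ← intervalIntegral.integral_add
      (((continuous_integrand hK x).intervalIntegrable _ _).const_mul _)
      (((continuous_integrand hK y).intervalIntegrable _ _).const_mul _)]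
  refine intervalIntegral.integral_mono (by positivity)
    ((continuous_integrand hK _).intervalIntegrable _ _)
    ((((continuous_integrand hK x).intervalIntegrable _ _).const_mul _).add
      (((continuous_integrand hK y).intervalIntegrable _ _).const_mul _)) fun θ => ?_
  simp only
  rw [inner_add_left, real_inner_smul_left, real_inner_smul_left]
  have e : supp K (dir θ) = a * supp K (dir θ) + b * supp K (dir θ) := by
    rw [← add_mul, hab, one_mul]
  refine max_le ?_ ?_
  · exact add_le_add (mul_le_mul_of_nonneg_left (le_max_left _ _) ha)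
      (mul_le_mul_of_nonneg_left (le_max_left _ _) hb)
  · refine e.le.trans ?_
    exact add_le_add (mul_le_mul_of_nonneg_left (le_max_right _ _) ha)
      (mul_le_mul_of_nonneg_left (le_max_right _ _) hb)

lemma F_sub_le {K : Set E2} (hK : Body K) (x y : E2) : F K x - F K y ≤ 2 * π * ‖x - y‖ := by
  unfold F
  rw [← intervalIntegral.integral_sub ((continuous_integrand hK x).intervalIntegrable _ _)
    ((continuous_integrand hK y).intervalIntegrable _ _)]
  calc ∫ θ in (0:ℝ)..(2 * π), (max ⟪x, dir θ⟫ (supp K (dir θ)) - max ⟪y, dir θ⟫ (supp K (dir θ)))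
      ≤ ∫ θ in (0:ℝ)..(2 * π), ‖x - y‖ := by
        refine intervalIntegral.integral_mono (by positivity)
          (((continuous_integrand hK x).sub (continuous_integrand hK y)).intervalIntegrable _ _)
          intervalIntegrable_const fun θ => ?_
        simp only
        have h1 : ⟪x - y, dir θ⟫ ≤ ‖x - y‖ * ‖dir θ‖ := real_inner_le_norm _ _
        rw [norm_dir, mul_one, inner_sub_left] at h1
        have h2 := norm_nonneg (x - y)
        have h3 := le_max_left ⟪y, dir θ⟫ (supp K (dir θ))
        have h4 := le_max_right ⟪y, dir θ⟫ (supp K (dir θ))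
        rw [sub_le_iff_le_add]
        refine max_le ?_ ?_ <;> linarith
    _ = 2 * π * ‖x - y‖ := by simp

lemma F_continuous {K : Set E2} (hK : Body K) : Continuous (F K) := by
  refine LipschitzWith.continuous (K := (2 * π).toNNReal)
    (LipschitzWith.of_dist_le_mul fun x y => ?_)
  rw [Real.dist_eq, dist_eq_norm, abs_le, Real.coe_toNNReal _ (by positivity)]
  constructor
  · have := F_sub_le hK y x
    rw [norm_sub_rev] at this
    linarith
  · exact F_sub_le hK x y

/-- `x` outside `K`: the direction function is positive somewhere. -/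
lemma exists_dir_pos {K : Set E2} (hK : Body K) {x : E2} (hx : x ∉ K) :
    ∃ θ, supp K (dir θ) < ⟪x, dir θ⟫ := by
  obtain ⟨f, u, hfK, hfx⟩ := geometric_hahn_banach_closed_point hK.convex hK.closed hx
  set n : E2 := (InnerProductSpace.toDual ℝ E2).symm f with hn
  have hfn : ∀ y, f y = ⟪y, n⟫ := by
    intro y
    rw [hn, real_inner_comm, InnerProductSpace.toDual_symm_apply]
  have h1 : supp K n < ⟪x, n⟫ := by
    obtain ⟨y, hy, hy'⟩ := exists_eq_supp hK.compact hK.ne n
    rw [← hy', ← hfn, ← hfn]
    exact (hfK y hy).trans hfx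
  obtain ⟨φ, hφ⟩ := exists_polar n
  have hn0 : 0 < ‖n‖ := by
    rw [norm_pos_iff]
    intro h0
    rw [h0, inner_zero_right] at h1
    obtain ⟨y, hy⟩ := hK.ne
    have := le_supp hK.compact hy 0
    rw [inner_zero_right] at this
    linarith
  refine ⟨φ, ?_⟩
  rw [hφ, supp_smul hK.compact hK.ne hn0.le, real_inner_smul_right] at h1
  exact lt_of_mul_lt_mul_left h1 hn0.le

lemma exists_dir_pos_Ico {K : Set E2} (hK : Body K) {x : E2} (hx : x ∉ K) :
    ∃ θ ∈ Ico 0 (2 * π), supp K (dir θ) < ⟪x, dir θ⟫ := by
  obtain ⟨θ, hθ⟩ := exists_dir_pos hK hx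
  have hper : Function.Periodic dir (2 * π) := dir_add_two_pi
  obtain ⟨θ', hθ', he⟩ := hper.exists_mem_Ico₀ (by positivity) θ
  exact ⟨θ', hθ', by rw [← he]; exact hθ⟩

lemma cper_lt_F {K : Set E2} (hK : Body K) {x : E2} (hx : x ∉ K) : cper K < F K x := by
  obtain ⟨θ0, h0, hθ0⟩ := exists_dir_pos_Ico hK hx
  unfold F cper
  refine intervalIntegral.integral_lt_integral_of_continuousOn_of_le_of_exists_lt (by positivity)
    (continuous_supp_dir hK.compact hK.ne).continuousOn (continuous_integrand hK x).continuousOn
    (fun θ _ => le_max_right _ _) ⟨θ0, ⟨h0.1, h0.2.le⟩, ?_⟩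
  exact lt_max_of_lt_left hθ0

lemma F_coercive {K : Set E2} (hK : Body K) {o : E2} (ho : o ∈ K) (x : E2) :
    2 * ‖x - o‖ ≤ F K x := by
  rw [F_eq_cper hK, ← cper_segment]
  have h := hK.hull_insert x
  have hs : segment ℝ x o ⊆ convexHull ℝ (insert x K) :=
    h.convex.segment_subset (subset_convexHull ℝ _ (mem_insert _ _))
      (subset_convexHull ℝ _ (mem_insert_of_mem _ ho))
  exact cper_mono (h.compact.of_isClosed_subset (isClosed_segment' x o) hs)
    ⟨x, left_mem_segment _ _ _⟩ h.compact hs

/-- sublevel sets of the hull perimeter. -/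
def sub (K : Set E2) (c : ℝ) : Set E2 := {x | F K x ≤ c}

lemma sub_body {K : Set E2} (hK : Body K) {c : ℝ} (hc : cper K ≤ c) : Body (sub K c) where
  compact := by
    obtain ⟨o, ho⟩ := hK.ne
    have hcl : IsClosed (sub K c) := isClosed_le (F_continuous hK) continuous_const
    refine (isCompact_closedBall o (c / 2)).of_isClosed_subset hcl fun x hx => ?_
    rw [mem_closedBall, dist_eq_norm]
    have h1 := F_coercive hK ho x
    have h2 : F K x ≤ c := hx
    linarith
  convex := by
    have := (F_convex hK).convex_le c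
    simpa [sub] using this
  int := hK.int.mono (interior_mono fun x hx => by
    show F K x ≤ c
    rw [F_of_mem hK hx]; exact hc)

lemma subset_sub {K : Set E2} (hK : Body K) {c : ℝ} (hc : cper K ≤ c) : K ⊆ sub K c := by
  intro x hx
  show F K x ≤ c
  rw [F_of_mem hK hx]; exact hc

lemma mem_of_F_le {K : Set E2} (hK : Body K) {x : E2} (h : F K x ≤ cper K) : x ∈ K := by
  by_contra hx
  exact absurd (cper_lt_F hK hx) (not_lt.2 h)

end Pool.Agent.H78String
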