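import Pool.Agent.H78String.Ellipse

set_option autoImplicit false

open MeasureTheory Set Metric
open scoped Real Pointwise RealInnerProductSpace Topology

namespace Pool.Agent.H78String

/-- A planar convex body with the transitivity property is an ellipse. -/
theorem body_ellipse {K : Set E2} (hK : Body K) (hT : Trans K) :
    ∃ f : E2 ≃ᵃ[ℝ] E2, K = f '' closedBall 0 1 := by
  set c : ℕ → ℝ := fun n => cper K + 1 / ((n : ℝ) + 1) with hc
  have hcK : ∀ n, cper K < c n := by
    intro n
    simp only [hc]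
    have : 0 < 1 / ((n : ℝ) + 1) := by positivity
    linarith
  have hc1 : ∀ n, c n ≤ cper K + 1 := by
    intro n
    simp only [hc]
    have : 1 / ((n : ℝ) + 1) ≤ 1 := by
      rw [div_le_one (by positivity)]
      have : (0:ℝ) ≤ n := Nat.cast_nonneg n
      linarith
    linarith
  have hclim : Filter.Tendsto c Filter.atTop (𝓝 (cper K)) := by
    have := (tendsto_one_div_add_atTop_nhds_zero_nat (𝕜 := ℝ)).const_add (cper K)
    simpa [hc] using this
  choose L m hLm using fun n => sub_ellipse hK hT (hcK n)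
  have hB := sub_body hK (c := cper K + 1) (by linarith)
  obtain ⟨R, hR0, hR⟩ := exists_bound hB.compact
  have hmemR : ∀ n, ∀ z ∈ closedBall (0:E2) 1, ‖m n + L n z‖ ≤ R := by
    intro n z hz
    apply hR
    have h1 : m n + L n z ∈ sub K (c n) := by rw [hLm n]; exact ⟨z, hz, rfl⟩
    have h2 : F K (m n + L n z) ≤ c n := h1
    exact h2.trans (hc1 n)
  have hm : ∀ n, ‖m n‖ ≤ R := by
    intro n
    have := hmemR n 0 (by simp)
    simpa using this
  have hL : ∀ n, ‖L n‖ ≤ 2 * R := by
    intro n
    refine ContinuousLinearMap.opNorm_le_of_unit_norm (by positivity) fun z hz => ?_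
    have h1 := hmemR n z (by rw [mem_closedBall_zero_iff, hz])
    have h2 : ‖L n z‖ ≤ ‖m n + L n z‖ + ‖m n‖ := by
      have := norm_sub_le (m n + L n z) (m n)
      simpa using this
    linarith [hm n]
  have hin : ∀ n, (L n, m n) ∈ closedBall (0 : (E2 →L[ℝ] E2) × E2) (2 * R) := by
    intro n
    rw [mem_closedBall_zero_iff, Prod.norm_mk]
    exact max_le (hL n) (by linarith [hm n])
  obtain ⟨⟨L0, m0⟩, -, φ, hφ, hlim⟩ :=
    (isCompact_closedBall (0 : (E2 →L[ℝ] E2) × E2) (2 * R)).tendsto_subseq hin
  have hlimL : Filter.Tendsto (fun n => L (φ n)) Filter.atTop (𝓝 L0) :=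
    (continuous_fst.tendsto _).comp hlim
  have hlimm : Filter.Tendsto (fun n => m (φ n)) Filter.atTop (𝓝 m0) :=
    (continuous_snd.tendsto _).comp hlim
  have hcφ : Filter.Tendsto (fun n => c (φ n)) Filter.atTop (𝓝 (cper K)) :=
    hclim.comp hφ.tendsto_atTop
  have himage : K = (fun z => m0 + L0 z) '' closedBall 0 1 := by
    have hcl : IsClosed ((fun z => m0 + L0 z) '' closedBall (0:E2) 1) :=
      ((isCompact_closedBall (0:E2) 1).image (by fun_prop)).isClosed
    apply Subset.antisymm
    · intro x hx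
      have hx' : ∀ n, ∃ z ∈ closedBall (0:E2) 1, m (φ n) + L (φ n) z = x := by
        intro n
        have : x ∈ sub K (c (φ n)) := subset_sub hK (hcK _).le hx
        rw [hLm] at this
        exact this
      choose z hz hzx using hx'
      have hlim1 : Filter.Tendsto (fun n => m0 + L0 (z n)) Filter.atTop (𝓝 x) := by
        rw [tendsto_iff_norm_sub_tendsto_zero]
        have hb : Filter.Tendsto (fun n => ‖m (φ n) - m0‖ + ‖L (φ n) - L0‖) Filter.atTop (𝓝 0) := by
          have h1 := tendsto_iff_norm_sub_tendsto_zero.1 hlimm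
          have h2 := tendsto_iff_norm_sub_tendsto_zero.1 hlimL
          simpa using h1.add h2
        refine squeeze_zero (fun n => norm_nonneg _) (fun n => ?_) hb
        have e : m0 + L0 (z n) - x = -((m (φ n) - m0) + (L (φ n) - L0) (z n)) := by
          rw [← hzx n, sub_apply]; abel
        rw [e, norm_neg]
        refine (norm_add_le _ _).trans (add_le_add le_rfl ?_)
        refine ((L (φ n) - L0).le_opNorm (z n)).trans ?_
        have h3 : ‖z n‖ ≤ 1 := by
          have := hz n
          rwa [mem_closedBall_zero_iff] at this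
        have h4 := norm_nonneg (L (φ n) - L0)
        nlinarith
      exact hcl.mem_of_tendsto hlim1 (Filter.Eventually.of_forall fun n => ⟨z n, hz n, rfl⟩)
    · rintro _ ⟨z, hz, rfl⟩
      apply mem_of_F_le hK
      have h1 : Filter.Tendsto (fun n => m (φ n) + L (φ n) z) Filter.atTop (𝓝 (m0 + L0 z)) := by
        refine hlimm.add ?_
        have : Continuous fun T : E2 →L[ℝ] E2 => T z := by fun_prop
        exact (this.tendsto _).comp hlimL
      have h2 : Filter.Tendsto (fun n => F K (m (φ n) + L (φ n) z)) Filter.atTop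
          (𝓝 (F K (m0 + L0 z))) := ((F_continuous hK).tendsto _).comp h1
      refine le_of_tendsto_of_tendsto' h2 hcφ fun n => ?_
      have h3 : m (φ n) + L (φ n) z ∈ sub K (c (φ n)) := by
        rw [hLm]; exact ⟨z, hz, rfl⟩
      exact h3
  -- the linear part is bijective
  have hsurj : Function.Surjective L0 := by
    obtain ⟨x0, hx0⟩ := hK.int
    have hx0K : x0 ∈ K := interior_subset hx0
    rw [himage] at hx0K
    obtain ⟨z0, -, hz0⟩ := hx0K
    intro w
    have hcont : ContinuousAt (fun t : ℝ => x0 + t • w) 0 := by fun_prop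
    have hev : ∀ᶠ t in 𝓝 (0:ℝ), x0 + t • w ∈ K := by
      have : x0 + (0:ℝ) • w ∈ interior K := by simpa using hx0
      exact (hcont.eventually (isOpen_interior.mem_nhds this)).mono fun t ht => interior_subset ht
    obtain ⟨ε, hε, hball⟩ := Metric.eventually_nhds_iff.1 hev
    have h1 : x0 + (ε / 2) • w ∈ K := by
      apply hball
      simp [abs_of_pos hε]
      linarith
    rw [himage] at h1
    obtain ⟨z1, -, hz1⟩ := h1
    refine ⟨(ε / 2)⁻¹ • (z1 - z0), ?_⟩
    have hz0' : m0 + L0 z0 = x0 := hz0
    have hz1' : m0 + L0 z1 = x0 + (ε / 2) • w := hz1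
    have h2 : L0 z1 - L0 z0 = (ε / 2) • w := by
      have : L0 z1 - L0 z0 = (m0 + L0 z1) - (m0 + L0 z0) := by abel
      rw [this, hz0', hz1']; abel
    rw [map_smul, map_sub, h2, smul_smul, inv_mul_cancel₀ (by positivity), one_smul]
  have hinj : Function.Injective L0 :=
    (LinearMap.injective_iff_surjective (f := (L0 : E2 →ₗ[ℝ] E2))).2 hsurj
  let e : E2 ≃ₗ[ℝ] E2 := LinearEquiv.ofBijective (L0 : E2 →ₗ[ℝ] E2) ⟨hinj, hsurj⟩
  refine ⟨e.toAffineEquiv.trans (AffineEquiv.constVAdd ℝ E2 m0), ?_⟩
  rw [himage]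
  rfl

end Pool.Agent.H78String
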