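import Pool.Agent.H78String.Basic

set_option autoImplicit false

open MeasureTheory Set Metric
open scoped Real Pointwise RealInnerProductSpace

namespace Pool.Agent.H78String

/-- A compact convex set with nonempty interior in the plane. -/
structure Body (K : Set E2) : Prop where
  compact : IsCompact K
  convex : Convex ℝ K
  int : (interior K).Nonempty

lemma Body.ne {K : Set E2} (h : Body K) : K.Nonempty := h.int.mono interior_subset

lemma Body.closed {K : Set E2} (h : Body K) : IsClosed K := h.compact.isClosed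

lemma Body.hull_insert {K : Set E2} (h : Body K) (x : E2) :
    Body (convexHull ℝ (insert x K)) where
  compact := isCompact_convexHull_insert h.compact h.convex h.ne x
  convex := convex_convexHull _ _
  int := h.int.mono (interior_mono ((subset_insert _ _).trans (subset_convexHull _ _)))

lemma Body.subset_closure_interior {K : Set E2} (h : Body K) : K ⊆ closure (interior K) := by
  rw [h.convex.closure_interior_eq_closure_of_nonempty_interior h.int]
  exact subset_closure

/-- Supporting normal vector at a frontier point. -/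
lemma Body.exists_normal {K : Set E2} (h : Body K) {x : E2} (hx : x ∉ interior K) :
    ∃ n : E2, n ≠ 0 ∧ (∀ y ∈ interior K, ⟪n, y⟫ < ⟪n, x⟫) ∧ ∀ y ∈ K, ⟪n, y⟫ ≤ ⟪n, x⟫ := by
  obtain ⟨f, hf⟩ := geometric_hahn_banach_open_point h.convex.interior isOpen_interior hx
  refine ⟨(InnerProductSpace.toDual ℝ E2).symm f, ?_, ?_, ?_⟩
  · intro h0
    obtain ⟨o, ho⟩ := h.int
    have := hf o ho
    rw [LinearIsometryEquiv.map_eq_zero_iff] at h0
    simp [h0] at this
  · intro y hy
    simpa [InnerProductSpace.toDual_symm_apply] using hf y hy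
  · intro y hy
    have hcl : IsClosed {y : E2 | f y ≤ f x} := isClosed_le (by fun_prop) (by fun_prop)
    have : y ∈ {y : E2 | f y ≤ f x} :=
      closure_minimal (fun z hz => (hf z hz).le) hcl (h.subset_closure_interior hy)
    simpa [InnerProductSpace.toDual_symm_apply] using this

lemma exists_proj {K : Set E2} (hK : IsCompact K) (hc : Convex ℝ K) (hne : K.Nonempty) (y : E2) :
    ∃ v ∈ K, ∀ w ∈ K, ⟪y - v, w - v⟫ ≤ 0 := by
  obtain ⟨v, hv, h⟩ := exists_norm_eq_iInf_of_complete_convex hne hK.isComplete hc y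
  exact ⟨v, hv, (norm_eq_iInf_iff_real_inner_le_zero hc hv).1 h⟩

lemma proj_dist {y z v w : E2} (h1 : ⟪y - v, w - v⟫ ≤ 0) (h2 : ⟪z - w, v - w⟫ ≤ 0) :
    ‖v - w‖ ≤ ‖y - z‖ := by
  have h3 : ‖v - w‖ ^ 2 ≤ ⟪y - z, v - w⟫ := by
    rw [← real_inner_self_eq_norm_sq]
    have e1 : ⟪y - v, w - v⟫ = - ⟪y - v, v - w⟫ := by rw [← inner_neg_right]; congr 1; abel
    have e2 : ⟪y - z, v - w⟫ - ⟪v - w, v - w⟫ = ⟪y - v, v - w⟫ - ⟪z - w, v - w⟫ := by
      rw [← inner_sub_left, ← inner_sub_left]; congr 1; abel
    linarith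
  have h4 : ⟪y - z, v - w⟫ ≤ ‖y - z‖ * ‖v - w‖ := real_inner_le_norm _ _
  by_contra hlt
  push Not at hlt
  have h5 : 0 < ‖v - w‖ := (norm_nonneg _).trans_lt hlt
  nlinarith

/-- Monotonicity of the perimeter (Hausdorff measure of the frontier). -/
lemma frontier_mono {K L : Set E2} (hK : Body K) (hL : Body L) (hKL : K ⊆ L) :
    μH[1] (frontier K) ≤ μH[1] (frontier L) := by
  choose p hpK hp using exists_proj hK.compact hK.convex hK.ne
  have hlip : LipschitzWith 1 p := by
    refine LipschitzWith.of_dist_le_mul fun y z => ?_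
    rw [NNReal.coe_one, one_mul, dist_eq_norm, dist_eq_norm]
    exact proj_dist (hp y _ (hpK z)) (hp z _ (hpK y))
  have hsub : frontier K ⊆ p '' frontier L := by
    intro x hx
    have hxK : x ∈ K := hK.closed.frontier_subset hx
    obtain ⟨n, hn0, -, hn⟩ := hK.exists_normal hx.2
    -- the set of admissible parameters
    let T : Set ℝ := {t : ℝ | 0 ≤ t ∧ x + t • n ∈ L}
    have hT0 : (0:ℝ) ∈ T := ⟨le_rfl, by simpa using hKL hxK⟩
    obtain ⟨R, hR0, hR⟩ := exists_bound hL.compact
    have hTb : BddAbove T := by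
      refine ⟨(R + ‖x‖) / ‖n‖, fun t ht => ?_⟩
      have hn' : 0 < ‖n‖ := norm_pos_iff.2 hn0
      rw [le_div_iff₀ hn']
      have h1 := hR _ ht.2
      have h2 : ‖t • n‖ ≤ ‖x + t • n‖ + ‖x‖ := by
        have := norm_sub_le (x + t • n) x
        simpa using this
      rw [norm_smul, Real.norm_of_nonneg ht.1] at h2
      linarith
    have hTc : IsClosed T := by
      have h1 : IsClosed {t : ℝ | 0 ≤ t} := isClosed_Ici
      have h2 : IsClosed {t : ℝ | x + t • n ∈ L} := hL.closed.preimage (by fun_prop)
      exact h1.inter h2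
    have hs : sSup T ∈ T := hTc.csSup_mem ⟨0, hT0⟩ hTb
    set s := sSup T with hsdef
    refine ⟨x + s • n, ⟨subset_closure hs.2, ?_⟩, ?_⟩
    · intro hint
      have hcont : ContinuousAt (fun t : ℝ => x + t • n) s := by fun_prop
      have hev : ∀ᶠ t in nhds s, x + t • n ∈ L :=
        (hcont.eventually (isOpen_interior.mem_nhds hint)).mono
          fun t ht => interior_subset ht
      obtain ⟨ε, hε, hball⟩ := Metric.eventually_nhds_iff.1 hev
      have h1 : s + ε / 2 ∈ T := by
        refine ⟨by linarith [hs.1], hball ?_⟩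
        simp [Real.dist_eq, abs_of_pos hε]
        linarith
      have h2 : s + ε / 2 ≤ s := le_csSup hTb h1
      linarith
    · have h1 : ∀ w ∈ K, ⟪(x + s • n) - x, w - x⟫ ≤ 0 := by
        intro w hw
        rw [add_sub_cancel_left, real_inner_smul_left, inner_sub_right]
        have := hn w hw
        exact mul_nonpos_of_nonneg_of_nonpos hs.1 (by linarith)
      have h2 := proj_dist (hp (x + s • n) x hxK) (h1 _ (hpK (x + s • n)))
      rw [sub_self, norm_zero] at h2
      exact sub_eq_zero.1 (norm_le_zero_iff.1 h2)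
  calc μH[1] (frontier K) ≤ μH[1] (p '' frontier L) := measure_mono hsub
    _ ≤ (1:NNReal) ^ (1:ℝ) * μH[1] (frontier L) := hlip.hausdorffMeasure_image_le zero_le_one _
    _ = μH[1] (frontier L) := by simp

end Pool.Agent.H78String
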