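import Pool.Agent.H78String.Conic

set_option autoImplicit false

open MeasureTheory Set Metric
open scoped Real Pointwise RealInnerProductSpace Topology

namespace Pool.Agent.H78String

lemma cos_eq_of_dir_eq {t t' : ℝ} (h : dir t = dir t') (h1 : |t - t'| < 2 * π) : t = t' := by
  have h2 : Real.cos (t - t') = 1 := by
    rw [← inner_dir_dir, h, real_inner_self_eq_norm_sq, norm_dir]; norm_num
  rw [abs_lt] at h1
  have := (Real.cos_eq_one_iff_of_lt_of_lt h1.1 h1.2).1 h2
  linarith

/-- A continuous parametrisation of the level curve. -/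
lemma exists_param {K : Set E2} (hK : Body K) {C : ℝ} (hC : cper K < C) {o : E2}
    (ho : o ∈ interior K) :
    ∃ γ : ℝ → E2, Continuous γ ∧ (∀ t, F K (γ t) = C) ∧ (∀ x, F K x = C → ∃ t, γ t = x) ∧
      (∀ t t', γ t = γ t' → |t - t'| < 2 * π → t = t') := by
  set s : Set E2 := {v | F K (o + v) ≤ C} with hs
  have hoK : o ∈ K := interior_subset ho
  have hFo : F K o = cper K := F_of_mem hK hoK
  have hcontF : Continuous fun v => F K (o + v) := (F_continuous hK).comp (by fun_prop)
  have hconv : Convex ℝ s := by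
    have h1 := (F_convex hK).convex_le C
    intro x hx y hy a b ha hb hab
    have hx' : o + x ∈ {x | x ∈ univ ∧ F K x ≤ C} := ⟨mem_univ _, hx⟩
    have hy' : o + y ∈ {x | x ∈ univ ∧ F K x ≤ C} := ⟨mem_univ _, hy⟩
    have h2 := h1 hx' hy' ha hb hab
    have e : a • (o + x) + b • (o + y) = o + (a • x + b • y) := by
      have : o = (a + b) • o := by rw [hab, one_smul]
      conv_rhs => rw [this]
      module
    rw [e] at h2
    exact h2.2
  have hnhds : s ∈ 𝓝 (0:E2) := by
    have h1 : F K (o + 0) < C := by rw [add_zero, hFo]; exact hC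
    exact (hcontF.continuousAt.eventually (gt_mem_nhds h1)).mono fun v hv => hv.le
  have hbdd : Bornology.IsBounded s := by
    rw [isBounded_iff_forall_norm_le]
    refine ⟨C / 2, fun v hv => ?_⟩
    have h1 := F_coercive hK hoK (o + v)
    rw [add_sub_cancel_left] at h1
    have h2 : F K (o + v) ≤ C := hv
    linarith
  have habs : Absorbent ℝ s := absorbent_nhds_zero hnhds
  set g := gauge s with hg
  have hgc : Continuous g := continuous_gauge hconv hnhds
  have hgpos : ∀ v, v ≠ 0 → 0 < g v := fun v hv =>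
    (gauge_pos habs (NormedSpace.isVonNBounded_iff ℝ |>.2 hbdd)).2 hv
  have hg1 : ∀ v, g v = 1 → F K (o + v) = C := by
    intro v hv
    have h1 : v ∈ frontier s := (gauge_eq_one_iff_mem_frontier hconv hnhds).1 hv
    exact frontier_le_subset_eq hcontF continuous_const h1
  have hg2 : ∀ v, F K (o + v) = C → g v = 1 := by
    intro v hv
    have hvs : v ∈ s := hv.le
    apply le_antisymm (gauge_le_one_of_mem hvs)
    by_contra hcon
    push Not at hcon
    obtain ⟨r, hr0, hr1, hr⟩ := exists_lt_of_gauge_lt habs hcon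
    obtain ⟨w, hw, hwv⟩ := hr
    have hwv' : r • w = v := hwv
    have hcx := (F_convex hK).2
    have h1 := hcx (mem_univ o) (mem_univ (o + w)) (a := 1 - r) (b := r) (by linarith)
      hr0.le (by ring)
    have e : (1 - r) • o + r • (o + w) = o + v := by rw [← hwv']; module
    rw [e, hv, hFo, smul_eq_mul, smul_eq_mul] at h1
    have h2 : F K (o + w) ≤ C := hw
    nlinarith
  have hdir0 : ∀ t, dir t ≠ 0 := by
    intro t h
    have := norm_dir t
    rw [h, norm_zero] at this
    exact zero_ne_one this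
  refine ⟨fun t => o + (g (dir t))⁻¹ • dir t, ?_, ?_, ?_, ?_⟩
  · have h1 : Continuous fun t => (g (dir t))⁻¹ :=
      (hgc.comp continuous_dir).inv₀ fun t => (hgpos _ (hdir0 t)).ne'
    have h2 := continuous_dir
    fun_prop
  · intro t
    apply hg1
    have h1 := hgpos _ (hdir0 t)
    rw [hg, gauge_smul_of_nonneg (inv_nonneg.2 h1.le), smul_eq_mul]
    exact inv_mul_cancel₀ h1.ne'
  · intro x hx
    set v := x - o with hv
    have hx' : o + v = x := by rw [hv]; abel
    have hgv : g v = 1 := hg2 v (by rw [hx']; exact hx)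
    obtain ⟨t, ht⟩ := exists_polar v
    refine ⟨t, ?_⟩
    rw [ht, hg, gauge_smul_of_nonneg (norm_nonneg v), smul_eq_mul] at hgv
    have h2 : (g (dir t))⁻¹ = ‖v‖ := by
      have p1 := hgpos _ (hdir0 t)
      field_simp
      linarith
    simp only
    rw [h2, ← ht, hx']
  · intro t t' h hlt
    have h1 : (g (dir t))⁻¹ • dir t = (g (dir t'))⁻¹ • dir t' := add_left_cancel h
    have p1 := hgpos _ (hdir0 t)
    have p2 := hgpos _ (hdir0 t')
    have h2 := congrArg norm h1
    rw [norm_smul, norm_smul, norm_dir, norm_dir, mul_one, mul_one,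
      Real.norm_of_nonneg (inv_nonneg.2 p1.le), Real.norm_of_nonneg (inv_nonneg.2 p2.le)] at h2
    rw [h2] at h1
    have h3 : dir t = dir t' := by
      have := congrArg (fun v => g (dir t') • v) h1
      simp only [smul_smul, mul_inv_cancel₀ p2.ne', one_smul] at this
      exact this
    exact cos_eq_of_dir_eq h3 hlt

/-- Every level curve lies on a single conic, and the normalised gradient is its half gradient. -/
lemma exists_global_quad {K : Set E2} (hK : Body K) (hT : Trans K) {C : ℝ} (hC : cper K < C) :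
    ∃ q : Quad, ∀ x, F K x = C → q.Fits (N K x) x := by
  obtain ⟨o, ho⟩ := hK.int
  obtain ⟨γ, hγc, hγC, hγs, hγi⟩ := exists_param hK hC ho
  have hπ := Real.pi_pos
  -- local smallness
  have hloc : ∀ θ, ∃ r > 0, r < π ∧ ∀ t t', |t - θ| < r → |t' - θ| < r →
      ∀ z ∈ segment ℝ (γ t) (γ t'), z ∉ K := by
    intro θ
    have h1 : γ θ ∉ K := not_mem_of_lt hK (by rw [hγC]; exact hC)
    have h2 : Kᶜ ∈ 𝓝 (γ θ) := hK.closed.isOpen_compl.mem_nhds h1
    obtain ⟨ε, hε, hball⟩ := Metric.mem_nhds_iff.1 h2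
    have h3 : ∀ᶠ t in 𝓝 θ, γ t ∈ ball (γ θ) ε :=
      hγc.continuousAt.eventually (ball_mem_nhds _ hε)
    obtain ⟨r, hr, hr'⟩ := Metric.eventually_nhds_iff.1 h3
    refine ⟨min r (π / 2), by positivity, (min_le_right _ _).trans_lt (by linarith), ?_⟩
    intro t t' ht ht' z hz
    have a1 := hr' (y := t) (by rw [Real.dist_eq]; exact ht.trans_le (min_le_left _ _))
    have a2 := hr' (y := t') (by rw [Real.dist_eq]; exact ht'.trans_le (min_le_left _ _))
    exact hball ((convex_ball _ _).segment_subset a1 a2 hz)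
  -- noncollinear triples
  have htri : ∀ θ r : ℝ, 0 < r → r < π → (∀ t t', |t - θ| < r → |t' - θ| < r →
      ∀ z ∈ segment ℝ (γ t) (γ t'), z ∉ K) →
      det2 (γ (θ + r/2) - γ θ) (γ (θ - r/2) - γ θ) ≠ 0 := by
    intro θ r hr hrπ h
    have b0 : |θ - θ| < r := by simpa using hr
    have b1 : |θ + r/2 - θ| < r := by rw [add_sub_cancel_left, abs_of_pos (by linarith)]; linarith
    have b2 : |θ - r/2 - θ| < r := by
      rw [sub_sub_cancel_left, abs_neg, abs_of_pos (by linarith)]; linarith
    refine noncollinear hK (hγC _) (hγC _) (hγC _) ?_ ?_ ?_ (h _ _ b0 b1) (h _ _ b0 b2) (h _ _ b1 b2)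
    · intro he
      have := hγi _ _ he (by rw [abs_sub_comm]; linarith)
      linarith
    · intro he
      have := hγi _ _ he (by rw [abs_sub_comm]; linarith)
      linarith
    · intro he
      have := hγi _ _ he (by
        have e : θ + r/2 - (θ - r/2) = r := by ring
        rw [e, abs_of_pos hr]; linarith)
      linarith
  let P : ℝ → Quad → Prop := fun θ q => ∀ᶠ t in 𝓝 θ, q.Fits (N K (γ t)) (γ t)
  have hex : ∀ θ, ∃ q, P θ q := by
    intro θ
    obtain ⟨r, hr, hrπ, h⟩ := hloc θ
    have hD := htri θ r hr hrπ h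
    set S : Set E2 := γ '' {t | |t - θ| < r} with hS
    obtain ⟨q, hq⟩ := exists_quad (S := S) (N K) (x1 := γ θ) (x2 := γ (θ + r/2))
      (x3 := γ (θ - r/2)) ⟨θ, by simpa using hr, rfl⟩
      ⟨θ + r/2, by
        show |θ + r/2 - θ| < r
        rw [add_sub_cancel_left, abs_of_pos (by linarith)]; linarith, rfl⟩
      ⟨θ - r/2, by
        show |θ - r/2 - θ| < r
        rw [sub_sub_cancel_left, abs_neg, abs_of_pos (by linarith)]; linarith, rfl⟩ hD (by
        rintro _ ⟨t, ht, rfl⟩ _ ⟨t', ht', rfl⟩
        by_cases he : γ t = γ t'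
        · rw [he, sub_self, inner_zero_right]
        · exact chord_relation hK hT (hγC t) (hγC t') he (h t t' ht ht'))
    refine ⟨q, ?_⟩
    have : {t | |t - θ| < r} ∈ 𝓝 θ := by
      have := Metric.ball_mem_nhds θ hr
      exact Filter.mem_of_superset this fun t ht => by
        rw [mem_ball, Real.dist_eq] at ht; exact ht
    filter_upwards [this] with t ht
    exact hq _ ⟨t, ht, rfl⟩
  have huniq : ∀ θ q q', P θ q → P θ q' → q = q' := by
    intro θ q q' h1 h2
    obtain ⟨r, hr, hrπ, h⟩ := hloc θ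
    obtain ⟨r', hr', hr''⟩ := Metric.eventually_nhds_iff.1 (h1.and h2)
    set ρ := min r r' with hρ
    have hρ0 : 0 < ρ := lt_min hr hr'
    have hρr : ρ ≤ r := min_le_left _ _
    have hρr' : ρ ≤ r' := min_le_right _ _
    have hD := htri θ ρ hρ0 (by linarith) (fun t t' ht ht' => h t t' (by linarith) (by linarith))
    have a0 := hr'' (y := θ) (by simpa using hr')
    have a1 := hr'' (y := θ + ρ/2) (by
      rw [Real.dist_eq, add_sub_cancel_left, abs_of_pos (by linarith)]; linarith)
    have a2 := hr'' (y := θ - ρ/2) (by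
      rw [Real.dist_eq, sub_sub_cancel_left, abs_neg, abs_of_pos (by linarith)]; linarith)
    exact quad_unique (n := N K) hD a0.1 a1.1 a2.1 a0.2 a1.2 a2.2
  obtain ⟨q0, hq0⟩ := hex 0
  have hopen : IsOpen {θ | P θ q0} := by
    rw [isOpen_iff_mem_nhds]
    intro θ hθ
    exact (eventually_eventually_nhds.2 hθ)
  have hclosed : IsClosed {θ | P θ q0} := by
    rw [← isOpen_compl_iff, isOpen_iff_mem_nhds]
    intro θ hθ
    obtain ⟨q, hq⟩ := hex θ
    have hne : q ≠ q0 := by
      rintro rfl; exact hθ hq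
    have : ∀ᶠ t in 𝓝 θ, P t q := eventually_eventually_nhds.2 hq
    filter_upwards [this] with t ht h0
    exact hne (huniq t q q0 ht h0)
  have huniv : {θ | P θ q0} = univ := by
    rcases isClopen_iff.1 ⟨hclosed, hopen⟩ with h | h
    · have : (0:ℝ) ∈ {θ | P θ q0} := hq0
      rw [h] at this
      exact absurd this (notMem_empty _)
    · exact h
  refine ⟨q0, fun x hx => ?_⟩
  obtain ⟨t, rfl⟩ := hγs x hx
  have : t ∈ {θ | P θ q0} := by rw [huniv]; exact mem_univ _
  have h9 : ∀ᶠ t' in 𝓝 t, q0.Fits (N K (γ t')) (γ t') := this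
  exact h9.self_of_nhds

end Pool.Agent.H78String
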