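import Pool.Agent.H78String.Glue

set_option autoImplicit false

open MeasureTheory Set Metric
open scoped Real Pointwise RealInnerProductSpace

namespace Pool.Agent.H78String

lemma hull_ge {S : Set E2} {n : E2} {r : ℝ} (h : ∀ s ∈ S, r ≤ ⟪s, n⟫) {z : E2}
    (hz : z ∈ convexHull ℝ S) : r ≤ ⟪z, n⟫ := by
  have hconv : Convex ℝ {y : E2 | r ≤ ⟪y, n⟫} :=
    convex_halfSpace_ge (𝕜 := ℝ) (f := fun y : E2 => ⟪y, n⟫)
      ⟨fun x y => inner_add_left _ _ _, fun c x => by rw [real_inner_smul_left]; rfl⟩ r
  exact convexHull_min (fun y hy => h y hy) hconv hz

lemma hull_le {S : Set E2} {n : E2} {r : ℝ} (h : ∀ s ∈ S, ⟪s, n⟫ ≤ r) {z : E2}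
    (hz : z ∈ convexHull ℝ S) : ⟪z, n⟫ ≤ r := by
  have := hull_ge (n := -n) (r := -r) (S := S)
    (fun s hs => by rw [inner_neg_right]; linarith [h s hs]) hz
  rw [inner_neg_right] at this
  linarith

/-- The planar determinant. -/
def det2 (u v : E2) : ℝ := u 0 * v 1 - u 1 * v 0

lemma affineIndependent_of_det {a b c : E2} (h : det2 (b - a) (c - a) ≠ 0) :
    AffineIndependent ℝ ![a, b, c] := by
  rw [affineIndependent_iff_not_collinear_set]
  intro hcol
  rw [collinear_iff_of_mem (p₀ := a) (by simp)] at hcol
  obtain ⟨v, hv⟩ := hcol
  obtain ⟨r, hr⟩ := hv b (by simp)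
  obtain ⟨s, hs⟩ := hv c (by simp)
  apply h
  simp only [vadd_eq_add] at hr hs
  rw [hr, hs, add_sub_cancel_right, add_sub_cancel_right]
  simp [det2]
  ring

lemma not_nonempty_interior_of_line {S : Set E2} {n : E2} (hn : n ≠ 0) {r : ℝ}
    (h : ∀ s ∈ S, ⟪s, n⟫ = r) : ¬ (interior (convexHull ℝ S)).Nonempty := by
  rintro ⟨z, hz⟩
  have hzS := interior_subset hz
  have h1 : ⟪z, n⟫ = r :=
    le_antisymm (hull_le (fun s hs => (h s hs).le) hzS) (hull_ge (fun s hs => (h s hs).ge) hzS)
  have hcont : ContinuousAt (fun t : ℝ => z + t • n) 0 := by fun_prop
  have hev : ∀ᶠ t in nhds (0:ℝ), z + t • n ∈ convexHull ℝ S := by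
    have : z + (0:ℝ) • n ∈ interior (convexHull ℝ S) := by simpa using hz
    exact (hcont.eventually (isOpen_interior.mem_nhds this)).mono fun t ht => interior_subset ht
  obtain ⟨ε, hε, hball⟩ := Metric.eventually_nhds_iff.1 hev
  have h2 : z + (ε / 2) • n ∈ convexHull ℝ S := by
    apply hball
    simp [abs_of_pos hε]
    linarith
  have h3 : ⟪z + (ε / 2) • n, n⟫ ≤ r := hull_le (fun s hs => (h s hs).le) h2
  rw [inner_add_left, real_inner_smul_left, h1, real_inner_self_eq_norm_sq] at h3
  have h4 : 0 < ε / 2 * ‖n‖ ^ 2 := by
    have := norm_pos_iff.2 hn
    positivity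
  linarith

lemma body_hull_finset {S : Finset E2} (h : (interior (convexHull ℝ (S : Set E2))).Nonempty) :
    Body (convexHull ℝ (S : Set E2)) :=
  ⟨S.finite_toSet.isCompact_convexHull _, convex_convexHull _ _, h⟩

/-- rotation by a quarter turn -/
def rot (v : E2) : E2 := !₂[-v 1, v 0]

lemma rot_zero (v : E2) : rot v 0 = - v 1 := by simp [rot]
lemma rot_one (v : E2) : rot v 1 = v 0 := by simp [rot]

lemma inner_rot (u v : E2) : ⟪u, rot v⟫ = det2 v u := by
  rw [inner_eq, rot_zero, rot_one, det2]; ring

lemma expand {p q v : E2} (hD : det2 p q ≠ 0) :
    v = (det2 v q / det2 p q) • p + (det2 p v / det2 p q) • q := by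
  apply ext2
  · simp only [PiLp.add_apply, PiLp.smul_apply, smul_eq_mul]
    field_simp
    simp only [det2]; ring
  · simp only [PiLp.add_apply, PiLp.smul_apply, smul_eq_mul]
    field_simp
    simp only [det2]; ring

/-- The Cauchy formula for convex polygons. -/
theorem cauchy_polygon (S : Finset E2) :
    (interior (convexHull ℝ (S : Set E2))).Nonempty →
    μH[1] (frontier (convexHull ℝ (S : Set E2))) =
      ENNReal.ofReal (cper (convexHull ℝ (S : Set E2))) := by
  classical
  induction S using Finset.strongInduction with
  | H S ih =>
  intro hint
  by_cases hpos : ∃ x ∈ S, x ∈ convexHull ℝ ((S.erase x : Finset E2) : Set E2)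
  · obtain ⟨x, hxS, hx⟩ := hpos
    have heq : convexHull ℝ (S : Set E2) = convexHull ℝ ((S.erase x : Finset E2) : Set E2) := by
      apply Subset.antisymm
      · refine convexHull_min ?_ (convex_convexHull _ _)
        intro y hy
        by_cases hyx : y = x
        · rw [hyx]; exact hx
        · exact subset_convexHull ℝ _ (Finset.mem_coe.2 (Finset.mem_erase.2 ⟨hyx, hy⟩))
      · exact convexHull_mono (by simp)
    rw [heq]
    rw [heq] at hint
    exact ih _ (Finset.erase_ssubset hxS) hint
  · push Not at hpos
    have hSne : S.Nonempty := by
      rcases S.eq_empty_or_nonempty with h | h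
      · exfalso; subst h; simp at hint
      · exact h
    obtain ⟨x, hxS⟩ := hSne
    set S' := S.erase x with hS'
    have hSins : (S : Set E2) = insert x (S' : Set E2) := by
      rw [hS', Finset.coe_erase, insert_sdiff_singleton, insert_eq_of_mem (Finset.mem_coe.2 hxS)]
    have hS'ne : S'.Nonempty := by
      rcases S'.eq_empty_or_nonempty with h | h
      · exfalso
        rw [hSins, h] at hint
        simp at hint
      · exact h
    have hxK : x ∉ convexHull ℝ (S' : Set E2) := hpos x hxS
    have hK'c : IsCompact (convexHull ℝ (S' : Set E2)) := S'.finite_toSet.isCompact_convexHull _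
    obtain ⟨f, u, hfx, hfK⟩ := geometric_hahn_banach_point_closed
      (convex_convexHull ℝ (S' : Set E2)) hK'c.isClosed hxK
    set w0 : E2 := (InnerProductSpace.toDual ℝ E2).symm f with hw0
    have hfw : ∀ y, f y = ⟪y, w0⟫ := by
      intro y
      rw [hw0, real_inner_comm, InnerProductSpace.toDual_symm_apply]
    have hpos0 : ∀ s ∈ S', 0 < ⟪s - x, w0⟫ := by
      intro s hs
      have h1 := hfK s (subset_convexHull ℝ _ (Finset.mem_coe.2 hs))
      rw [hfw] at h1 hfx
      rw [inner_sub_left]
      linarith
    have hw00 : w0 ≠ 0 := by
      rintro h0
      obtain ⟨s, hs⟩ := hS'ne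
      have := hpos0 s hs
      rw [h0, inner_zero_right] at this
      exact lt_irrefl _ this
    set sl : E2 → ℝ := fun s => det2 w0 (s - x) / ⟪s - x, w0⟫ with hsl
    obtain ⟨a, haS', ha⟩ := S'.exists_min_image sl hS'ne
    obtain ⟨b, hbS', hb⟩ := S'.exists_max_image sl hS'ne
    have hnorm : 0 < ‖w0‖ ^ 2 := by
      have := norm_pos_iff.2 hw00
      positivity
    -- comparison of slopes gives sign of determinants
    have hdet : ∀ s t : E2, ⟪s - x, w0⟫ * det2 w0 (t - x) - ⟪t - x, w0⟫ * det2 w0 (s - x) =
        ‖w0‖ ^ 2 * det2 (s - x) (t - x) := by
      intro s t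
      rw [norm_sq_eq, inner_eq, inner_eq]
      simp only [det2]
      ring
    have hdet_le : ∀ s ∈ S', ∀ t ∈ S', sl s ≤ sl t → 0 ≤ det2 (s - x) (t - x) := by
      intro s hs t ht h
      simp only [hsl] at h
      rw [div_le_div_iff₀ (hpos0 s hs) (hpos0 t ht)] at h
      have h2 := hdet s t
      have h3 : 0 ≤ ‖w0‖ ^ 2 * det2 (s - x) (t - x) := by rw [← h2]; linarith
      exact (mul_nonneg_iff_of_pos_left hnorm).1 h3
    have hslab : sl a < sl b := by
      by_contra hcon
      push Not at hcon
      have hall : ∀ s ∈ S', sl s = sl a := fun s hs =>
        le_antisymm ((hb s hs).trans hcon) (ha s hs)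
      have hline : ∀ s ∈ (S : Set E2), ⟪s, rot w0 - sl a • w0⟫ = ⟪x, rot w0 - sl a • w0⟫ := by
        intro s hs
        rw [hSins] at hs
        rcases hs with rfl | hs
        · rfl
        · have h1 := hall s hs
          have h2 := hpos0 s hs
          simp only [hsl] at h1
          rw [div_eq_iff h2.ne'] at h1
          have h3 : ⟪s - x, rot w0 - sl a • w0⟫ = 0 := by
            rw [inner_sub_right, real_inner_smul_right, inner_rot, h1]
            simp only [hsl]
            ring
          rw [inner_sub_left] at h3
          linarith
      have hn0 : rot w0 - sl a • w0 ≠ 0 := by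
        intro h0
        have h1 : ⟪rot w0, rot w0 - sl a • w0⟫ = 0 := by rw [h0, inner_zero_right]
        rw [inner_sub_right, real_inner_smul_right, inner_rot, real_inner_comm, inner_rot] at h1
        simp only [det2, rot_zero, rot_one] at h1
        rw [norm_sq_eq] at hnorm
        nlinarith
      exact not_nonempty_interior_of_line hn0 hline hint
    set p := a - x with hp
    set q := b - x with hq
    have hD : 0 < det2 p q := by
      have h := hslab
      simp only [hsl] at h
      rw [div_lt_div_iff₀ (hpos0 a haS') (hpos0 b hbS')] at h
      have h2 := hdet a b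
      have h3 : 0 < ‖w0‖ ^ 2 * det2 (a - x) (b - x) := by rw [← h2]; linarith
      exact (pos_iff_pos_of_mul_pos h3).1 hnorm
    set D := det2 p q with hDdef
    -- coordinates
    set al : E2 → ℝ := fun z => det2 (z - x) q / D with hal
    set be : E2 → ℝ := fun z => det2 p (z - x) / D with hbe
    have hexp : ∀ z, z = x + al z • p + be z • q := by
      intro z
      have := expand (p := p) (q := q) (v := z - x) hD.ne'
      simp only [hal, hbe, hDdef]
      rw [add_assoc, ← this]
      abel
    set w : E2 := rot (a - b) with hw
    have hinner : ∀ z, ⟪z, w⟫ = ⟪x, w⟫ + (al z + be z) * D := by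
      intro z
      have h1 : ⟪z - x, w⟫ = (al z + be z) * D := by
        simp only [hal, hbe]
        rw [← add_div, div_mul_cancel₀ _ hD.ne', hw, inner_rot]
        simp only [det2, hp, hq, PiLp.sub_apply]
        ring
      rw [inner_sub_left] at h1
      linarith
    have hala : al a = 1 := by
      simp only [hal]; rw [← hp, ← hDdef, div_self hD.ne']
    have hbea : be a = 0 := by
      simp only [hbe]; rw [← hp]; simp [det2]; left; ring
    have halb : al b = 0 := by
      simp only [hal]; rw [← hq]; simp [det2]; left; ring
    have hbeb : be b = 1 := by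
      simp only [hbe]; rw [← hq, ← hDdef, div_self hD.ne']
    have halx : al x = 0 := by simp [hal, det2]
    have hbex : be x = 0 := by simp [hbe, det2]
    have hS'al : ∀ s ∈ S', 0 ≤ al s := fun s hs =>
      div_nonneg (hdet_le s hs b hbS' (hb s hs)) hD.le
    have hS'be : ∀ s ∈ S', 0 ≤ be s := fun s hs =>
      div_nonneg (hdet_le a haS' s hs (ha s hs)) hD.le
    have hab : a ≠ b := by
      rintro h
      rw [h, halb] at hala
      exact zero_ne_one hala
    have hxa : x ≠ a := by rintro h; rw [← h, halx] at hala; exact zero_ne_one hala
    have hxb : x ≠ b := by rintro h; rw [← h, hbex] at hbeb; exact zero_ne_one hbeb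
    have haS : a ∈ S := Finset.mem_of_mem_erase haS'
    have hbS : b ∈ S := Finset.mem_of_mem_erase hbS'
    have hmemT : ∀ z, 0 ≤ al z → 0 ≤ be z → al z + be z ≤ 1 →
        z ∈ convexHull ℝ ({x, a, b} : Set E2) := by
      intro z h1 h2 h3
      rw [convexHull_insert (insert_nonempty _ _), convexHull_pair, convexJoin_singleton_left]
      simp only [mem_iUnion]
      by_cases h4 : al z + be z = 0
      · have h5 : al z = 0 := by linarith
        have h6 : be z = 0 := by linarith
        refine ⟨a, left_mem_segment _ _ _, ?_⟩
        have := hexp z
        rw [h5, h6] at this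
        simp only [zero_smul, add_zero] at this
        rw [this]; exact left_mem_segment _ _ _
      · have h4' : 0 < al z + be z := lt_of_le_of_ne (by linarith) (Ne.symm h4)
        refine ⟨(al z / (al z + be z)) • a + (be z / (al z + be z)) • b,
          ⟨_, _, div_nonneg h1 h4'.le, div_nonneg h2 h4'.le, by field_simp, rfl⟩,
          ⟨1 - (al z + be z), al z + be z, by linarith, h4'.le, by ring, ?_⟩⟩
        conv_rhs => rw [hexp z]
        rw [smul_add, smul_smul, smul_smul, mul_div_cancel₀ _ h4, mul_div_cancel₀ _ h4, hp, hq]
        module
    have hextra : ∀ s ∈ S', s ≠ a → s ≠ b → 1 < al s + be s := by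
      intro s hs hsa hsb
      by_contra hcon
      push Not at hcon
      have h1 := hmemT s (hS'al s hs) (hS'be s hs) hcon
      have hsx : s ≠ x := (Finset.mem_erase.1 hs).1
      refine hpos s (Finset.mem_of_mem_erase hs) (convexHull_mono ?_ h1)
      intro y hy
      simp only [mem_insert_iff, mem_singleton_iff] at hy
      rw [Finset.mem_coe, Finset.mem_erase]
      rcases hy with rfl | rfl | rfl
      · exact ⟨hsx.symm, hxS⟩
      · exact ⟨hsa.symm, haS⟩
      · exact ⟨hsb.symm, hbS⟩
    have hS'ge : ∀ s ∈ S', 1 ≤ al s + be s := by
      intro s hs
      by_cases h1 : s = a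
      · rw [h1, hala, hbea]; norm_num
      · by_cases h2 : s = b
        · rw [h2, halb, hbeb]; norm_num
        · exact (hextra s hs h1 h2).le
    have htri : AffineIndependent ℝ ![x, a, b] := affineIndependent_of_det hD.ne'
    have cT := cauchy_triangle htri
    by_cases hmore : ∃ s ∈ S', s ≠ a ∧ s ≠ b
    · obtain ⟨s, hsS', hsa, hsb⟩ := hmore
      have hK'int : (interior (convexHull ℝ (S' : Set E2))).Nonempty := by
        rw [interior_convexHull_nonempty_iff_affineSpan_eq_top]
        have hind : AffineIndependent ℝ ![a, b, s] := by
          apply affineIndependent_of_det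
          have h1 := hextra s hsS' hsa hsb
          have h2 : det2 (b - a) (s - a) = -((al s + be s - 1) * D) := by
            have e := hexp s
            conv_lhs => rw [e]
            have e1 : x + al s • p + be s • q - a = (al s - 1) • p + be s • q := by
              rw [hp]; module
            have e2 : b - a = q - p := by rw [hp, hq]; abel
            rw [e1, e2, hDdef]
            simp only [det2, PiLp.add_apply, PiLp.smul_apply, PiLp.sub_apply, smul_eq_mul]
            ring
          rw [h2]
          exact (neg_neg_of_pos (mul_pos (by linarith) hD)).ne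
        have htop : affineSpan ℝ (range ![a, b, s]) = ⊤ := by
          rw [hind.affineSpan_eq_top_iff_card_eq_finrank_add_one]
          simp
        rw [eq_top_iff, ← htop]
        apply affineSpan_mono
        rintro _ ⟨i, rfl⟩
        fin_cases i
        · exact haS'
        · exact hbS'
        · exact hsS'
      have cK := ih S' (Finset.erase_ssubset hxS) hK'int
      have hTint : (interior (convexHull ℝ ({x, a, b} : Set E2))).Nonempty := by
        rw [interior_convexHull_nonempty_iff_affineSpan_eq_top]
        have htop : affineSpan ℝ (range ![x, a, b]) = ⊤ := by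
          rw [htri.affineSpan_eq_top_iff_card_eq_finrank_add_one]
          simp
        rw [← htop]
        congr 1
        ext z
        simp only [mem_range, mem_insert_iff, mem_singleton_iff, Fin.exists_fin_succ]
        simp [eq_comm]
      have hT : Body (convexHull ℝ ({x, a, b} : Set E2)) :=
        ⟨(by simp : ({x, a, b} : Set E2).Finite).isCompact_convexHull _, convex_convexHull _ _,
          hTint⟩
      have hK : Body (convexHull ℝ (S' : Set E2)) := body_hull_finset hK'int
      have hL : Body (convexHull ℝ (S : Set E2)) := body_hull_finset hint
      have hw0' : w ≠ 0 := by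
        intro h0
        have h1 := hinner a
        rw [h0, inner_zero_right, inner_zero_right, hala, hbea] at h1
        linarith
      -- positivity of coordinates on the hulls
      have hKal : ∀ z ∈ convexHull ℝ (S' : Set E2), 0 ≤ al z ∧ 0 ≤ be z ∧ 1 ≤ al z + be z := by
        intro z hz
        have e1 : ∀ y, al y = (⟪y, -rot q⟫ - ⟪x, -rot q⟫) / D := by
          intro y
          simp only [hal]
          rw [inner_neg_right, inner_neg_right, inner_rot, inner_rot]
          congr 1
          simp only [det2, PiLp.sub_apply]; ring
        have e2 : ∀ y, be y = (⟪y, rot p⟫ - ⟪x, rot p⟫) / D := by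
          intro y
          simp only [hbe]
          rw [inner_rot, inner_rot]
          congr 1
          simp only [det2, PiLp.sub_apply]; ring
        refine ⟨?_, ?_, ?_⟩
        · rw [e1]
          refine div_nonneg (sub_nonneg.2 (hull_ge (fun s hs => ?_) hz)) hD.le
          have := hS'al s hs
          rw [e1] at this
          have := mul_nonneg this hD.le
          rw [div_mul_cancel₀ _ hD.ne'] at this
          linarith
        · rw [e2]
          refine div_nonneg (sub_nonneg.2 (hull_ge (fun s hs => ?_) hz)) hD.le
          have := hS'be s hs
          rw [e2] at this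
          have := mul_nonneg this hD.le
          rw [div_mul_cancel₀ _ hD.ne'] at this
          linarith
        · have h3 : ⟪x, w⟫ + D ≤ ⟪z, w⟫ := by
            refine hull_ge (fun s hs => ?_) hz
            rw [hinner s]
            have := hS'ge s hs
            nlinarith
          rw [hinner z] at h3
          by_contra hcon
          push Not at hcon
          nlinarith
      have hTal : ∀ z ∈ convexHull ℝ ({x, a, b} : Set E2),
          0 ≤ al z ∧ 0 ≤ be z ∧ al z + be z ≤ 1 := by
        intro z hz
        have e1 : ∀ y, al y = (⟪y, -rot q⟫ - ⟪x, -rot q⟫) / D := by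
          intro y
          simp only [hal]
          rw [inner_neg_right, inner_neg_right, inner_rot, inner_rot]
          congr 1
          simp only [det2, PiLp.sub_apply]; ring
        have e2 : ∀ y, be y = (⟪y, rot p⟫ - ⟪x, rot p⟫) / D := by
          intro y
          simp only [hbe]
          rw [inner_rot, inner_rot]
          congr 1
          simp only [det2, PiLp.sub_apply]; ring
        have hvert : ∀ s ∈ ({x, a, b} : Set E2), 0 ≤ al s ∧ 0 ≤ be s ∧ al s + be s ≤ 1 := by
          intro s hs
          simp only [mem_insert_iff, mem_singleton_iff] at hs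
          rcases hs with h | h | h
          · rw [h, halx, hbex]; norm_num
          · rw [h, hala, hbea]; norm_num
          · rw [h, halb, hbeb]; norm_num
        refine ⟨?_, ?_, ?_⟩
        · rw [e1]
          refine div_nonneg (sub_nonneg.2 (hull_ge (fun s hs => ?_) hz)) hD.le
          have := (hvert s hs).1
          rw [e1] at this
          have := mul_nonneg this hD.le
          rw [div_mul_cancel₀ _ hD.ne'] at this
          linarith
        · rw [e2]
          refine div_nonneg (sub_nonneg.2 (hull_ge (fun s hs => ?_) hz)) hD.le
          have := (hvert s hs).2.1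
          rw [e2] at this
          have := mul_nonneg this hD.le
          rw [div_mul_cancel₀ _ hD.ne'] at this
          linarith
        · have h3 : ⟪z, w⟫ ≤ ⟪x, w⟫ + D := by
            refine hull_le (fun s hs => ?_) hz
            rw [hinner s]
            have := (hvert s hs).2.2
            nlinarith
          rw [hinner z] at h3
          by_contra hcon
          push Not at hcon
          nlinarith
      have haK : a ∈ convexHull ℝ (S' : Set E2) := subset_convexHull ℝ _ (Finset.mem_coe.2 haS')
      have hbK : b ∈ convexHull ℝ (S' : Set E2) := subset_convexHull ℝ _ (Finset.mem_coe.2 hbS')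
      have hsegab : ∀ z, 0 ≤ al z → 0 ≤ be z → al z + be z = 1 → z ∈ segment ℝ a b := by
        intro z h1 h2 h3
        refine ⟨al z, be z, h1, h2, h3, ?_⟩
        conv_rhs => rw [hexp z]
        have : x = (al z + be z) • x := by rw [h3, one_smul]
        conv_rhs => rw [this]
        rw [hp, hq]
        module
      have hcw : ∀ z, ⟪z, w⟫ = ⟪a, w⟫ ↔ al z + be z = 1 := by
        intro z
        rw [hinner z, hinner a, hala, hbea]
        constructor
        · intro h
          have : (al z + be z - 1) * D = 0 := by linarith
          rcases mul_eq_zero.1 this with h' | h'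
          · linarith
          · exact absurd h' hD.ne'
        · intro h; rw [h]; ring
      refine glue (T := convexHull ℝ ({x, a, b} : Set E2)) (K := convexHull ℝ (S' : Set E2))
        (w := w) (a := a) (b := b) (c := ⟪a, w⟫) hL hT hK hw0' ?_ ?_ ?_ ?_ ?_ ?_ ?_ haK hbK rfl
        ?_ ?_ ?_ cT cK
      · -- union
        apply Subset.antisymm
        · intro z hz
          rw [hSins, convexHull_insert (by simpa using hS'ne), convexJoin_singleton_left] at hz
          simp only [mem_iUnion, exists_prop] at hz
          obtain ⟨y, hyK, hzy⟩ := hz
          rw [segment_eq_image'] at hzy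
          obtain ⟨t, ⟨ht0, ht1⟩, rfl⟩ := hzy
          obtain ⟨hy1, hy2, hy3⟩ := hKal y hyK
          have haly : al (x + t • (y - x)) = t * al y := by
            simp only [hal, det2, PiLp.add_apply, PiLp.smul_apply, PiLp.sub_apply, smul_eq_mul]
            ring
          have hbey : be (x + t • (y - x)) = t * be y := by
            simp only [hbe, det2, PiLp.add_apply, PiLp.smul_apply, PiLp.sub_apply, smul_eq_mul]
            ring
          by_cases hcase : t * (al y + be y) ≤ 1
          · left
            apply hmemT
            · rw [haly]; positivity
            · rw [hbey]; positivity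
            · rw [haly, hbey]; linarith
          · right
            push Not at hcase
            set m := al y + be y with hm
            have hm0 : 0 < m := by linarith
            have hmt : 1 / m ≤ t := by
              rw [div_le_iff₀ hm0]; linarith
            have hy' : x + (1 / m) • (y - x) ∈ convexHull ℝ (S' : Set E2) := by
              have haly' : al (x + (1 / m) • (y - x)) = (1 / m) * al y := by
                simp only [hal, det2, PiLp.add_apply, PiLp.smul_apply, PiLp.sub_apply,
                  smul_eq_mul]
                ring
              have hbey' : be (x + (1 / m) • (y - x)) = (1 / m) * be y := by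
                simp only [hbe, det2, PiLp.add_apply, PiLp.smul_apply, PiLp.sub_apply,
                  smul_eq_mul]
                ring
              have h1 : x + (1 / m) • (y - x) ∈ segment ℝ a b := by
                apply hsegab
                · rw [haly']; positivity
                · rw [hbey']; positivity
                · rw [haly', hbey', ← mul_add, ← hm]; field_simp
              exact (convex_convexHull ℝ _).segment_subset haK hbK h1
            -- z is between y' and y
            by_cases hm1 : m = 1
            · have : t = 1 := by
                apply le_antisymm ht1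
                rw [hm1] at hmt; linarith
              rw [this]; simpa using hyK
            · have hm1' : 1 < m := lt_of_le_of_ne hy3 (Ne.symm hm1)
              have hm2 : 1 / m < 1 := by rw [div_lt_one hm0]; exact hm1'
              have hz : x + t • (y - x) ∈ segment ℝ (x + (1 / m) • (y - x)) y := by
                refine ⟨(1 - t) / (1 - 1 / m), (t - 1 / m) / (1 - 1 / m),
                  div_nonneg (by linarith) (by linarith), div_nonneg (by linarith) (by linarith),
                  ?_, ?_⟩
                · rw [← add_div]; rw [div_eq_one_iff_eq (by linarith)]; ring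
                · have hne : (1 - 1 / m) ≠ 0 := by linarith
                  apply ext2 <;>
                  · simp only [PiLp.add_apply, PiLp.smul_apply, PiLp.sub_apply, smul_eq_mul]
                    have hmne : m ≠ 0 := hm0.ne'
                    have hne' : m - 1 ≠ 0 := by linarith
                    field_simp
                    ring
              exact (convex_convexHull ℝ _).segment_subset hy' hyK hz
        · refine union_subset ?_ ?_
          · apply convexHull_mono
            intro y hy
            simp only [mem_insert_iff, mem_singleton_iff] at hy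
            rcases hy with rfl | rfl | rfl
            · exact hxS
            · exact haS
            · exact hbS
          · exact convexHull_mono (by rw [hSins]; exact subset_insert _ _)
      · intro z hz
        rw [hinner z, hinner a, hala, hbea]
        have := (hTal z hz).2.2
        nlinarith
      · intro z hz
        rw [hinner z, hinner a, hala, hbea]
        have := (hKal z hz).2.2
        nlinarith
      · intro z hz h
        exact hsegab z (hTal z hz).1 (hTal z hz).2.1 ((hcw z).1 h)
      · intro z hz h
        exact hsegab z (hKal z hz).1 (hKal z hz).2.1 ((hcw z).1 h)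
      · exact subset_convexHull ℝ _ (by simp)
      · exact subset_convexHull ℝ _ (by simp)
      · rw [hcw b, halb, hbeb]; norm_num
      · refine ⟨x, subset_convexHull ℝ _ (by simp), ?_⟩
        rw [hinner a, hala, hbea]; linarith
      · refine ⟨s, subset_convexHull ℝ _ (Finset.mem_coe.2 hsS'), ?_⟩
        rw [hinner a, hala, hbea, hinner s]
        have := hextra s hsS' hsa hsb
        nlinarith
    · push Not at hmore
      have hSeq : (S : Set E2) = {x, a, b} := by
        rw [hSins]
        congr 1
        ext s
        simp only [Finset.mem_coe, mem_insert_iff, mem_singleton_iff]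
        constructor
        · intro hs
          by_cases h : s = a
          · exact Or.inl h
          · exact Or.inr (hmore s hs h)
        · rintro (rfl | rfl)
          · exact haS'
          · exact hbS'
      rw [hSeq]
      exact cT

end Pool.Agent.H78String
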