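import Pool.Agent.H78String.Integrals

set_option autoImplicit false

open MeasureTheory Set Metric
open scoped Real Pointwise RealInnerProductSpace

namespace Pool.Agent.H78String

lemma finite_null {A : Set E2} (hA : A.Finite) : μH[1] A = 0 := by
  have := Measure.nullSingletonClass_hausdorff E2 (d := 1) one_pos
  exact hA.measure_zero _

lemma measure_union_of_inter_finite {A B : Set E2} (hB : IsClosed B) (h : (A ∩ B).Finite) :
    μH[1] (A ∪ B) = μH[1] A + μH[1] B :=
  measure_union₀ hB.measurableSet.nullMeasurableSet (finite_null h)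

lemma isClosed_segment' (a b : E2) : IsClosed (segment ℝ a b) := by
  rw [← convexHull_pair]
  exact Set.Finite.isClosed_convexHull _ (by simp : ({a, b} : Set E2).Finite)

lemma coord_segment (b : AffineBasis (Fin 3) ℝ E2) {i j k : Fin 3} (hi : k ≠ i) (hj : k ≠ j)
    {z : E2} (hz : z ∈ segment ℝ (b i) (b j)) : b.coord k z = 0 := by
  rw [segment_eq_image_lineMap] at hz
  obtain ⟨t, -, rfl⟩ := hz
  rw [AffineMap.apply_lineMap, b.coord_apply_ne hi, b.coord_apply_ne hj]
  simp

lemma triangle_frontier_eq (b : AffineBasis (Fin 3) ℝ E2) :
    frontier (convexHull ℝ (range b)) =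
      (segment ℝ (b 0) (b 1) ∪ segment ℝ (b 1) (b 2)) ∪ segment ℝ (b 2) (b 0) := by
  have hcl : IsClosed (convexHull ℝ (range b)) := (finite_range b).isClosed_convexHull _
  have hcoord := b.convexHull_eq_nonneg_coord
  have hint := b.interior_convexHull
  have hs : ∀ i j k : Fin 3, k ≠ i → k ≠ j →
      segment ℝ (b i) (b j) ⊆ frontier (convexHull ℝ (range b)) := by
    intro i j k hi hj z hz
    rw [hcl.frontier_eq]
    refine ⟨(convex_convexHull ℝ _).segment_subset (subset_convexHull ℝ _ (mem_range_self i))
      (subset_convexHull ℝ _ (mem_range_self j)) hz, ?_⟩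
    rw [hint]
    intro h
    exact absurd (coord_segment b hi hj hz) (h k).ne'
  apply Subset.antisymm
  · intro z hz
    rw [hcl.frontier_eq] at hz
    have h1 : ∀ i, 0 ≤ b.coord i z := by
      have := hz.1
      rw [hcoord] at this
      exact this
    have h2 : ∃ i, b.coord i z ≤ 0 := by
      by_contra hcon
      push Not at hcon
      exact hz.2 (by rw [hint]; exact hcon)
    obtain ⟨i, hi⟩ := h2
    have h3 : b.coord i z = 0 := le_antisymm hi (h1 i)
    have hsum := b.sum_coord_apply_eq_one z
    have hlin := b.linear_combination_coord_eq_self z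
    rw [Fin.sum_univ_three] at hsum hlin
    fin_cases i
    · left; right
      simp only [Fin.zero_eta, Fin.isValue] at h3
      rw [h3] at hsum hlin
      exact ⟨_, _, h1 1, h1 2, by linarith, by simpa using hlin⟩
    · right
      simp only [Fin.mk_one, Fin.isValue] at h3
      rw [h3] at hsum hlin
      exact ⟨_, _, h1 2, h1 0, by linarith, by rw [add_comm]; simpa using hlin⟩
    · left; left
      simp only [Fin.reduceFinMk, Fin.isValue] at h3
      rw [h3] at hsum hlin
      exact ⟨_, _, h1 0, h1 1, by linarith, by simpa using hlin⟩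
  · refine union_subset (union_subset ?_ ?_) ?_
    · exact hs 0 1 2 (by decide) (by decide)
    · exact hs 1 2 0 (by decide) (by decide)
    · exact hs 2 0 1 (by decide) (by decide)

lemma eq_of_coord (b : AffineBasis (Fin 3) ℝ E2) {z : E2} {i j k : Fin 3} (hij : i ≠ j)
    (hik : i ≠ k) (hjk : j ≠ k) (hj : b.coord j z = 0) (hk : b.coord k z = 0) : z = b i := by
  have hsum := b.sum_coord_apply_eq_one z
  have hlin := b.linear_combination_coord_eq_self z
  rw [Fin.sum_univ_three] at hsum hlin
  fin_cases i <;> fin_cases j <;> fin_cases k <;> simp at hij hik hjk hj hk ⊢ <;>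
    simp [hj, hk] at hsum hlin <;> simp [hsum] at hlin <;> exact hlin.symm

lemma triangle_frontier_measure (b : AffineBasis (Fin 3) ℝ E2) :
    μH[1] (frontier (convexHull ℝ (range b))) =
      ENNReal.ofReal (‖b 0 - b 1‖ + ‖b 1 - b 2‖ + ‖b 2 - b 0‖) := by
  rw [triangle_frontier_eq]
  rw [measure_union_of_inter_finite (isClosed_segment' _ _),
    measure_union_of_inter_finite (isClosed_segment' _ _), hausdorffMeasure_segment,
    hausdorffMeasure_segment, hausdorffMeasure_segment, edist_dist, edist_dist, edist_dist,
    dist_eq_norm, dist_eq_norm, dist_eq_norm, ENNReal.ofReal_add (by positivity) (by positivity),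
    ENNReal.ofReal_add (by positivity) (by positivity)]
  · refine (finite_singleton (b 1)).subset ?_
    rintro z ⟨h1, h2⟩
    exact eq_of_coord b (by decide) (by decide) (by decide)
      (coord_segment b (k := 2) (by decide) (by decide) h1)
      (coord_segment b (k := 0) (by decide) (by decide) h2)
  · refine ((finite_singleton (b 0)).union (finite_singleton (b 2))).subset ?_
    rintro z ⟨h1 | h1, h2⟩
    · left
      exact eq_of_coord b (by decide) (by decide) (by decide)
        (coord_segment b (k := 2) (by decide) (by decide) h1)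
        (coord_segment b (k := 1) (by decide) (by decide) h2)
    · right
      exact eq_of_coord b (by decide) (by decide) (by decide)
        (coord_segment b (k := 0) (by decide) (by decide) h1)
        (coord_segment b (k := 1) (by decide) (by decide) h2)

/-- The Cauchy formula for a nondegenerate triangle. -/
lemma cauchy_triangle {x a b : E2} (h : AffineIndependent ℝ ![x, a, b]) :
    μH[1] (frontier (convexHull ℝ {x, a, b})) = ENNReal.ofReal (cper (convexHull ℝ {x, a, b})) := by
  have htop : affineSpan ℝ (range ![x, a, b]) = ⊤ := by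
    rw [h.affineSpan_eq_top_iff_card_eq_finrank_add_one]
    simp
  let B : AffineBasis (Fin 3) ℝ E2 := ⟨![x, a, b], h, htop⟩
  have hr : range B = {x, a, b} := by
    show range ![x, a, b] = _
    ext z
    simp only [mem_range, mem_insert_iff, mem_singleton_iff, Fin.exists_fin_succ]
    simp [eq_comm]
  have h0 : B 0 = x := rfl
  have h1 : B 1 = a := rfl
  have h2 : B 2 = b := rfl
  rw [← hr, triangle_frontier_measure, hr, cper_triangle, h0, h1, h2]

end Pool.Agent.H78String
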